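import Mathlib

/-! Extension of characters: a character of a subgroup `R` extends (approximately, then exactly by
a Hyers-type argument) to subgroups contained in `R + W` for a small neighbourhood `W` of zero. -/

namespace Pool.Agent.Helper99.CharExtend

open Filter Topology Pointwise

theorem exists_real_lift (t : AddCircle (1 : ℝ)) : ∃ x : ℝ, (x : AddCircle (1 : ℝ)) = t ∧ |x| = ‖t‖ := by
  obtain ⟨x, rfl⟩ := QuotientAddGroup.mk_surjective t
  refine ⟨x - round x, ?_, ?_⟩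
  · have : ((x - round x : ℝ) : AddCircle (1 : ℝ)) = (x : AddCircle (1 : ℝ)) - ((round x : ℤ) : ℝ) := rfl
    rw [this]
    have h2 : (((round x : ℤ) : ℝ) : AddCircle (1 : ℝ)) = 0 := by
      rw [AddCircle.coe_eq_zero_iff]
      exact ⟨round x, by simp⟩
    rw [h2, sub_zero]
  · exact (UnitAddCircle.norm_eq (x := x)).symm

theorem norm_two_smul {t : AddCircle (1 : ℝ)} (h : ‖t‖ ≤ 1 / 4) : ‖(2 : ℕ) • t‖ = 2 * ‖t‖ := by
  obtain ⟨x, rfl, hx⟩ := exists_real_lift t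
  have h1 : ((2 : ℕ) • (x : AddCircle (1 : ℝ))) = ((2 * x : ℝ) : AddCircle (1 : ℝ)) := by
    rw [two_nsmul, ← AddCircle.coe_add, two_mul]
  rw [h1, ← hx]
  rw [← hx] at h
  rw [(AddCircle.norm_coe_eq_abs_iff (1 : ℝ) one_ne_zero).2]
  · rw [abs_mul, abs_two]
  · rw [abs_mul, abs_two, abs_one]; linarith

theorem norm_pow_smul {t : AddCircle (1 : ℝ)} {N : ℕ} (h : ∀ n < N, ‖(2 ^ n : ℕ) • t‖ ≤ 1 / 4) :
    ‖(2 ^ N : ℕ) • t‖ = 2 ^ N * ‖t‖ := by
  induction N with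
  | zero => simp
  | succ N ih =>
    have h1 := ih (fun n hn => h n (by omega))
    have h2 := h N (by omega)
    rw [pow_succ', mul_smul, norm_two_smul h2, h1, pow_succ']
    ring

theorem norm_le_of_pow {t : AddCircle (1 : ℝ)} {N : ℕ} (h : ∀ n ≤ N, ‖(2 ^ n : ℕ) • t‖ ≤ 1 / 4) :
    ‖t‖ ≤ (1 / 2) ^ N := by
  have h1 := norm_pow_smul (N := N) (t := t) (fun n hn => h n hn.le)
  have h2 := h N le_rfl
  rw [h1] at h2
  rw [one_div, inv_pow, ← one_div, le_div_iff₀ (by positivity)]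
  linarith

theorem eq_zero_of_pow {t : AddCircle (1 : ℝ)} (h : ∀ n, ‖(2 ^ n : ℕ) • t‖ ≤ 1 / 4) : t = 0 := by
  rw [← norm_eq_zero]
  apply le_antisymm _ (norm_nonneg _)
  have h1 : ∀ N : ℕ, ‖t‖ ≤ (1 / 2) ^ N := fun N => norm_le_of_pow (fun n _ => h n)
  exact ge_of_tendsto' (tendsto_pow_atTop_nhds_zero_of_lt_one (by norm_num) (by norm_num)) h1

/-- Additive maps with values of norm at most `1/4` vanish. -/
theorem hom_eq_zero {A : Type*} [AddCommGroup A] (φ : A →+ AddCircle (1 : ℝ))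
    (h : ∀ a, ‖φ a‖ ≤ 1 / 4) (a : A) : φ a = 0 := by
  apply eq_zero_of_pow
  intro n
  rw [← map_nsmul]
  exact h _

/-- Hyers: an almost additive map into the circle is near an additive one. -/
theorem hyers {A : Type*} [AddCommGroup A] (f : A → AddCircle (1 : ℝ)) {ε : ℝ} (hε : ε ≤ 1 / 16)
    (hf : ∀ x y, ‖f x + f y - f (x + y)‖ ≤ ε) :
    ∃ ψ : A →+ AddCircle (1 : ℝ), ∀ x, ‖ψ x - f x‖ ≤ ε := by
  have hε0 : 0 ≤ ε := (norm_nonneg _).trans (hf 0 0)
  choose ρ hρ1 hρ2 using exists_real_lift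
  let e : A → ℝ := fun x => ρ (f (x + x) - (f x + f x))
  have he1 : ∀ x, ((e x : ℝ) : AddCircle (1 : ℝ)) = f (x + x) - (f x + f x) := fun x => hρ1 _
  have he2 : ∀ x, |e x| ≤ ε := by
    intro x
    have := hf x x
    rw [← norm_neg, neg_sub] at this
    simp only [e, hρ2]
    exact this
  have hsum : ∀ x : A, Summable fun n : ℕ => e ((2 ^ n : ℕ) • x) / 2 ^ (n + 1) := by
    intro x
    refine Summable.of_norm_bounded (g := fun n : ℕ => ε / 2 * (1 / 2) ^ n)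
      ((summable_geometric_of_lt_one (by norm_num) (by norm_num)).mul_left _) ?_
    intro n
    rw [Real.norm_eq_abs, abs_div, abs_of_pos (by positivity : (0:ℝ) < 2 ^ (n + 1)), pow_succ,
      div_le_iff₀ (by positivity)]
    have := he2 ((2 ^ n : ℕ) • x)
    have h3 : ε / 2 * (1 / 2) ^ n * (2 ^ n * 2) = ε := by
      rw [one_div, inv_pow]; field_simp
    rw [h3]
    exact this
  let σ : A → ℝ := fun x => ∑' n : ℕ, e ((2 ^ n : ℕ) • x) / 2 ^ (n + 1)
  have hσ : ∀ x, |σ x| ≤ ε := by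
    intro x
    have h1 : HasSum (fun n : ℕ => ε / 2 * (1 / 2) ^ n) (ε / 2 * (1 - 1 / 2)⁻¹) :=
      (hasSum_geometric_of_lt_one (by norm_num) (by norm_num)).mul_left _
    have h2 := tsum_of_norm_bounded (f := fun n : ℕ => e ((2 ^ n : ℕ) • x) / 2 ^ (n + 1)) h1 (by
      intro n
      rw [Real.norm_eq_abs, abs_div, abs_of_pos (by positivity : (0:ℝ) < 2 ^ (n + 1)), pow_succ,
        div_le_iff₀ (by positivity)]
      have := he2 ((2 ^ n : ℕ) • x)
      have h3 : ε / 2 * (1 / 2) ^ n * (2 ^ n * 2) = ε := by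
        rw [one_div, inv_pow]; field_simp
      rw [h3]
      exact this)
    rw [Real.norm_eq_abs] at h2
    refine h2.trans (le_of_eq ?_)
    norm_num
  have hσ2 : ∀ x, 2 * σ x = e x + σ (x + x) := by
    intro x
    simp only [σ]
    rw [(hsum x).tsum_eq_zero_add, mul_add, ← tsum_mul_left]
    congr 1
    · simp only [pow_zero, one_smul, zero_add, pow_one]
      ring
    · congr 1
      ext n
      rw [pow_succ (2 : ℕ) n, mul_smul, two_smul ℕ x, pow_succ (2 : ℝ) (n + 1)]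
      field_simp
  let ψ : A → AddCircle (1 : ℝ) := fun x => f x + (σ x : ℝ)
  have hψf : ∀ x, ‖ψ x - f x‖ ≤ ε := by
    intro x
    have : ψ x - f x = ((σ x : ℝ) : AddCircle (1 : ℝ)) := by simp [ψ]
    rw [this]
    have h1 : |σ x| ≤ |(1 : ℝ)| / 2 := by
      rw [abs_one]; linarith [hσ x]
    rw [(AddCircle.norm_coe_eq_abs_iff (1 : ℝ) one_ne_zero).2 h1]
    exact hσ x
  have hψ2 : ∀ x, ψ (x + x) = ψ x + ψ x := by
    intro x
    simp only [ψ]
    have h1 : ((2 * σ x : ℝ) : AddCircle (1 : ℝ)) = ((e x : ℝ) : AddCircle (1 : ℝ)) + ((σ (x + x) : ℝ) : AddCircle (1 : ℝ)) := by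
      rw [hσ2, AddCircle.coe_add]
    rw [two_mul, AddCircle.coe_add, he1] at h1
    have : f x + ((σ x : ℝ) : AddCircle (1 : ℝ)) + (f x + ((σ x : ℝ) : AddCircle (1 : ℝ))) =
        (f x + f x) + (((σ x : ℝ) : AddCircle (1 : ℝ)) + ((σ x : ℝ) : AddCircle (1 : ℝ))) := by abel
    rw [this, h1]
    abel
  let c : A → A → AddCircle (1 : ℝ) := fun x y => ψ (x + y) - ψ x - ψ y
  have hc1 : ∀ x y, ‖c x y‖ ≤ 4 * ε := by
    intro x y
    have : c x y = (ψ (x + y) - f (x + y)) - (ψ x - f x) - (ψ y - f y) -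
        (f x + f y - f (x + y)) := by simp only [c]; abel
    rw [this]
    calc _ ≤ ‖(ψ (x + y) - f (x + y)) - (ψ x - f x) - (ψ y - f y)‖ + ‖f x + f y - f (x + y)‖ :=
          norm_sub_le _ _
      _ ≤ (‖(ψ (x + y) - f (x + y)) - (ψ x - f x)‖ + ‖ψ y - f y‖) + ‖f x + f y - f (x + y)‖ := by
          gcongr; exact norm_sub_le _ _
      _ ≤ ((‖ψ (x + y) - f (x + y)‖ + ‖ψ x - f x‖) + ‖ψ y - f y‖) + ‖f x + f y - f (x + y)‖ := by
          gcongr; exact norm_sub_le _ _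
      _ ≤ _ := by linarith [hψf (x + y), hψf x, hψf y, hf x y]
  have hc2 : ∀ x y, c (x + x) (y + y) = c x y + c x y := by
    intro x y
    simp only [c]
    have : x + x + (y + y) = (x + y) + (x + y) := by abel
    rw [this, hψ2, hψ2, hψ2]
    abel
  have hc3 : ∀ n : ℕ, ∀ x y, (2 ^ n : ℕ) • c x y = c ((2 ^ n : ℕ) • x) ((2 ^ n : ℕ) • y) := by
    intro n
    induction n with
    | zero => intro x y; simp
    | succ n ih =>
      intro x y
      rw [pow_succ', mul_smul, ih, two_smul, ← hc2, mul_smul, mul_smul, two_smul, two_smul]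
  have hc : ∀ x y, c x y = 0 := by
    intro x y
    apply eq_zero_of_pow
    intro n
    rw [hc3]
    linarith [hc1 ((2 ^ n : ℕ) • x) ((2 ^ n : ℕ) • y)]
  refine ⟨AddMonoidHom.mk' ψ fun x y => ?_, hψf⟩
  have := hc x y
  simp only [c] at this
  rw [sub_sub, sub_eq_zero] at this
  exact this

/-- A homomorphism with small values near zero is continuous. -/
theorem continuous_of_small {A : Type*} [AddCommGroup A] [TopologicalSpace A]
    [IsTopologicalAddGroup A] (φ : A →+ AddCircle (1 : ℝ)) {U : Set A} (hU : U ∈ 𝓝 (0 : A))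
    (h : ∀ a ∈ U, ‖φ a‖ ≤ 1 / 4) : Continuous φ := by
  apply continuous_of_continuousAt_zero
  rw [ContinuousAt, map_zero, Metric.tendsto_nhds]
  intro ε hε
  obtain ⟨N, hN⟩ := exists_pow_lt_of_lt_one hε (by norm_num : (1 / 2 : ℝ) < 1)
  have h1 : ∀ n : ℕ, ∀ᶠ a in 𝓝 (0 : A), (2 ^ n : ℕ) • a ∈ U := by
    intro n
    have : Tendsto (fun a : A => (2 ^ n : ℕ) • a) (𝓝 0) (𝓝 ((2 ^ n : ℕ) • (0 : A))) :=
      (continuous_nsmul _).tendsto 0
    rw [smul_zero] at this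
    exact this hU
  have h2 : ∀ᶠ a in 𝓝 (0 : A), ∀ n ∈ Finset.range (N + 1), (2 ^ n : ℕ) • a ∈ U :=
    (Finset.eventually_all _).2 fun n _ => h1 n
  filter_upwards [h2] with a ha
  rw [dist_zero_right]
  refine (norm_le_of_pow (N := N) fun n hn => ?_).trans_lt hN
  rw [← map_nsmul]
  exact h _ (ha n (Finset.mem_range.2 (by omega)))

theorem exists_char_extend {G : Type*} [AddCommGroup G] [TopologicalSpace G]
    [IsTopologicalAddGroup G] (R : AddSubgroup G) (χ : R →+ AddCircle (1 : ℝ))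
    (hχ : Continuous χ) :
    ∃ W ∈ 𝓝 (0 : G), ∀ P : AddSubgroup G, (∀ y ∈ P, ∃ r ∈ R, y - r ∈ W) →
      ∃ ψ : P →+ AddCircle (1 : ℝ), Continuous ψ ∧
        ∀ (r : G) (hr : r ∈ R) (hP : r ∈ P), ψ ⟨r, hP⟩ = χ ⟨r, hr⟩ := by
  -- a neighbourhood on which `χ` is small
  obtain ⟨V, hV, hVχ⟩ : ∃ V ∈ 𝓝 (0 : G), ∀ r : R, (r : G) ∈ V → ‖χ r‖ ≤ 1 / 100 := by
    have h1 : ∀ᶠ r in 𝓝 (0 : R), ‖χ r‖ < 1 / 100 := by
      have h2 := hχ.tendsto 0
      rw [map_zero, Metric.tendsto_nhds] at h2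
      have := h2 (1 / 100) (by norm_num)
      simpa [dist_zero_right] using this
    rw [nhds_subtype_eq_comap, eventually_comap] at h1
    refine ⟨{g | ∀ r : R, (r : G) = g → ‖χ r‖ < 1 / 100}, h1, ?_⟩
    intro r hr
    exact (hr r rfl).le
  -- halving
  obtain ⟨V1, hV1, hV1V⟩ : ∃ V1 ∈ 𝓝 (0 : G), ∀ x ∈ V1, ∀ y ∈ V1, ∀ z ∈ V1, x - y - z ∈ V := by
    have h1 : Tendsto (fun p : G × G × G => p.1 - p.2.1 - p.2.2) (𝓝 (0, 0, 0)) (𝓝 0) := by
      have : Continuous fun p : G × G × G => p.1 - p.2.1 - p.2.2 := by fun_prop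
      simpa using this.tendsto (0, 0, 0)
    have h2 := h1 hV
    rw [mem_map, nhds_prod_eq, nhds_prod_eq, mem_prod_iff] at h2
    obtain ⟨A, hA, B, hB, hAB⟩ := h2
    rw [mem_prod_iff] at hB
    obtain ⟨B1, hB1, B2, hB2, hB12⟩ := hB
    refine ⟨A ∩ (B1 ∩ B2), inter_mem hA (inter_mem hB1 hB2), ?_⟩
    intro x hx y hy z hz
    have : (x, y, z) ∈ A ×ˢ B := ⟨hx.1, hB12 ⟨hy.2.1, hz.2.2⟩⟩
    exact hAB this
  let W : Set G := V1 ∩ (fun x => -x) ⁻¹' V1
  have hW : W ∈ 𝓝 (0 : G) := by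
    refine inter_mem hV1 ?_
    have : Tendsto (fun x : G => -x) (𝓝 0) (𝓝 0) := by
      have := (continuous_neg (G := G)).tendsto 0
      simpa using this
    exact this hV1
  refine ⟨W, hW, fun P hP => ?_⟩
  choose r hrR hrW using fun y : P => hP y y.2
  have h0 : (0 : G) ∈ V1 := mem_of_mem_nhds hV1
  let f : P → AddCircle (1 : ℝ) := fun y => χ ⟨r y, hrR y⟩
  have hf : ∀ x y, ‖f x + f y - f (x + y)‖ ≤ 1 / 100 := by
    intro x y
    have h1 : f x + f y - f (x + y) =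
        χ (⟨r x, hrR x⟩ + ⟨r y, hrR y⟩ - ⟨r (x + y), hrR (x + y)⟩) := by
      rw [map_sub, map_add]
    rw [h1]
    apply hVχ
    have h2 := hV1V _ (hrW (x + y)).1 _ (hrW x).1 _ (hrW y).1
    have h3 : ((x + y : P) : G) - r (x + y) - ((x : G) - r x) - ((y : G) - r y) =
        ((⟨r x, hrR x⟩ + ⟨r y, hrR y⟩ - ⟨r (x + y), hrR (x + y)⟩ : R) : G) := by
      push_cast
      abel
    rw [← h3]
    exact h2
  obtain ⟨ψ, hψ⟩ := hyers f (ε := 1 / 100) (by norm_num) hf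
  refine ⟨ψ, ?_, ?_⟩
  · have hU : {y : P | (y : G) ∈ W} ∈ 𝓝 (0 : P) := by
      have : Tendsto (fun y : P => (y : G)) (𝓝 0) (𝓝 0) := by
        have := (continuous_subtype_val (p := fun x => x ∈ P)).tendsto 0
        simpa using this
      exact this hW
    refine continuous_of_small ψ hU fun y hy => ?_
    have h1 : ‖f y‖ ≤ 1 / 100 := by
      apply hVχ
      have h2 := hV1V _ hy.1 _ (hrW y).1 _ h0
      have h3 : (y : G) - ((y : G) - r y) - 0 = r y := by abel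
      rw [h3] at h2
      exact h2
    have h2 := hψ y
    have h3 : ‖ψ y‖ ≤ ‖ψ y - f y‖ + ‖f y‖ := by
      have := norm_add_le (ψ y - f y) (f y)
      rwa [sub_add_cancel] at this
    linarith
  · -- on `R ⊓ P`
    let i1 : (R ⊓ P : AddSubgroup G) →+ P := AddSubgroup.inclusion inf_le_right
    let i2 : (R ⊓ P : AddSubgroup G) →+ R := AddSubgroup.inclusion inf_le_left
    have hz := hom_eq_zero (ψ.comp i1 - χ.comp i2) (by
      rintro ⟨y, hyR, hyP⟩
      have h1 : ‖χ ⟨y, hyR⟩ - f ⟨y, hyP⟩‖ ≤ 1 / 100 := by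
        have h2 : χ ⟨y, hyR⟩ - f ⟨y, hyP⟩ = χ (⟨y, hyR⟩ - ⟨r ⟨y, hyP⟩, hrR ⟨y, hyP⟩⟩) := by
          rw [map_sub]
        rw [h2]
        apply hVχ
        have h2 := hV1V _ (hrW ⟨y, hyP⟩).1 _ h0 _ h0
        have h3 : ((⟨y, hyP⟩ : P) : G) - r ⟨y, hyP⟩ - 0 - 0 =
            ((⟨y, hyR⟩ - ⟨r ⟨y, hyP⟩, hrR ⟨y, hyP⟩⟩ : R) : G) := by
          push_cast
          simp
        rw [← h3]
        exact h2
      have h2 := hψ ⟨y, hyP⟩
      have h3 : (ψ.comp i1 - χ.comp i2) ⟨y, hyR, hyP⟩ =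
          (ψ ⟨y, hyP⟩ - f ⟨y, hyP⟩) - (χ ⟨y, hyR⟩ - f ⟨y, hyP⟩) := by
        show ψ ⟨y, hyP⟩ - χ ⟨y, hyR⟩ = _
        abel
      rw [h3]
      have := norm_sub_le (ψ ⟨y, hyP⟩ - f ⟨y, hyP⟩) (χ ⟨y, hyR⟩ - f ⟨y, hyP⟩)
      linarith)
    intro s hs hsP
    have := hz ⟨s, hs, hsP⟩
    have h4 : ψ ⟨s, hsP⟩ - χ ⟨s, hs⟩ = 0 := this
    exact sub_eq_zero.1 h4

/-- Characters of open subgroups extend. -/
theorem extend_open {G : Type*} [AddCommGroup G] [TopologicalSpace G] [IsTopologicalAddGroup G]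
    (P : AddSubgroup G) (hP : IsOpen (P : Set G)) (ψ : P →+ AddCircle (1 : ℝ))
    (hψ : Continuous ψ) :
    ∃ Ψ : G →+ AddCircle (1 : ℝ), Continuous Ψ ∧ ∀ x : P, Ψ x = ψ x := by
  obtain ⟨Ψ, hΨ⟩ := (Module.Baer.of_divisible (AddCircle (1 : ℝ))).extension_property_addMonoidHom
    P.subtype (AddSubgroup.subtype_injective P) ψ
  have hΨ' : ∀ x : P, Ψ x = ψ x := fun x => by rw [← hΨ]; rfl
  refine ⟨Ψ, ?_, hΨ'⟩
  apply continuous_of_continuousAt_zero
  have h1 : ContinuousAt (fun x : P => Ψ x) 0 := by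
    have : (fun x : P => Ψ x) = ψ := by ext x; exact hΨ' x
    rw [this]
    exact hψ.continuousAt
  have h2 : IsOpenEmbedding (Subtype.val : P → G) := hP.isOpenEmbedding_subtypeVal
  have h3 : ContinuousAt Ψ ((0 : P) : G) := h2.continuousAt_iff.1 h1
  simpa using h3

/-- Characters of discrete groups separate points. -/
theorem exists_char_discrete {A : Type*} [AddCommGroup A] {a : A} (ha : a ≠ 0) :
    ∃ Ψ : A →+ AddCircle (1 : ℝ), Ψ a ≠ 0 := by
  obtain ⟨c, hc⟩ := CharacterModule.exists_character_apply_ne_zero_of_ne_zero ha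
  let j : AddCircle (1 : ℚ) →+ AddCircle (1 : ℝ) :=
    QuotientAddGroup.map _ _ ((Rat.castHom ℝ).toAddMonoidHom) (by
      intro x hx
      obtain ⟨n, hn⟩ := AddSubgroup.mem_zmultiples_iff.1 hx
      refine AddSubgroup.mem_comap.2 (AddSubgroup.mem_zmultiples_iff.2 ⟨n, ?_⟩)
      rw [← hn]
      simp)
  have hj : Function.Injective j := by
    rw [injective_iff_map_eq_zero]
    intro x hx
    obtain ⟨q, rfl⟩ := QuotientAddGroup.mk_surjective x
    have h1 : ((q : ℝ) : AddCircle (1 : ℝ)) = 0 := hx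
    rw [AddCircle.coe_eq_zero_iff] at h1
    obtain ⟨n, hn⟩ := h1
    have h2 : (n : ℚ) = q := by
      have : ((n : ℚ) : ℝ) = (q : ℝ) := by simpa using hn
      exact_mod_cast this
    show ((q : ℚ) : AddCircle (1 : ℚ)) = 0
    rw [AddCircle.coe_eq_zero_iff]
    exact ⟨n, by simpa using h2⟩
  refine ⟨j.comp c, fun h => hc (hj ?_)⟩
  rw [map_zero]
  exact h

end Pool.Agent.Helper99.CharExtend
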