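import Mathlib
import Pool.Agent.Helper89.PeterWeyl
import Pool.Agent.Helper91.Duality
import Pool.Agent.Helper15.Prufer
import Pool.Agent.Helper99.CharExtend

/-! Tightness and pseudocharacter of compact abelian groups. -/

set_option autoImplicit false

namespace Pool.Agent.Helper99.Tight

open Set Filter Topology Cardinal
open Pool.Agent.Helper91.Duality
open Pool.Agent.Helper15.Prufer (D pinv nsmul_pinv exists_of_nsmul_eq_zero exists_pow_nsmul
  exists_surj_prufer)

section General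

variable {C : Type*} [AddCommGroup C] [TopologicalSpace C] [IsTopologicalAddGroup C]
  [CompactSpace C]

section
variable [T2Space C]

theorem eq_of_chars {x y : C} (h : ∀ χ : Ch C, χ.1 x = χ.1 y) : x = y := by
  by_contra hne
  have h1 : x - y ≠ 0 := sub_ne_zero.2 hne
  obtain ⟨χ, hχ, h2⟩ := Pool.Agent.Helper89.PeterWeyl.exists_char_ne_zero h1
  apply h2
  rw [map_sub, sub_eq_zero]
  exact h ⟨χ, hχ⟩

/-- The topology of a compact group is determined by its characters. -/
theorem isClosedEmbedding_ev :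
    IsClosedEmbedding (fun (x : C) (χ : Ch C) => χ.1 x) := by
  refine Continuous.isClosedEmbedding ?_ ?_
  · exact continuous_pi fun χ => χ.2
  · intro x y h
    exact eq_of_chars fun χ => congrFun h χ

theorem continuous_of_chars {Y : Type*} [TopologicalSpace Y] {f : Y → C}
    (h : ∀ χ : Ch C, Continuous fun y => χ.1 (f y)) : Continuous f := by
  rw [isClosedEmbedding_ev.isInducing.continuous_iff]
  exact continuous_pi h

end

/-- Points outside a closed subgroup are separated from it by a character. -/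
theorem mem_of_chars (B : AddSubgroup C) (hB : IsClosed (B : Set C)) {y : C}
    (h : ∀ χ : Ch C, (∀ b ∈ B, χ.1 b = 0) → χ.1 y = 0) : y ∈ B := by
  have : IsClosed (B : Set C) := hB
  by_contra hy
  have h1 : (QuotientAddGroup.mk y : C ⧸ B) ≠ 0 := by
    rwa [Ne, QuotientAddGroup.eq_zero_iff]
  obtain ⟨χ, hχ, h2⟩ := Pool.Agent.Helper89.PeterWeyl.exists_char_ne_zero h1
  apply h2
  have h3 := h ⟨χ.comp (QuotientAddGroup.mk' B), hχ.comp continuous_quot_mk⟩ (by
    intro b hb
    have : (QuotientAddGroup.mk b : C ⧸ B) = 0 := (QuotientAddGroup.eq_zero_iff b).2 hb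
    show χ (QuotientAddGroup.mk b) = 0
    rw [this, map_zero])
  exact h3

/-- A separating family of neighbourhoods when there are few characters. -/
theorem sep_of_few {K : Type} [AddCommGroup K] [TopologicalSpace K] [IsTopologicalAddGroup K]
    [CompactSpace K] [T2Space K] (κ : Cardinal.{0}) (hκ : ℵ₀ ≤ κ) (h : #(Ch K) ≤ κ) :
    ∃ (I : Type) (V : I → Set K), #I ≤ κ ∧ (∀ i, V i ∈ 𝓝 0) ∧
      ∀ x : K, (∀ i, x ∈ V i) → x = 0 := by
  refine ⟨Ch K × ℕ, fun i => {x | ‖i.1.1 x‖ < 1 / ((i.2 : ℝ) + 1)}, ?_, ?_, ?_⟩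
  · rw [Cardinal.mk_prod, Cardinal.lift_id, Cardinal.lift_id, Cardinal.mk_nat]
    exact Cardinal.mul_le_of_le hκ h hκ
  · rintro ⟨χ, n⟩
    have h1 : Continuous fun x => ‖χ.1 x‖ := continuous_norm.comp χ.2
    have h2 : IsOpen {x | ‖χ.1 x‖ < 1 / ((n : ℝ) + 1)} := isOpen_lt h1 continuous_const
    apply h2.mem_nhds
    simp only [mem_ofPred_eq, map_zero, norm_zero]
    positivity
  · intro x hx
    apply eq_of_chars
    intro χ
    rw [map_zero, ← norm_eq_zero]
    apply le_antisymm _ (norm_nonneg _)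
    by_contra hcon
    push Not at hcon
    obtain ⟨n, hn⟩ := exists_nat_one_div_lt hcon
    have := hx (χ, n)
    simp only [mem_ofPred_eq] at this
    linarith

end General

section Padic

variable {p : ℕ} [hp : Fact p.Prime]

/-- Multiplication by a `p`-adic integer on `ℚ_p / ℤ_p`. -/
noncomputable def mulD (ζ : ℤ_[p]) : D p →+ D p :=
  QuotientAddGroup.map _ _ (AddMonoidHom.mulLeft (ζ : ℚ_[p])) (by
    intro x hx
    exact (PadicInt.subring p).mul_mem ζ.2 hx)

theorem mulD_mk (ζ : ℤ_[p]) (x : ℚ_[p]) :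
    mulD ζ (QuotientAddGroup.mk x) = QuotientAddGroup.mk ((ζ : ℚ_[p]) * x) := rfl

theorem mulD_add (ζ η : ℤ_[p]) (d : D p) : mulD (ζ + η) d = mulD ζ d + mulD η d := by
  induction d using QuotientAddGroup.induction_on with
  | H x =>
    rw [mulD_mk, mulD_mk, mulD_mk, ← QuotientAddGroup.mk_add, PadicInt.coe_add, add_mul]

theorem mulD_mul (ζ η : ℤ_[p]) (d : D p) : mulD (ζ * η) d = mulD ζ (mulD η d) := by
  induction d using QuotientAddGroup.induction_on with
  | H x =>
    rw [mulD_mk, mulD_mk, mulD_mk, PadicInt.coe_mul, mul_assoc]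

theorem mulD_natCast (n : ℕ) (d : D p) : mulD (n : ℤ_[p]) d = n • d := by
  induction d using QuotientAddGroup.induction_on with
  | H x =>
    rw [mulD_mk]
    have : (n : ℕ) • (QuotientAddGroup.mk x : D p) = QuotientAddGroup.mk (n • x) := rfl
    rw [this, nsmul_eq_mul]
    simp

theorem exists_mulD_ne (ζ : ℤ_[p]) (hζ : ζ ≠ 0) : ∃ d : D p, mulD ζ d ≠ 0 := by
  have hp1 : (p : ℚ_[p]) ≠ 0 := by exact_mod_cast hp.out.ne_zero
  have hζ' : (ζ : ℚ_[p]) ≠ 0 := by
    intro h
    apply hζ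
    exact Subtype.ext h
  refine ⟨QuotientAddGroup.mk ((ζ : ℚ_[p])⁻¹ * (p : ℚ_[p])⁻¹), ?_⟩
  rw [mulD_mk, Ne, QuotientAddGroup.eq_zero_iff, ← mul_assoc, mul_inv_cancel₀ hζ', one_mul]
  intro h
  have h1 : ‖(p : ℚ_[p])⁻¹‖ ≤ 1 := h
  rw [norm_inv, Padic.norm_p, inv_inv] at h1
  have : (1 : ℝ) < p := by exact_mod_cast hp.out.one_lt
  linarith

theorem mulD_pow_mul {d : D p} {k : ℕ} (hk : p ^ k • d = 0) (ζ : ℤ_[p]) :
    mulD ((p : ℤ_[p]) ^ k * ζ) d = 0 := by
  rw [mul_comm, mulD_mul]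
  have : mulD ((p : ℤ_[p]) ^ k) d = p ^ k • d := by
    rw [← mulD_natCast]; push_cast; rfl
  rw [this, hk, map_zero]

/-- There is an injective character of `ℚ_p / ℤ_p`. -/
theorem exists_inj_char : ∃ ι : D p →+ AddCircle (1 : ℝ), Function.Injective ι := by
  have hpi : pinv p ≠ 0 := by
    intro h
    have h1 : (QuotientAddGroup.mk ((p : ℚ_[p])⁻¹) : D p) = 0 := h
    rw [QuotientAddGroup.eq_zero_iff] at h1
    have h2 : ‖(p : ℚ_[p])⁻¹‖ ≤ 1 := h1
    rw [norm_inv, Padic.norm_p, inv_inv] at h2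
    have : (1 : ℝ) < p := by exact_mod_cast hp.out.one_lt
    linarith
  obtain ⟨ι, hι⟩ := CharExtend.exists_char_discrete hpi
  refine ⟨ι, ?_⟩
  rw [injective_iff_map_eq_zero]
  have key : ∀ d : D p, p • d = 0 → ι d = 0 → d = 0 := by
    intro d hd hιd
    obtain ⟨n, rfl⟩ := exists_of_nsmul_eq_zero p hd
    rw [map_nsmul] at hιd
    by_cases hn : p ∣ n
    · obtain ⟨m, rfl⟩ := hn
      rw [mul_comm, mul_smul, nsmul_pinv, smul_zero]
    · exfalso
      apply hι
      have h1 : p • ι (pinv p) = 0 := by rw [← map_nsmul, nsmul_pinv, map_zero]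
      have h2 : addOrderOf (ι (pinv p)) ∣ p := addOrderOf_dvd_iff_nsmul_eq_zero.2 h1
      have h3 : addOrderOf (ι (pinv p)) ∣ n := addOrderOf_dvd_iff_nsmul_eq_zero.2 hιd
      rcases (Nat.dvd_prime hp.out).1 h2 with h4 | h4
      · exact AddMonoid.addOrderOf_eq_one_iff.1 h4
      · rw [h4] at h3; exact absurd h3 hn
  intro d hd
  obtain ⟨k, hk⟩ := exists_pow_nsmul p d
  induction k generalizing d with
  | zero => simpa using hk
  | succ k ih =>
    have h1 : p ^ k • d = 0 := by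
      apply key
      · rw [← mul_smul, ← pow_succ', hk]
      · rw [map_nsmul, hd, smul_zero]
    exact ih d hd h1

/-- The multiplication by a `p`-adic integer followed by a character is continuous in the
`p`-adic integer. -/
theorem continuous_mulD (ι : D p →+ AddCircle (1 : ℝ)) (d : D p) :
    Continuous fun ζ : ℤ_[p] => ι (mulD ζ d) := by
  let φ : ℤ_[p] →+ AddCircle (1 : ℝ) :=
    AddMonoidHom.mk' (fun ζ => ι (mulD ζ d)) (fun a b => by rw [mulD_add, map_add])
  obtain ⟨k, hk⟩ := exists_pow_nsmul p d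
  refine CharExtend.continuous_of_small φ
    (U := {ζ : ℤ_[p] | ‖ζ‖ ≤ (p : ℝ) ^ (-(k : ℤ))}) ?_ ?_
  · have : Metric.closedBall (0 : ℤ_[p]) ((p : ℝ) ^ (-(k : ℤ))) ∈ 𝓝 (0 : ℤ_[p]) :=
      Metric.closedBall_mem_nhds _ (by
        have : (0 : ℝ) < p := by exact_mod_cast hp.out.pos
        positivity)
    simpa [Metric.closedBall, dist_zero_right] using this
  · intro ζ hζ
    rw [mem_ofPred_eq, PadicInt.norm_le_pow_iff_mem_span_pow, Ideal.mem_span_singleton] at hζ
    obtain ⟨η, rfl⟩ := hζ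
    show ‖ι (mulD _ d)‖ ≤ _
    rw [mulD_pow_mul hk, map_zero, norm_zero]
    norm_num

end Padic

/-- The main case: a large surjection of the character group onto a sum of Pruefer groups is
impossible. -/
theorem no_large_prufer {C : Type} [AddCommGroup C] [TopologicalSpace C]
    [IsTopologicalAddGroup C] [CompactSpace C] [T2Space C]
    (H : AddSubgroup C)
    (hess : ∀ L : AddSubgroup C, IsClosed (L : Set C) → L ≠ ⊥ → ∃ y ∈ L, y ∈ H ∧ y ≠ 0)
    (κ : Cardinal.{0}) (hκ : ℵ₀ ≤ κ)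
    (ht : ∀ A ⊆ (H : Set C), ∀ x ∈ H, x ∈ closure A → ∃ B ⊆ A, #B ≤ κ ∧ x ∈ closure B)
    (p : ℕ) [hp : Fact p.Prime] (I : Type) (Φ : Ch C →+ (I →₀ D p)) (hI : κ < #I)
    (hΦ : Function.Surjective Φ) : False := by
  classical
  obtain ⟨ι, hι⟩ := exists_inj_char (p := p)
  -- the points `x_w`
  let φ : (I → ℤ_[p]) → (Ch C →+ AddCircle (1 : ℝ)) := fun w =>
    (Finsupp.liftAddHom fun ξ => ι.comp (mulD (w ξ))).comp Φ
  have hφ : ∀ w χ, φ w χ = (Φ χ).sum fun ξ d => ι (mulD (w ξ) d) := fun w χ => rfl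
  choose x hx using fun w : I → ℤ_[p] => dual_surj (φ w)
  have hadd : ∀ v w, x (v + w) = x v + x w := by
    intro v w
    apply eq_of_chars
    intro χ
    rw [map_add, ← hx, ← hx, ← hx, hφ, hφ, hφ, ← Finsupp.sum_add]
    apply Finsupp.sum_congr
    intro ξ _
    rw [Pi.add_apply, mulD_add, map_add]
  let xh : (I → ℤ_[p]) →+ C := AddMonoidHom.mk' x hadd
  have hxh : ∀ w, xh w = x w := fun w => rfl
  have hsingle : ∀ w (ξ : I) (d : D p) (χ : Ch C), Φ χ = Finsupp.single ξ d →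
      χ.1 (x w) = ι (mulD (w ξ) d) := by
    intro w ξ d χ hχ
    rw [← hx, hφ, hχ, Finsupp.sum_single_index]
    rw [map_zero, map_zero]
  have hxne : ∀ w, w ≠ 0 → x w ≠ 0 := by
    intro w hw h0
    obtain ⟨ξ, hξ⟩ := Function.ne_iff.1 hw
    obtain ⟨d, hd⟩ := exists_mulD_ne (w ξ) hξ
    obtain ⟨χ, hχ⟩ := hΦ (Finsupp.single ξ d)
    have h1 := hsingle w ξ d χ hχ
    rw [h0, map_zero] at h1
    apply hd
    apply hι
    rw [map_zero]
    exact h1.symm
  -- continuity of `ζ ↦ x (ζ w)`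
  have hcont : ∀ w : I → ℤ_[p], Continuous fun ζ : ℤ_[p] => x (fun ξ => ζ * w ξ) := by
    intro w
    apply continuous_of_chars
    intro χ
    have h1 : (fun ζ : ℤ_[p] => χ.1 (x fun ξ => ζ * w ξ)) =
        fun ζ => ∑ ξ ∈ (Φ χ).support, ι (mulD ζ (mulD (w ξ) (Φ χ ξ))) := by
      ext ζ
      rw [← hx, hφ, Finsupp.sum]
      refine Finset.sum_congr rfl fun ξ _ => ?_
      rw [mulD_mul]
    rw [h1]
    exact continuous_finsetSum _ fun ξ _ => continuous_mulD ι _
  -- the closed subgroups `L w`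
  let L : (I → ℤ_[p]) → AddSubgroup C := fun w =>
    (AddMonoidHom.mk' (fun ζ : ℤ_[p] => x (fun ξ => ζ * w ξ)) (fun a b => by
      rw [← hadd]
      congr 1
      ext ξ
      simp [add_mul])).range
  have hLmem : ∀ w y, y ∈ L w ↔ ∃ ζ : ℤ_[p], x (fun ξ => ζ * w ξ) = y := fun w y => Iff.rfl
  have hLc : ∀ w, IsClosed (L w : Set C) := by
    intro w
    have : (L w : Set C) = range (fun ζ : ℤ_[p] => x (fun ξ => ζ * w ξ)) := rfl
    rw [this]
    exact (isCompact_range (hcont w)).isClosed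
  have hLne : ∀ w, w ≠ 0 → L w ≠ ⊥ := by
    intro w hw h
    have h1 : x w ∈ L w := ⟨1, by simp⟩
    rw [h, AddSubgroup.mem_bot] at h1
    exact hxne w hw h1
  -- the subgroups `C_J`
  let CJ : Set I → Set C := fun J => {y | ∀ χ : Ch C, (∀ ξ ∈ J, Φ χ ξ = 0) → χ.1 y = 0}
  have hCJclosed : ∀ J, IsClosed (CJ J) := by
    intro J
    have : CJ J = ⋂ χ : Ch C, ⋂ (_ : ∀ ξ ∈ J, Φ χ ξ = 0), {y | χ.1 y = 0} := by
      ext y; simp [CJ]
    rw [this]
    refine isClosed_iInter fun χ => isClosed_iInter fun _ => ?_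
    exact isClosed_singleton.preimage χ.2
  have hCJmono : ∀ J J', J ⊆ J' → CJ J ⊆ CJ J' := by
    intro J J' h y hy χ hχ
    exact hy χ fun ξ hξ => hχ ξ (h hξ)
  -- the subgroup `A`
  let A : AddSubgroup C :=
    { carrier := {y | y ∈ H ∧ ∃ J : Set I, #J ≤ κ ∧ y ∈ CJ J}
      add_mem' := by
        rintro a b ⟨ha, J, hJ, haJ⟩ ⟨hb, J', hJ', hbJ⟩
        refine ⟨H.add_mem ha hb, J ∪ J', ?_, ?_⟩
        · exact (Cardinal.mk_union_le J J').trans (Cardinal.add_le_of_le hκ hJ hJ')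
        · intro χ hχ
          rw [map_add, haJ χ fun ξ hξ => hχ ξ (Or.inl hξ), hbJ χ fun ξ hξ => hχ ξ (Or.inr hξ),
            add_zero]
      zero_mem' := ⟨H.zero_mem, ∅, by simp, fun χ _ => map_zero _⟩
      neg_mem' := by
        rintro a ⟨ha, J, hJ, haJ⟩
        refine ⟨H.neg_mem ha, J, hJ, fun χ hχ => ?_⟩
        rw [map_neg, haJ χ hχ, neg_zero] }
  have hAmem : ∀ y, y ∈ A ↔ y ∈ H ∧ ∃ J : Set I, #J ≤ κ ∧ y ∈ CJ J := fun y => Iff.rfl
  have hAcl : ∀ y ∈ H, y ∈ closure (A : Set C) → y ∈ A := by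
    intro y hy hyc
    obtain ⟨B, hBA, hB, hyB⟩ := ht (A : Set C) (fun a ha => ha.1) y hy hyc
    have h1 : ∀ b : B, ∃ J : Set I, #J ≤ κ ∧ (b : C) ∈ CJ J := fun b => (hBA b.2).2
    choose J hJ hbJ using h1
    refine ⟨hy, ⋃ b, J b, ?_, ?_⟩
    · refine (Cardinal.mk_iUnion_le_sum_mk).trans ?_
      refine (Cardinal.sum_le_mk_mul_iSup _).trans ?_
      refine Cardinal.mul_le_of_le hκ hB ?_
      exact ciSup_le' hJ
    · have h2 : B ⊆ CJ (⋃ b, J b) := by
        intro b hb
        exact hCJmono _ _ (subset_iUnion J ⟨b, hb⟩) (hbJ ⟨b, hb⟩)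
      exact closure_minimal h2 (hCJclosed _) hyB
  let Bc : AddSubgroup C := A.topologicalClosure
  have hBc : IsClosed (Bc : Set C) := AddSubgroup.isClosed_topologicalClosure A
  have hBcmem : ∀ y, y ∈ Bc ↔ y ∈ closure (A : Set C) := fun y => Iff.rfl
  -- for each `ξ` some `p^n e_ξ`
  have hstep : ∀ ξ : I, ∃ n : ℕ, ∀ ζ : ℤ_[p],
      x (fun i => ζ * (p : ℤ_[p]) ^ n * (if i = ξ then 1 else 0)) ∈ Bc := by
    intro ξ
    let e : I → ℤ_[p] := fun i => if i = ξ then 1 else 0
    have he : e ≠ 0 := by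
      intro h
      have := congrFun h ξ
      simp [e] at this
    obtain ⟨y, hyL, hyH, hy0⟩ := hess (L e) (hLc e) (hLne e he)
    obtain ⟨ζ, rfl⟩ := (hLmem e y).1 hyL
    have hζ : ζ ≠ 0 := by
      rintro rfl
      apply hy0
      have : (fun i => (0 : ℤ_[p]) * e i) = (0 : I → ℤ_[p]) := by ext i; simp
      rw [this, ← hxh, map_zero]
    have hyA : x (fun i => ζ * e i) ∈ A := by
      refine ⟨hyH, {ξ}, ?_, ?_⟩
      · rw [Cardinal.mk_singleton]
        exact Cardinal.one_le_aleph0.trans hκ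
      · intro χ hχ
        rw [← hx, hφ, Finsupp.sum]
        apply Finset.sum_eq_zero
        intro i _
        by_cases hi : i = ξ
        · rw [hi, hχ ξ rfl, map_zero, map_zero]
        · simp only [e, if_neg hi, mul_zero]
          have : mulD (0 : ℤ_[p]) (Φ χ i) = 0 := by
            have := mulD_natCast (p := p) 0 (Φ χ i)
            simpa using this
          rw [this, map_zero]
    -- all multiples of `ζ`
    have hall : ∀ η : ℤ_[p], x (fun i => η * (ζ * e i)) ∈ Bc := by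
      have hc := hcont (fun i => ζ * e i)
      have hcl : IsClosed {η : ℤ_[p] | x (fun i => η * (ζ * e i)) ∈ Bc} := hBc.preimage hc
      have hnat : ∀ m : ℕ, (m : ℤ_[p]) ∈ {η : ℤ_[p] | x (fun i => η * (ζ * e i)) ∈ Bc} := by
        intro m
        have h1 : (fun i => (m : ℤ_[p]) * (ζ * e i)) = m • (fun i => ζ * e i) := by
          ext i; simp
        rw [mem_ofPred_eq, h1, ← hxh, map_nsmul, hxh]
        exact Bc.nsmul_mem (A.le_topologicalClosure hyA) m
      intro η
      have h2 : η ∈ closure (range ((↑) : ℕ → ℤ_[p])) := PadicInt.denseRange_natCast η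
      have h3 : closure (range ((↑) : ℕ → ℤ_[p])) ⊆ {η : ℤ_[p] | x (fun i => η * (ζ * e i)) ∈ Bc} :=
        closure_minimal (by rintro _ ⟨m, rfl⟩; exact hnat m) hcl
      exact h3 h2
    obtain ⟨u, v, hu⟩ : ∃ (u : ℤ_[p]ˣ) (v : ℕ), ζ = u * (p : ℤ_[p]) ^ v :=
      ⟨_, _, PadicInt.unitCoeff_spec hζ⟩
    refine ⟨v, fun η => ?_⟩
    have h2 := hall (η * (u⁻¹ : ℤ_[p]ˣ))
    have h3 : (fun i => η * (p : ℤ_[p]) ^ v * (if i = ξ then 1 else 0)) =
        fun i => (η * (u⁻¹ : ℤ_[p]ˣ)) * (ζ * e i) := by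
      ext i
      have h4 : ((u⁻¹ : ℤ_[p]ˣ) : ℤ_[p]) * ζ = (p : ℤ_[p]) ^ v := by
        rw [hu, ← mul_assoc, Units.inv_mul, one_mul]
      calc η * (p : ℤ_[p]) ^ v * (if i = ξ then 1 else 0)
          = η * (((u⁻¹ : ℤ_[p]ˣ) : ℤ_[p]) * ζ) * e i := by rw [h4]
        _ = _ := by ring
    rw [h3]
    exact h2
  choose n hn using hstep
  -- pigeonhole
  obtain ⟨N, hN⟩ : ∃ N : ℕ, κ < #{ξ : I | n ξ = N} := by
    by_contra hcon
    push Not at hcon
    have h1 : (⋃ N : ℕ, {ξ : I | n ξ = N}) = Set.univ := by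
      ext ξ; simp
    have h2 : #(⋃ N : ℕ, {ξ : I | n ξ = N}) ≤ κ := by
      refine (Cardinal.mk_iUnion_le_sum_mk).trans ?_
      refine (Cardinal.sum_le_mk_mul_iSup _).trans ?_
      refine Cardinal.mul_le_of_le hκ (by rw [Cardinal.mk_nat]; exact hκ) ?_
      exact ciSup_le' hcon
    rw [h1, Cardinal.mk_univ] at h2
    exact absurd h2 (not_le.2 hI)
  let Ξ : Set I := {ξ : I | n ξ = N}
  let w : I → ℤ_[p] := fun i => (p : ℤ_[p]) ^ N * (if i ∈ Ξ then 1 else 0)
  have hp0 : (p : ℤ_[p]) ^ N ≠ 0 := by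
    apply pow_ne_zero
    exact_mod_cast hp.out.ne_zero
  have hΞne : Ξ.Nonempty := by
    rw [← Set.nonempty_coe_sort, ← Cardinal.mk_ne_zero_iff]
    intro h
    have : κ < 0 := by rw [← h]; exact hN
    exact absurd this (not_lt.2 (zero_le))
  have hw : w ≠ 0 := by
    obtain ⟨ξ, hξ⟩ := hΞne
    intro h
    have := congrFun h ξ
    simp only [w, if_pos hξ, mul_one] at this
    exact hp0 this
  have hwB : ∀ ζ : ℤ_[p], x (fun i => ζ * w i) ∈ Bc := by
    intro ζ
    apply mem_of_chars Bc hBc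
    intro χ hχ
    rw [← hx, hφ, Finsupp.sum]
    apply Finset.sum_eq_zero
    intro i _
    by_cases hi : i ∈ Ξ
    · have h1 := hχ _ (hn i ζ)
      rw [← hx, hφ, Finsupp.sum, Finset.sum_eq_single i] at h1
      · simp only [if_true, mul_one] at h1
        have h2 : n i = N := hi
        rw [h2] at h1
        simp only [w, if_pos hi, mul_one]
        exact h1
      · intro j _ hj
        rw [if_neg hj, mul_zero]
        have : mulD (0 : ℤ_[p]) (Φ χ j) = 0 := by
          have := mulD_natCast (p := p) 0 (Φ χ j)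
          simpa using this
        rw [this, map_zero]
      · intro hi2
        rw [Finsupp.notMem_support_iff.1 hi2, map_zero, map_zero]
    · simp only [w, if_neg hi, mul_zero]
      have : mulD (0 : ℤ_[p]) (Φ χ i) = 0 := by
        have := mulD_natCast (p := p) 0 (Φ χ i)
        simpa using this
      rw [this, map_zero]
  obtain ⟨y, hyL, hyH, hy0⟩ := hess (L w) (hLc w) (hLne w hw)
  obtain ⟨ζ, rfl⟩ := (hLmem w y).1 hyL
  have hyA := hAcl _ hyH (hwB ζ)
  obtain ⟨_, J, hJ, hyJ⟩ := (hAmem _).1 hyA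
  -- a coordinate outside of `J`
  obtain ⟨ξ, hξΞ, hξJ⟩ : ∃ ξ ∈ Ξ, ξ ∉ J := by
    by_contra hcon
    push Not at hcon
    have : #Ξ ≤ #J := Cardinal.mk_le_mk_of_subset hcon
    exact absurd (this.trans hJ) (not_le.2 hN)
  have hζ : ζ * (p : ℤ_[p]) ^ N ≠ 0 := by
    apply mul_ne_zero _ hp0
    rintro rfl
    apply hy0
    have : (fun i => (0 : ℤ_[p]) * w i) = (0 : I → ℤ_[p]) := by ext i; simp
    rw [this, ← hxh, map_zero]
  obtain ⟨d, hd⟩ := exists_mulD_ne _ hζ
  obtain ⟨χ, hχ⟩ := hΦ (Finsupp.single ξ d)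
  have h1 : χ.1 (x fun i => ζ * w i) = 0 := by
    apply hyJ χ
    intro i hi
    rw [hχ, Finsupp.single_apply, if_neg]
    rintro rfl
    exact hξJ hi
  rw [hsingle _ ξ d χ hχ] at h1
  simp only [w, if_pos hξΞ, mul_one] at h1
  apply hd
  apply hι
  rw [map_zero]
  exact h1

theorem sep_of_tight {C : Type} [AddCommGroup C] [TopologicalSpace C] [IsTopologicalAddGroup C]
    [CompactSpace C] [T2Space C] (htf : ∀ n : ℕ, n ≠ 0 → ∀ x : C, n • x = 0 → x = 0)
    (H : AddSubgroup C)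
    (hess : ∀ L : AddSubgroup C, IsClosed (L : Set C) → L ≠ ⊥ → ∃ y ∈ L, y ∈ H ∧ y ≠ 0)
    (κ : Cardinal.{0}) (hκ : ℵ₀ ≤ κ)
    (ht : ∀ A ⊆ (H : Set C), ∀ x ∈ H, x ∈ closure A → ∃ B ⊆ A, #B ≤ κ ∧ x ∈ closure B) :
    ∃ (I : Type) (V : I → Set C), #I ≤ κ ∧ (∀ i, V i ∈ nhds 0) ∧
      ∀ x : C, (∀ i, x ∈ V i) → x = 0 := by
  by_cases h : #(Ch C) ≤ κ
  · exact sep_of_few κ hκ h
  · exfalso
    push Not at h
    obtain ⟨p, hp, I, Φ, hI, hΦ⟩ := exists_surj_prufer (Ch C) (dual_divisible htf) κ hκ h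
    exact no_large_prufer H hess κ hκ ht p I Φ hI hΦ

theorem exists_coordinates_module {X : Type} [AddCommGroup X] {p : ℕ} [hpf : Fact p.Prime]
    [Module (ZMod p) X] :
    ∃ (I : Type) (b : I → X) (r : X →+ (I →₀ ZMod p)),
      (∀ ξ, r (b ξ) = Finsupp.single ξ 1) ∧ Function.Injective r := by
  let b := Module.Basis.ofVectorSpace (ZMod p) X
  exact ⟨_, fun ξ => b ξ, b.repr.toLinearMap.toAddMonoidHom, fun ξ => b.repr_self ξ,
    b.repr.injective⟩

theorem exists_coordinates {X : Type} [AddCommGroup X] {p : ℕ} (hp : p.Prime)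
    (hpX : ∀ χ : X, p • χ = 0) :
    ∃ (I : Type) (b : I → X) (r : X →+ (I →₀ ZMod p)),
      (∀ ξ, r (b ξ) = Finsupp.single ξ 1) ∧ Function.Injective r := by
  have hpf : Fact p.Prime := ⟨hp⟩
  let _ : Module (ZMod p) X := AddCommGroup.zmodModule hpX
  exact exists_coordinates_module

theorem sep_of_tight_exponent {K : Type} [AddCommGroup K] [TopologicalSpace K]
    [IsTopologicalAddGroup K] [CompactSpace K] [T2Space K] {p : ℕ} (hp : p.Prime)
    (hpK : ∀ x : K, p • x = 0) (κ : Cardinal.{0}) (hκ : ℵ₀ ≤ κ)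
    (ht : ∀ A : Set K, ∀ x ∈ closure A, ∃ B ⊆ A, #B ≤ κ ∧ x ∈ closure B) :
    ∃ (I : Type) (V : I → Set K), #I ≤ κ ∧ (∀ i, V i ∈ nhds 0) ∧
      ∀ x : K, (∀ i, x ∈ V i) → x = 0 := by
  classical
  by_cases h : #(Ch K) ≤ κ
  · exact sep_of_few κ hκ h
  · exfalso
    push Not at h
    have hpf : Fact p.Prime := ⟨hp⟩
    -- the characters form a vector space over `ZMod p`
    have hpX : ∀ χ : Ch K, p • χ = 0 := by
      intro χ
      apply Subtype.ext
      ext x
      show (p • χ.1) x = 0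
      rw [AddMonoidHom.smul_apply, ← map_nsmul, hpK, map_zero]
    obtain ⟨I, b, r, hr, hrinj⟩ := exists_coordinates hp hpX
    have hpn : NeZero p := ⟨hp.ne_zero⟩
    have hI : κ < #I := by
      by_contra hcon
      push Not at hcon
      have h1 : #(Ch K) ≤ #(I →₀ ZMod p) := Cardinal.mk_le_of_injective hrinj
      have h2 : #(I →₀ ZMod p) ≤ κ := by
        have h3 : #(I →₀ ZMod p) ≤ #(Finset (I × ZMod p)) :=
          Cardinal.mk_le_of_injective (Finsupp.graph_injective I (ZMod p))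
        refine h3.trans ?_
        rcases finite_or_infinite (I × ZMod p) with hf | hf
        · have : Finite (Finset (I × ZMod p)) := inferInstance
          exact (Cardinal.lt_aleph0_of_finite (Finset (I × ZMod p))).le.trans hκ
        · rw [Cardinal.mk_finset_of_infinite, Cardinal.mk_prod, Cardinal.lift_id,
            Cardinal.lift_id]
          exact Cardinal.mul_le_of_le hκ hcon
            ((Cardinal.lt_aleph0_of_finite (ZMod p)).le.trans hκ)
      exact absurd (h1.trans h2) (not_le.2 h)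
    -- a nonzero element of order `p` in the circle
    let c : ZMod p →+ AddCircle (1 : ℝ) := (ZMod.toAddCircle : ZMod p →+ UnitAddCircle)
    have hc1 : c 1 ≠ 0 := by
      have : Function.Injective c := ZMod.toAddCircle_injective p
      intro h
      exact one_ne_zero (this (by rw [h, map_zero]))
    -- the points `x_J`
    let φ : Set I → (Ch K →+ AddCircle (1 : ℝ)) := fun J =>
      (Finsupp.liftAddHom fun ξ : I => if ξ ∈ J then c else 0).comp r
    have hφ : ∀ (J : Set I) (χ : Ch K),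
        φ J χ = (r χ).sum fun ξ a => (if ξ ∈ J then c else 0) a :=
      fun J χ => rfl
    choose x hx using fun J : Set I => dual_surj (φ J)
    have hxb : ∀ J (ξ : I), (b ξ).1 (x J) = if ξ ∈ J then c 1 else 0 := by
      intro J ξ
      rw [← hx, hφ, hr, Finsupp.sum_single_index]
      · split_ifs <;> rfl
      · split_ifs
        · exact map_zero c
        · rfl
    -- the set of points with small support
    let A : Set K := {y | #{ξ : I | (b ξ).1 y ≠ 0} ≤ κ}
    have hA : closure A ⊆ A := by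
      intro y hy
      obtain ⟨B, hBA, hB, hyB⟩ := ht A y hy
      let J : Set I := ⋃ z : B, {ξ : I | (b ξ).1 z ≠ 0}
      have hJ : #J ≤ κ := by
        refine (Cardinal.mk_iUnion_le_sum_mk).trans ?_
        refine (Cardinal.sum_le_mk_mul_iSup _).trans ?_
        refine Cardinal.mul_le_of_le hκ hB ?_
        exact ciSup_le' fun z => hBA z.2
      refine le_trans (Cardinal.mk_le_mk_of_subset ?_) hJ
      intro ξ hξ
      by_contra hcon
      apply hξ
      have h1 : B ⊆ {z | (b ξ).1 z = 0} := by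
        intro z hz
        by_contra hz2
        exact hcon (mem_iUnion.2 ⟨⟨z, hz⟩, hz2⟩)
      have h2 : IsClosed {z | (b ξ).1 z = 0} := isClosed_singleton.preimage (b ξ).2
      exact closure_minimal h1 h2 hyB
    -- the point `x_I` is a limit
    have hlim : Tendsto (fun F : Finset I => x (F : Set I)) atTop (𝓝 (x Set.univ)) := by
      rw [isClosedEmbedding_ev.isInducing.tendsto_nhds_iff]
      rw [tendsto_pi_nhds]
      intro χ
      refine tendsto_nhds_of_eventually_eq ?_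
      filter_upwards [eventually_ge_atTop (r χ).support] with F hF
      simp only [Function.comp]
      rw [← hx, ← hx, hφ, hφ]
      apply Finsupp.sum_congr
      intro ξ hξ
      have : ξ ∈ (F : Set I) := hF hξ
      rw [if_pos this, if_pos (Set.mem_univ _)]
    have hmem : x Set.univ ∈ A := by
      apply hA
      apply mem_closure_of_tendsto hlim
      filter_upwards with F
      have h1 : {ξ : I | (b ξ).1 (x (F : Set I)) ≠ 0} ⊆ (F : Set I) := by
        intro ξ hξ
        by_contra hcon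
        apply hξ
        rw [hxb, if_neg hcon]
      refine (Cardinal.mk_le_mk_of_subset h1).trans ?_
      exact ((Cardinal.lt_aleph0_of_finite _).le.trans hκ)
    have h1 : {ξ : I | (b ξ).1 (x Set.univ) ≠ 0} = Set.univ := by
      ext ξ
      simp [hxb, hc1]
    have h2 : #{ξ : I | (b ξ).1 (x Set.univ) ≠ 0} ≤ κ := hmem
    rw [h1, Cardinal.mk_univ] at h2
    exact absurd h2 (not_le.2 hI)

end Pool.Agent.Helper99.Tight
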