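import Mathlib

/-!
Definitions for LIST 3-COLORING restricted to chordal bipartite graphs.
-/

namespace Pool.Agent.Helper99.CB

/-- A graph is chordal bipartite if it is bipartite (2-colourable) and each of its induced cycles
has length exactly `4`. -/
def IsChordalBipartite {V : Type*} (G : SimpleGraph V) : Prop :=
  G.Colorable 2 ∧ ∀ m : ℕ, 3 ≤ m → m ≠ 4 → IsEmpty (SimpleGraph.cycleGraph m ↪g G)

/-- An instance of LIST 3-COLORING: a finite simple graph on the vertices `0, …, n - 1` and a list
`L v ⊆ {0, 1, 2}` of admissible colours for each vertex `v`. -/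
structure Instance where
  n : ℕ
  G : SimpleGraph (Fin n)
  L : Fin n → Finset (Fin 3)

/-- The question of LIST 3-COLORING: is there a proper 3-colouring respecting the lists? -/
def Instance.ListColorable (I : Instance) : Prop :=
  ∃ c : Fin I.n → Fin 3, (∀ u v, I.G.Adj u v → c u ≠ c v) ∧ ∀ u, c u ∈ I.L u

/-- The tape alphabet: two bits and a separator. -/
inductive Sym
  | bit (b : Bool)
  | sep
  deriving DecidableEq, Fintype

open Classical in
/-- The encoding of an instance as a string: for each vertex `v`, three bits for the list `L v`,
then the row of `v` in the adjacency matrix, then a separator. -/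
noncomputable def Instance.encode (I : Instance) : List Sym :=
  (List.finRange I.n).flatMap fun v =>
    [Sym.bit (decide (0 ∈ I.L v)), Sym.bit (decide (1 ∈ I.L v)), Sym.bit (decide (2 ∈ I.L v))] ++
    (List.finRange I.n).map (fun u => Sym.bit (decide (I.G.Adj v u))) ++ [Sym.sep]

/-- The encoding of a yes/no answer. -/
def encodeAnswer (b : Bool) : List Sym := [Sym.bit b]

end Pool.Agent.Helper99.CB
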