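import Mathlib
import Pool.Agent.Helper99.CBDefs

/-!
Combinatorial core: 3-colourings of chordal bipartite graphs lift to integer height functions.
-/

namespace Pool.Agent.Helper99.CB

open SimpleGraph

section lift

variable {V : Type*} {G : SimpleGraph V} (c : V → ZMod 3)

/-- The `±1` increment of a 3-colouring along an arc. -/
def dl (u v : V) : ℤ := if c v = c u + 1 then 1 else -1

theorem dl_symm {u v : V} (h : c u ≠ c v) : dl c v u = - dl c u v := by
  unfold dl
  revert h
  generalize c u = a
  generalize c v = b
  revert a b
  decide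

theorem dl_cast {u v : V} (h : c u ≠ c v) : ((dl c u v : ℤ) : ZMod 3) = c v - c u := by
  unfold dl
  revert h
  generalize c u = a
  generalize c v = b
  revert a b
  decide

theorem dl_abs (u v : V) : dl c u v = 1 ∨ dl c u v = -1 := by
  unfold dl; split_ifs <;> simp

/-- Winding of a 3-colouring along a walk. -/
def wt : ∀ {u v : V}, G.Walk u v → ℤ
  | _, _, .nil => 0
  | u, _, .cons (v := v') _ p => dl c u v' + wt p

@[simp] theorem wt_nil (u : V) : wt c (Walk.nil : G.Walk u u) = 0 := rfl
@[simp] theorem wt_cons {u v w : V} (h : G.Adj u v) (p : G.Walk v w) :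
    wt c (Walk.cons h p) = dl c u v + wt c p := rfl

@[simp] theorem wt_append {u v w : V} (p : G.Walk u v) (q : G.Walk v w) :
    wt c (p.append q) = wt c p + wt c q := by
  induction p with
  | nil => simp
  | cons h p ih => simp [ih, add_assoc]

theorem wt_reverse (hc : ∀ u v, G.Adj u v → c u ≠ c v) {u v : V} (p : G.Walk u v) :
    wt c p.reverse = - wt c p := by
  induction p with
  | nil => simp
  | cons h p ih =>
    simp only [Walk.reverse_cons, wt_append, ih, wt_cons, wt_nil]
    rw [dl_symm c (hc _ _ h)]
    ring

theorem wt_cast (hc : ∀ u v, G.Adj u v → c u ≠ c v) {u v : V} (p : G.Walk u v) :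
    ((wt c p : ℤ) : ZMod 3) = c v - c u := by
  induction p with
  | nil => simp
  | cons h p ih =>
    simp only [wt_cons, Int.cast_add, ih, dl_cast c (hc _ _ h)]
    ring

theorem wt_bound {u v : V} (p : G.Walk u v) : |wt c p| ≤ p.length := by
  induction p with
  | nil => simp
  | @cons a b d h p ih =>
    simp only [wt_cons, Walk.length_cons, Nat.cast_add, Nat.cast_one]
    rcases dl_abs c a b with h1 | h1 <;> rw [h1] <;> rw [abs_le] at * <;> constructor <;> linarith

theorem wt_parity {u v : V} (p : G.Walk u v) : Even (wt c p) ↔ Even p.length := by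
  induction p with
  | nil => simp
  | @cons a b d h p ih =>
    simp only [wt_cons, Walk.length_cons]
    rw [Int.even_add, ih, Nat.even_add_one]
    rcases dl_abs c a b with h1 | h1 <;> rw [h1] <;> simp

/-- Decomposition of a long closed walk in a graph without long induced cycles. -/
theorem exists_split {u : V} (w : G.Walk u u) (h6 : 6 ≤ w.length)
    (hG : IsEmpty (SimpleGraph.cycleGraph w.length ↪g G)) :
    ∃ (a b : V) (p : G.Walk u a) (q : G.Walk a b) (r : G.Walk b u),
      wt c w = wt c p + wt c q + wt c r ∧ p.length + q.length + r.length = w.length ∧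
      ((a = b ∧ 1 ≤ q.length ∧ q.length < w.length) ∨
        (G.Adj a b ∧ 2 ≤ q.length ∧ q.length + 2 ≤ w.length)) := by
  set m := w.length with hm
  -- general splitting at positions i < j
  have key : ∀ i j, i < j → j ≤ m →
      ∃ (p : G.Walk u (w.getVert i)) (q : G.Walk (w.getVert i) (w.getVert j))
        (r : G.Walk (w.getVert j) u),
        wt c w = wt c p + wt c q + wt c r ∧ p.length + q.length + r.length = m ∧
        q.length = j - i := by
    intro i j hij hj
    have e1 : (w.drop i).getVert (j - i) = w.getVert j := by
      rw [Walk.drop_getVert]; congr 1; omega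
    refine ⟨w.take i, ((w.drop i).take (j - i)).copy rfl e1,
      ((w.drop i).drop (j - i)).copy e1 rfl, ?_, ?_, ?_⟩
    · have hh : wt c w = wt c (w.take i) + wt c (w.drop i) := by
        rw [← wt_append]; congr 1; exact (Walk.append_take_drop_eq w i).symm
      have hh2 : wt c (w.drop i) =
          wt c ((w.drop i).take (j - i)) + wt c ((w.drop i).drop (j - i)) := by
        rw [← wt_append]; congr 1; exact (Walk.append_take_drop_eq _ _).symm
      have hcopy : ∀ {a b a' b' : V} (p : G.Walk a b) (h : a = a') (h' : b = b'),
          wt c (p.copy h h') = wt c p := by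
        intro a b a' b' p h h'; subst h; subst h'; rfl
      rw [hcopy, hcopy, hh, hh2]; ring
    · simp only [Walk.length_copy, Walk.take_length, Walk.drop_length]
      omega
    · simp only [Walk.length_copy, Walk.take_length, Walk.drop_length]
      omega
  by_contra hcon
  push Not at hcon
  have inj : ∀ i j, i < j → j < m → w.getVert i ≠ w.getVert j := by
    intro i j hij hj heq
    obtain ⟨p, q, r, h1, h2, h3⟩ := key i j hij hj.le
    have := (hcon _ _ p q r h1 h2).1 heq (by omega)
    omega
  have nadj : ∀ i j, i + 2 ≤ j → j < m → ¬ (i = 0 ∧ j = m - 1) →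
      ¬ G.Adj (w.getVert i) (w.getVert j) := by
    intro i j hij hj hne hadj
    obtain ⟨p, q, r, h1, h2, h3⟩ := key i j (by omega) hj.le
    have := (hcon _ _ p q r h1 h2).2 hadj (by omega)
    omega
  have adj1 : ∀ i, i < m → G.Adj (w.getVert i) (w.getVert (i + 1)) := fun i hi =>
    w.adj_getVert_succ hi
  have hinj : Function.Injective (fun i : Fin m => w.getVert i.val) := by
    intro i j hij
    by_contra hne
    rcases lt_or_gt_of_ne (fun h => hne (Fin.ext h) : i.val ≠ j.val) with h | h
    · exact inj _ _ h j.isLt hij
    · exact inj _ _ h i.isLt hij.symm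
  refine hG.false ⟨⟨fun i => w.getVert i.val, hinj⟩, ?_⟩
  · intro i j
    -- adjacency
    have aux : ∀ i j : Fin m, i.val < j.val →
        (G.Adj (w.getVert i.val) (w.getVert j.val) ↔ (cycleGraph m).Adj i j) := by
      intro i j hij
      rw [cycleGraph_adj']
      have hji : (j - i).val = j.val - i.val := by
        rw [Fin.sub_val_of_le]; exact le_of_lt hij
      have hij' : (i - j).val = m - (j.val - i.val) := by
        rw [Fin.val_sub]
        have h1 := j.isLt
        have h2 := i.isLt
        rw [Nat.mod_eq_of_lt] <;> omega
      rw [hji, hij']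
      have h1 := j.isLt
      constructor
      · intro hadj
        by_contra hno
        push Not at hno
        exact nadj i.val j.val (by omega) j.isLt (by omega) hadj
      · rintro (h | h)
        · have hi0 : i.val = 0 := by omega
          have hj0 : j.val + 1 = m := by omega
          have h3 := adj1 j.val j.isLt
          rw [hj0] at h3
          have h4 : w.getVert m = u := by rw [hm]; exact w.getVert_length
          have h5 : w.getVert 0 = u := w.getVert_zero
          rw [h4] at h3
          rw [hi0, h5]
          exact h3.symm
        · have : j.val = i.val + 1 := by omega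
          rw [this]
          exact adj1 _ (by omega)
    change G.Adj (w.getVert i.val) (w.getVert j.val) ↔ (cycleGraph m).Adj i j
    rcases lt_trichotomy i.val j.val with h | h | h
    · exact aux i j h
    · have : i = j := Fin.ext h
      subst this
      simp
    · rw [G.adj_comm, (cycleGraph m).adj_comm]
      exact aux j i h

/-- In a chordal bipartite graph every closed walk has winding zero. -/
theorem wt_closed (hG : IsChordalBipartite G) (hc : ∀ u v, G.Adj u v → c u ≠ c v) :
    ∀ (n : ℕ) {u : V} (w : G.Walk u u), w.length ≤ n → wt c w = 0 := by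
  obtain ⟨⟨C⟩, hcyc⟩ := hG
  have C' : G.Coloring Bool := by
    refine Coloring.mk (fun v => decide (C v = 0)) ?_
    intro a b hab
    have := C.valid hab
    revert this
    generalize C a = x
    generalize C b = y
    revert x y
    decide
  intro n
  induction n using Nat.strong_induction_on with
  | _ n ih =>
    intro u w hw
    by_cases h6 : w.length < 6
    · have hev : Even w.length := by
        rw [C'.even_length_iff_congr w]
      have hev2 := (wt_parity c w).2 hev
      have hb := wt_bound c w
      have h3 := wt_cast c hc w
      rw [sub_self] at h3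
      rw [ZMod.intCast_zmod_eq_zero_iff_dvd] at h3
      rw [abs_le] at hb
      have : w.length ≤ 4 := by
        obtain ⟨k, hk⟩ := hev
        omega
      obtain ⟨k, hk⟩ := hev2
      push_cast at h3
      omega
    · push Not at h6
      obtain ⟨a, b, p, q, r, h1, h2, h3⟩ := exists_split c w h6 (hcyc _ (by omega) (by omega))
      rcases h3 with ⟨hab, h3, h4⟩ | ⟨hab, h3, h4⟩
      · subst hab
        have e1 := ih (q.length) (by omega) q le_rfl
        have e2 := ih ((p.append r).length) (by rw [Walk.length_append]; omega)
          (p.append r) le_rfl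
        rw [wt_append] at e2
        rw [h1, e1]; linarith
      · have e1 := ih ((q.append (Walk.cons hab.symm Walk.nil)).length)
          (by rw [Walk.length_append]; simp; omega) (q.append (Walk.cons hab.symm Walk.nil)) le_rfl
        have e2 := ih ((p.append (Walk.cons hab r)).length)
          (by rw [Walk.length_append]; simp; omega) (p.append (Walk.cons hab r)) le_rfl
        rw [wt_append] at e1 e2
        simp only [wt_cons, wt_nil] at e1 e2
        have := dl_symm c (hc _ _ hab)
        rw [h1]; linarith

/-- Lifting: proper 3-colourings of chordal bipartite graphs lift to height functions. -/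
theorem exists_height (hG : IsChordalBipartite G) (hc : ∀ u v, G.Adj u v → c u ≠ c v) :
    ∃ h : V → ℤ, (∀ v, ((h v : ℤ) : ZMod 3) = c v) ∧
      ∀ u v, G.Adj u v → h v = h u + 1 ∨ h v = h u - 1 := by
  classical
  have hr : ∀ v : V, G.Reachable (G.connectedComponentMk v).out v := by
    intro v
    rw [← ConnectedComponent.eq]
    exact Quot.out_eq _
  let P : ∀ v : V, G.Walk (G.connectedComponentMk v).out v := fun v => (hr v).some
  refine ⟨fun v => ((c (G.connectedComponentMk v).out).val : ℤ) + wt c (P v), ?_, ?_⟩
  · intro v
    push_cast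
    rw [wt_cast c hc]
    simp
  · intro u v huv
    have hcomp : G.connectedComponentMk u = G.connectedComponentMk v :=
      ConnectedComponent.sound huv.reachable
    have hgen : ∀ (a b : V) (hab : a = b) (p : G.Walk a u) (q : G.Walk b v),
        wt c q - wt c p = dl c u v := by
      intro a b hab p q
      subst hab
      have := wt_closed c hG hc _ (p.append (Walk.cons huv q.reverse)) le_rfl
      rw [wt_append, wt_cons, wt_reverse c hc] at this
      linarith
    have h1 := hgen _ _ (by rw [hcomp]) (P u) (P v)
    have h2 : (c (G.connectedComponentMk u).out) = (c (G.connectedComponentMk v).out) := by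
      rw [hcomp]
    simp only
    rw [h2]
    rcases dl_abs c u v with h3 | h3
    · left; linarith
    · right; linarith

end lift

section bounded

variable {V : Type*} [Fintype V] {G : SimpleGraph V}

omit [Fintype V] in
theorem height_lip {h : V → ℤ} (hh : ∀ u v, G.Adj u v → h v = h u + 1 ∨ h v = h u - 1)
    {u v : V} (p : G.Walk u v) : h v - h u ≤ p.length := by
  induction p with
  | nil => simp
  | @cons a b d hab p ih =>
    simp only [Walk.length_cons, Nat.cast_add, Nat.cast_one]
    rcases hh _ _ hab with h1 | h1 <;> linarith

/-- Bounded lifts: proper 3-colourings of chordal bipartite graphs lift to homomorphisms to a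
path with about `|V|` vertices. -/
theorem exists_bounded_height (c : V → ZMod 3) (hG : IsChordalBipartite G)
    (hc : ∀ u v, G.Adj u v → c u ≠ c v) :
    ∃ h : V → ℕ, (∀ v, ((h v : ℕ) : ZMod 3) = c v) ∧
      (∀ u v, G.Adj u v → h v = h u + 1 ∨ h u = h v + 1) ∧ ∀ v, h v ≤ Fintype.card V + 1 := by
  classical
  obtain ⟨h, h1, h2⟩ := exists_height c hG hc
  -- minimiser in each component
  have hmin : ∀ C : G.ConnectedComponent, ∃ r : V, G.connectedComponentMk r = C ∧
      ∀ v, G.connectedComponentMk v = C → h r ≤ h v := by
    intro C
    have hne : (Finset.univ.filter (fun v => G.connectedComponentMk v = C)).Nonempty := by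
      refine ⟨C.out, ?_⟩
      simp only [Finset.mem_filter, Finset.mem_univ, true_and]
      exact Quot.out_eq _
    obtain ⟨r, hr1, hr2⟩ := Finset.exists_min_image _ h hne
    simp only [Finset.mem_filter, Finset.mem_univ, true_and] at hr1 hr2
    exact ⟨r, hr1, hr2⟩
  choose r hr1 hr2 using hmin
  let m : V → ℤ := fun v => h (r (G.connectedComponentMk v))
  have hm : ∀ v, m v ≤ h v := fun v => hr2 _ v rfl
  have hmb : ∀ v, h v - m v ≤ (Fintype.card V : ℤ) - 1 := by
    intro v
    have hreach : G.Reachable (r (G.connectedComponentMk v)) v := by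
      rw [← ConnectedComponent.eq]
      exact hr1 _
    obtain ⟨p⟩ := hreach
    have hp := height_lip h2 (p.toPath).1
    have hl := (p.toPath).2.length_lt
    have : ((p.toPath).1.length : ℤ) ≤ (Fintype.card V : ℤ) - 1 := by
      have : ((p.toPath).1.length : ℤ) < (Fintype.card V : ℤ) := by exact_mod_cast hl
      omega
    exact hp.trans this
  refine ⟨fun v => (h v - 3 * (m v / 3)).toNat, ?_, ?_, ?_⟩
  · intro v
    have hnn : 0 ≤ h v - 3 * (m v / 3) := by
      have := hm v
      omega
    have : (((h v - 3 * (m v / 3)).toNat : ℕ) : ZMod 3) =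
        (((h v - 3 * (m v / 3)) : ℤ) : ZMod 3) := by
      conv_rhs => rw [← Int.toNat_of_nonneg hnn]
      exact (Int.cast_natCast _).symm
    rw [this]
    push_cast
    have h3 : (3 : ZMod 3) = 0 := by decide
    rw [h1 v, h3]
    simp
  · intro u v huv
    have hcomp : G.connectedComponentMk u = G.connectedComponentMk v :=
      ConnectedComponent.sound huv.reachable
    have hmm : m u = m v := by simp only [m, hcomp]
    have a1 := hm u
    have a2 := hm v
    simp only [hmm] at *
    rcases h2 u v huv with h3 | h3
    · left; omega
    · right; omega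
  · intro v
    have a1 := hmb v
    have a2 := hm v
    simp only
    omega

omit [Fintype V] in
/-- From a nonempty arc-consistent table one gets a solution. -/
theorem solution_of_closed (hG : G.Colorable 2) (T : V → ℕ → Prop)
    (hcl : ∀ v j, T v j → ∀ u, G.Adj v u → (1 ≤ j ∧ T u (j - 1)) ∨ T u (j + 1))
    (hne : ∀ v, ∃ j, T v j) :
    ∃ h : V → ℕ, (∀ v, T v (h v)) ∧ ∀ u v, G.Adj u v → h v = h u + 1 ∨ h u = h v + 1 := by
  classical
  obtain ⟨C⟩ := hG
  let s : V → ZMod 2 := fun v => if C v = 0 then 0 else 1
  have hs : ∀ u v, G.Adj u v → s v = s u + 1 := by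
    intro u v huv
    have := C.valid huv
    simp only [s]
    revert this
    generalize C u = x
    generalize C v = y
    revert x y
    decide
  choose j0 hj0 using hne
  let ρ : V → V := fun v => (G.connectedComponentMk v).out
  let κ : V → ZMod 2 := fun v => (j0 (ρ v) : ZMod 2) - s (ρ v)
  let D : V → ℕ → Prop := fun v j => T v j ∧ (j : ZMod 2) = s v + κ v
  have hκ : ∀ u v, G.Adj u v → κ u = κ v := by
    intro u v huv
    have hcomp : G.connectedComponentMk u = G.connectedComponentMk v :=
      ConnectedComponent.sound huv.reachable
    simp only [κ, ρ, hcomp]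
  have hDcl : ∀ v j, D v j → ∀ u, G.Adj v u → (1 ≤ j ∧ D u (j - 1)) ∨ D u (j + 1) := by
    intro v j ⟨h1, h2⟩ u huv
    have e1 := hs v u huv
    have e2 := hκ v u huv
    rcases hcl v j h1 u huv with ⟨h3, h4⟩ | h4
    · left
      refine ⟨h3, h4, ?_⟩
      rw [Nat.cast_sub h3, h2, e1, ← e2]
      have : ((1 : ℕ) : ZMod 2) = 1 := by decide
      rw [this]
      generalize s v = a
      generalize κ v = b
      revert a b
      decide
    · right
      refine ⟨h4, ?_⟩
      push_cast
      rw [h2, e1, ← e2]
      ring
  have hDne : ∀ v, ∃ j, D v j := by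
    intro v
    have hroot : ∀ w : V, w = ρ v → ∃ j, D w j := by
      intro w hw
      refine ⟨j0 w, hj0 w, ?_⟩
      have : ρ w = w := by
        rw [hw]
        simp only [ρ]
        congr 1
        exact Quot.out_eq _
      simp only [κ, this]
      ring
    have hreach : G.Reachable (ρ v) v := by
      rw [← ConnectedComponent.eq]
      exact Quot.out_eq _
    obtain ⟨p⟩ := hreach
    have : ∀ {a b : V} (p : G.Walk a b), (∃ j, D a j) → ∃ j, D b j := by
      intro a b p
      induction p with
      | nil => exact id
      | @cons a b d hab p ih =>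
        rintro ⟨j, hj⟩
        apply ih
        rcases hDcl a j hj b hab with ⟨_, h⟩ | h
        · exact ⟨_, h⟩
        · exact ⟨_, h⟩
    exact this p (hroot _ rfl)
  refine ⟨fun v => Nat.find (hDne v), fun v => (Nat.find_spec (hDne v)).1, ?_⟩
  have hle : ∀ u v, G.Adj u v → Nat.find (hDne v) ≤ Nat.find (hDne u) + 1 := by
    intro u v huv
    rcases hDcl u _ (Nat.find_spec (hDne u)) v huv with ⟨_, h⟩ | h
    · exact (Nat.find_min' (hDne v) h).trans (by omega)
    · exact Nat.find_min' (hDne v) h
  intro u v huv
  have h1 := hle u v huv
  have h2 := hle v u huv.symm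
  have h3 : Nat.find (hDne u) ≠ Nat.find (hDne v) := by
    intro heq
    have e1 := (Nat.find_spec (hDne u)).2
    have e2 := (Nat.find_spec (hDne v)).2
    rw [heq, e2, hs u v huv, ← hκ u v huv] at e1
    revert e1
    generalize s u = a
    generalize κ u = b
    revert a b
    decide
  change Nat.find (hDne v) = Nat.find (hDne u) + 1 ∨ Nat.find (hDne u) = Nat.find (hDne v) + 1
  omega

end bounded

end Pool.Agent.Helper99.CB
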