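import Mathlib

/-!
A small structured programming language over finitely many stacks, compiled to Mathlib's
multi-stack Turing machines `Turing.FinTM2`, with exact step counts.
-/

namespace Pool.Agent.Helper99.SL

open Turing

/-- Memory: a finite register and a family of stacks. -/
@[ext] structure St (K Sym σ : Type) where
  var : σ
  stk : K → List Sym

/-- Elementary operations. -/
inductive Op (K Sym σ : Type) : Type
  | push (k : K) (f : σ → Sym)
  | pop (k : K) (f : σ → Option Sym → σ)
  | peek (k : K) (f : σ → Option Sym → σ)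
  | load (f : σ → σ)

/-- Structured programs over stacks. -/
inductive Prog (K Sym σ : Type) : Type
  | ops (l : List (Op K Sym σ))
  | seq (p q : Prog K Sym σ)
  | ite (c : σ → Bool) (p q : Prog K Sym σ)
  | loop (c : σ → Bool) (p : Prog K Sym σ)

variable {K Sym σ : Type} [DecidableEq K]

/-- Semantics of an elementary operation. -/
def Op.run : Op K Sym σ → St K Sym σ → St K Sym σ
  | .push k f, s => ⟨s.var, Function.update s.stk k (f s.var :: s.stk k)⟩
  | .pop k f, s => ⟨f s.var (s.stk k).head?, Function.update s.stk k (s.stk k).tail⟩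
  | .peek k f, s => ⟨f s.var (s.stk k).head?, s.stk⟩
  | .load f, s => ⟨f s.var, s.stk⟩

/-- Semantics of a list of elementary operations. -/
def runs : List (Op K Sym σ) → St K Sym σ → St K Sym σ
  | [], s => s
  | o :: l, s => runs l (o.run s)

/-- Big-step semantics with exact running time. -/
inductive Exec : Prog K Sym σ → St K Sym σ → ℕ → St K Sym σ → Prop
  | ops (l : List (Op K Sym σ)) (s : St K Sym σ) : Exec (.ops l) s 1 (runs l s)
  | seq {p q : Prog K Sym σ} {s s' s'' : St K Sym σ} {t t' : ℕ} :
      Exec p s t s' → Exec q s' t' s'' → Exec (.seq p q) s (t + t') s''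
  | ite_true {c : σ → Bool} {p q : Prog K Sym σ} {s s' : St K Sym σ} {t : ℕ} :
      c s.var = true → Exec p s t s' → Exec (.ite c p q) s (1 + t) s'
  | ite_false {c : σ → Bool} {p q : Prog K Sym σ} {s s' : St K Sym σ} {t : ℕ} :
      c s.var = false → Exec q s t s' → Exec (.ite c p q) s (1 + t) s'
  | loop_false {c : σ → Bool} {p : Prog K Sym σ} {s : St K Sym σ} :
      c s.var = false → Exec (.loop c p) s 1 s
  | loop_true {c : σ → Bool} {p : Prog K Sym σ} {s s' s'' : St K Sym σ} {t t' : ℕ} :
      c s.var = true → Exec p s t s' → Exec (.loop c p) s' t' s'' →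
      Exec (.loop c p) s (1 + t + t') s''

/-- Program labels. -/
def Lab : Prog K Sym σ → Type
  | .ops _ => Unit
  | .seq p q => Lab p ⊕ Lab q
  | .ite _ p q => Option (Lab p ⊕ Lab q)
  | .loop _ p => Option (Lab p)

/-- Labels form a finite type. -/
@[instance_reducible] def labFintype : ∀ p : Prog K Sym σ, Fintype (Lab p)
  | .ops _ => inferInstanceAs (Fintype Unit)
  | .seq p q =>
    letI := labFintype p
    letI := labFintype q
    inferInstanceAs (Fintype (Lab p ⊕ Lab q))
  | .ite _ p q =>
    letI := labFintype p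
    letI := labFintype q
    inferInstanceAs (Fintype (Option (Lab p ⊕ Lab q)))
  | .loop _ p =>
    letI := labFintype p
    inferInstanceAs (Fintype (Option (Lab p)))

/-- Entry label. -/
def entry : ∀ p : Prog K Sym σ, Lab p
  | .ops _ => ()
  | .seq p _ => Sum.inl (entry p)
  | .ite _ _ _ => none
  | .loop _ _ => none

/-- Compilation of elementary operations. -/
def compileOps {Λ : Type} : List (Op K Sym σ) → TM2.Stmt (fun _ : K => Sym) Λ σ →
    TM2.Stmt (fun _ : K => Sym) Λ σ
  | [], q => q
  | .push k f :: l, q => .push k f (compileOps l q)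
  | .pop k f :: l, q => .pop k f (compileOps l q)
  | .peek k f :: l, q => .peek k f (compileOps l q)
  | .load f :: l, q => .load f (compileOps l q)

theorem stepAux_compileOps {Λ : Type} (l : List (Op K Sym σ))
    (q : TM2.Stmt (fun _ : K => Sym) Λ σ) (s : St K Sym σ) :
    TM2.stepAux (compileOps l q) s.var s.stk = TM2.stepAux q (runs l s).var (runs l s).stk := by
  induction l generalizing s with
  | nil => rfl
  | cons o l ih =>
    cases o with
    | push k f => exact ih (Op.run (.push k f) s)
    | pop k f => exact ih (Op.run (.pop k f) s)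
    | peek k f => exact ih (Op.run (.peek k f) s)
    | load f => exact ih (Op.run (.load f) s)

/-- Compilation to `TM2` statements. -/
def compile {Λ : Type} : ∀ (p : Prog K Sym σ), (Lab p → Λ) → Λ → Lab p →
    TM2.Stmt (fun _ : K => Sym) Λ σ
  | .ops l, _, ex, _ => compileOps l (.goto fun _ => ex)
  | .seq p _, emb, _, Sum.inl l =>
      compile p (fun l => emb (Sum.inl l)) (emb (Sum.inr (entry _))) l
  | .seq _ q, emb, ex, Sum.inr l => compile q (fun l => emb (Sum.inr l)) ex l
  | .ite c p q, emb, _, none =>
      .branch c (.goto fun _ => emb (some (Sum.inl (entry p))))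
        (.goto fun _ => emb (some (Sum.inr (entry q))))
  | .ite _ p _, emb, ex, some (Sum.inl l) => compile p (fun l => emb (some (Sum.inl l))) ex l
  | .ite _ _ q, emb, ex, some (Sum.inr l) => compile q (fun l => emb (some (Sum.inr l))) ex l
  | .loop c p, emb, ex, none =>
      .branch c (.goto fun _ => emb (some (entry p))) (.goto fun _ => ex)
  | .loop _ p, emb, _, some l => compile p (fun l => emb (some l)) (emb none) l

/-- Reaching a configuration in exactly `t` steps. -/
def ReachesIn {Λ : Type} (M : Λ → TM2.Stmt (fun _ : K => Sym) Λ σ) (t : ℕ)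
    (a b : TM2.Cfg (fun _ : K => Sym) Λ σ) : Prop :=
  (flip bind (TM2.step M))^[t] (some a) = some b

theorem ReachesIn.trans {Λ : Type} {M : Λ → TM2.Stmt (fun _ : K => Sym) Λ σ} {t t' : ℕ}
    {a b c : TM2.Cfg (fun _ : K => Sym) Λ σ} (h : ReachesIn M t a b) (h' : ReachesIn M t' b c) :
    ReachesIn M (t + t') a c := by
  unfold ReachesIn at *
  rw [add_comm, Function.iterate_add_apply, h, h']

theorem ReachesIn.single {Λ : Type} {M : Λ → TM2.Stmt (fun _ : K => Sym) Λ σ}
    {a b : TM2.Cfg (fun _ : K => Sym) Λ σ} (h : TM2.step M a = some b) : ReachesIn M 1 a b := by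
  unfold ReachesIn
  simpa [flip] using h

/-- Correctness of the compilation. -/
theorem compile_correct {Λ : Type} (M : Λ → TM2.Stmt (fun _ : K => Sym) Λ σ)
    {p : Prog K Sym σ} {s s' : St K Sym σ} {t : ℕ} (h : Exec p s t s') :
    ∀ (emb : Lab p → Λ) (ex : Λ), (∀ l, M (emb l) = compile p emb ex l) →
      ReachesIn M t ⟨some (emb (entry p)), s.var, s.stk⟩ ⟨some ex, s'.var, s'.stk⟩ := by
  induction h with
  | ops l s =>
    intro emb ex hM
    apply ReachesIn.single
    have := hM ()
    simp only [entry, TM2.step]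
    erw [this]
    simp only [compile]
    rw [stepAux_compileOps]
    rfl
  | @seq p q s s' s'' t t' _ _ ih1 ih2 =>
    intro emb ex hM
    have h1 := ih1 (fun l => emb (Sum.inl l)) (emb (Sum.inr (entry q)))
      (fun l => hM (Sum.inl l))
    have h2 := ih2 (fun l => emb (Sum.inr l)) ex (fun l => hM (Sum.inr l))
    exact h1.trans h2
  | @ite_true c p q s s' t hc _ ih =>
    intro emb ex hM
    have h0 : ReachesIn M 1 ⟨some (emb none), s.var, s.stk⟩
        ⟨some (emb (some (Sum.inl (entry p)))), s.var, s.stk⟩ := by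
      apply ReachesIn.single
      have := hM none
      simp only [TM2.step]
      erw [this]
      simp only [compile, TM2.stepAux, hc, cond_true]
    exact h0.trans (ih (fun l => emb (some (Sum.inl l))) ex (fun l => hM (some (Sum.inl l))))
  | @ite_false c p q s s' t hc _ ih =>
    intro emb ex hM
    have h0 : ReachesIn M 1 ⟨some (emb none), s.var, s.stk⟩
        ⟨some (emb (some (Sum.inr (entry q)))), s.var, s.stk⟩ := by
      apply ReachesIn.single
      have := hM none
      simp only [TM2.step]
      erw [this]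
      simp only [compile, TM2.stepAux, hc, cond_false]
    exact h0.trans (ih (fun l => emb (some (Sum.inr l))) ex (fun l => hM (some (Sum.inr l))))
  | @loop_false c p s hc =>
    intro emb ex hM
    apply ReachesIn.single
    have := hM none
    simp only [entry, TM2.step]
    erw [this]
    simp only [compile, TM2.stepAux, hc, cond_false]
  | @loop_true c p s s' s'' t t' hc _ _ ih1 ih2 =>
    intro emb ex hM
    have h0 : ReachesIn M 1 ⟨some (emb none), s.var, s.stk⟩
        ⟨some (emb (some (entry p))), s.var, s.stk⟩ := by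
      apply ReachesIn.single
      have := hM none
      simp only [TM2.step]
      erw [this]
      simp only [compile, TM2.stepAux, hc, cond_true]
    have h1 := ih1 (fun l => emb (some l)) (emb none) (fun l => hM (some l))
    exact (h0.trans h1).trans (ih2 emb ex hM)

/-- The complete machine of a program, with input stack `k₀` and output stack `k₁`. -/
def machine [Fintype K] [Fintype Sym] [Fintype σ] (k₀ k₁ : K) (v₀ : σ) (p : Prog K Sym σ) :
    FinTM2 where
  K := K
  k₀ := k₀
  k₁ := k₁
  Γ := fun _ => Sym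
  Λ := Option (Lab p)
  main := some (entry p)
  ΛFin := letI := labFintype p; inferInstance
  σ := σ
  initialState := v₀
  m := fun l => match l with
    | none => .halt
    | some l => compile p some none l

/-- Running time bounded execution. -/
def Run (p : Prog K Sym σ) (s s' : St K Sym σ) (T : ℕ) : Prop := ∃ t, t ≤ T ∧ Exec p s t s'

theorem Run.mono {p : Prog K Sym σ} {s s' : St K Sym σ} {T T' : ℕ} (h : Run p s s' T)
    (hT : T ≤ T') : Run p s s' T' := by
  obtain ⟨t, h1, h2⟩ := h
  exact ⟨t, h1.trans hT, h2⟩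

theorem Run.cast {p : Prog K Sym σ} {s s' s'' : St K Sym σ} {T T' : ℕ} (h : Run p s s' T)
    (e : s' = s'') (hT : T ≤ T') : Run p s s'' T' := e ▸ h.mono hT

theorem Run.ops' (l : List (Op K Sym σ)) (s : St K Sym σ) : Run (.ops l) s (runs l s) 1 :=
  ⟨1, le_rfl, Exec.ops l s⟩

theorem Run.ops {l : List (Op K Sym σ)} {s s' : St K Sym σ} (h : runs l s = s') :
    Run (.ops l) s s' 1 := h ▸ Run.ops' l s

theorem Run.seq {p q : Prog K Sym σ} {s s' s'' : St K Sym σ} {T T' : ℕ} (h : Run p s s' T)
    (h' : Run q s' s'' T') : Run (.seq p q) s s'' (T + T') := by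
  obtain ⟨t, h1, h2⟩ := h
  obtain ⟨t', h1', h2'⟩ := h'
  exact ⟨t + t', by omega, Exec.seq h2 h2'⟩

theorem Run.ite_true {c : σ → Bool} {p q : Prog K Sym σ} {s s' : St K Sym σ} {T : ℕ}
    (hc : c s.var = true) (h : Run p s s' T) : Run (.ite c p q) s s' (1 + T) := by
  obtain ⟨t, h1, h2⟩ := h
  exact ⟨1 + t, by omega, Exec.ite_true hc h2⟩

theorem Run.ite_false {c : σ → Bool} {p q : Prog K Sym σ} {s s' : St K Sym σ} {T : ℕ}
    (hc : c s.var = false) (h : Run q s s' T) : Run (.ite c p q) s s' (1 + T) := by
  obtain ⟨t, h1, h2⟩ := h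
  exact ⟨1 + t, by omega, Exec.ite_false hc h2⟩

theorem Run.loop_false {c : σ → Bool} {p : Prog K Sym σ} {s : St K Sym σ}
    (hc : c s.var = false) : Run (.loop c p) s s 1 :=
  ⟨1, le_rfl, Exec.loop_false hc⟩

theorem Run.loop_true {c : σ → Bool} {p : Prog K Sym σ} {s s' s'' : St K Sym σ} {T T' : ℕ}
    (hc : c s.var = true) (h : Run p s s' T) (h' : Run (.loop c p) s' s'' T') :
    Run (.loop c p) s s'' (1 + T + T') := by
  obtain ⟨t, h1, h2⟩ := h
  obtain ⟨t', h1', h2'⟩ := h'
  exact ⟨1 + t + t', by omega, Exec.loop_true hc h2 h2'⟩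

theorem Run.seq_loop_true {c : σ → Bool} {p q : Prog K Sym σ} {s s' s'' : St K Sym σ}
    {T T' : ℕ} (hc : c s.var = true) (h : Run p s s' T)
    (h' : Run (.seq (.loop c p) q) s' s'' T') :
    Run (.seq (.loop c p) q) s s'' (1 + T + T') := by
  obtain ⟨t, h1, h2⟩ := h
  obtain ⟨t', h1', h2'⟩ := h'
  cases h2' with
  | @seq _ _ _ u _ t1 t2 e1 e2 =>
    exact ⟨(1 + t + t1) + t2, by omega, Exec.seq (Exec.loop_true hc h2 e1) e2⟩

theorem Run.assoc {p q r : Prog K Sym σ} {s s' : St K Sym σ}
    {T : ℕ} (h : Run (.seq p (.seq q r)) s s' T) : Run (.seq (.seq p q) r) s s' T := by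
  obtain ⟨t, h1, h2⟩ := h
  cases h2 with
  | @seq _ _ _ u _ t1 t2 e1 e2 =>
    cases e2 with
    | @seq _ _ _ v _ t3 t4 e3 e4 =>
      exact ⟨(t1 + t3) + t4, by omega, Exec.seq (Exec.seq e1 e3) e4⟩

/-- A polynomial-time `TM2` computation from a family of program runs. -/
theorem computable_of_run [Fintype K] [Fintype Sym] [Fintype σ] {α β : Type}
    (k₀ k₁ : K) (v₀ : σ) (p : Prog K Sym σ) (ea : α → List Sym) (eb : β → List Sym) (f : α → β)
    (P : Polynomial ℕ)
    (h : ∀ a, Run p ⟨v₀, fun k => if k = k₀ then ea a else []⟩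
      ⟨v₀, fun k => if k = k₁ then eb (f a) else []⟩ (P.eval (ea a).length)) :
    Nonempty (TM2ComputableInPolyTime ea eb f) := by
  refine ⟨{ tm := machine k₀ k₁ v₀ p
            inputAlphabet := Equiv.refl _
            outputAlphabet := Equiv.refl _
            time := P + 1
            outputsFun := fun a => ?_ }⟩
  have hex := h a
  have ht := hex.choose_spec
  have hr := compile_correct (machine k₀ k₁ v₀ p).m ht.2 some none (fun l => rfl)
  have hr2 : ReachesIn (K := K) (Sym := Sym) (machine k₀ k₁ v₀ p).m 1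
      ⟨some none, v₀, fun k : K => if k = k₁ then eb (f a) else []⟩
      ⟨none, v₀, fun k : K => if k = k₁ then eb (f a) else []⟩ :=
    ReachesIn.single rfl
  have hr3 := hr.trans hr2
  refine ⟨⟨hex.choose + 1, ?_⟩, ?_⟩
  · have e1 : initList (machine k₀ k₁ v₀ p) (List.map (Equiv.refl Sym).invFun (ea a)) =
        ⟨some (some (entry p)), v₀, fun k : K => if k = k₀ then ea a else []⟩ := by
      refine congrArg (fun S => (⟨some (some (entry p)), v₀, S⟩ :
        TM2.Cfg (fun _ : K => Sym) (Option (Lab p)) σ)) ?_
      refine funext (fun (k : K) => ?_)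
      by_cases hk : k = k₀
      · cases hk
        refine (dif_pos rfl).trans (Eq.trans ?_ (if_pos rfl).symm)
        exact List.map_id _
      · exact (dif_neg hk).trans (if_neg hk).symm
    have e2 : haltList (machine k₀ k₁ v₀ p) (List.map (Equiv.refl Sym).invFun (eb (f a))) =
        ⟨none, v₀, fun k : K => if k = k₁ then eb (f a) else []⟩ := by
      refine congrArg (fun S => (⟨none, v₀, S⟩ :
        TM2.Cfg (fun _ : K => Sym) (Option (Lab p)) σ)) ?_
      refine funext (fun (k : K) => ?_)
      by_cases hk : k = k₁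
      · cases hk
        refine (dif_pos rfl).trans (Eq.trans ?_ (if_pos rfl).symm)
        exact List.map_id _
      · exact (dif_neg hk).trans (if_neg hk).symm
    rw [Option.map_some]
    erw [e1, e2]
    exact hr3
  · have := ht.1
    simp only [Polynomial.eval_add, Polynomial.eval_one]
    omega

end Pool.Agent.Helper99.SL
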