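import Mathlib
import Pool.Agent.Helper99.StackLang
import Pool.Agent.Helper99.CBDefs

/-!
The stack program deciding LIST 3-COLORING on chordal bipartite graphs (arc consistency on the
path with `M` vertices).
-/

namespace Pool.Agent.Helper99.CBM

open Pool.Agent.Helper99.SL

open Pool.Agent.Helper99.CB

/-- Names of the stacks. -/
inductive Stk
  | I | J | K | Kb | A | Ab | T | Tb | U | R | Rb | N | C | O
  deriving DecidableEq, Fintype

/-- The finite register. -/
structure Reg where
  cur : Option Sym
  a : Bool
  p : Bool
  c : Bool
  l0 : Bool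
  l1 : Bool
  l2 : Bool
  any : Bool
  res : Bool
  deriving DecidableEq

instance : Fintype Reg :=
  Fintype.ofEquiv (Option Sym × Bool × Bool × Bool × Bool × Bool × Bool × Bool × Bool)
    { toFun := fun x => ⟨x.1, x.2.1, x.2.2.1, x.2.2.2.1, x.2.2.2.2.1, x.2.2.2.2.2.1,
        x.2.2.2.2.2.2.1, x.2.2.2.2.2.2.2.1, x.2.2.2.2.2.2.2.2⟩
      invFun := fun r => (r.cur, r.a, r.p, r.c, r.l0, r.l1, r.l2, r.any, r.res)
      left_inv := fun _ => rfl
      right_inv := fun _ => rfl }

/-- Bit value of a symbol. -/
def val : Option Sym → Bool
  | some (.bit b) => b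
  | _ => false

def isBit : Option Sym → Bool
  | some (.bit _) => true
  | _ => false

abbrev OP := Op Stk Sym Reg
abbrev PR := Prog Stk Sym Reg
abbrev ST := St Stk Sym Reg

def popc (k : Stk) : OP := .pop k (fun r x => { r with cur := x })
def peekc (k : Stk) : OP := .peek k (fun r x => { r with cur := x })
def pushc (k : Stk) : OP := .push k (fun r => r.cur.getD .sep)

/-- pop all symbols of `k`, performing `l` on each. -/
def eachO (k : Stk) (l : List OP) : PR :=
  .seq (.ops [popc k]) (.loop (fun r => r.cur.isSome) (.ops (l ++ [popc k])))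

/-- pop symbols of `k` up to the next separator. -/
def uptoO (k : Stk) (l : List OP) : PR :=
  .seq (.ops [popc k]) (.loop (fun r => isBit r.cur) (.ops (l ++ [popc k])))

def each (k : Stk) (p : PR) : PR :=
  .seq (.ops [popc k]) (.loop (fun r => r.cur.isSome) (.seq p (.ops [popc k])))

def upto (k : Stk) (p : PR) : PR :=
  .seq (.ops [popc k]) (.loop (fun r => isBit r.cur) (.seq p (.ops [popc k])))

open Function (update)

/-- Memory as a record. -/
structure Mem where
  I : List Sym := []
  J : List Sym := []
  K : List Sym := []
  Kb : List Sym := []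
  A : List Sym := []
  Ab : List Sym := []
  T : List Sym := []
  Tb : List Sym := []
  U : List Sym := []
  R : List Sym := []
  Rb : List Sym := []
  N : List Sym := []
  C : List Sym := []
  O : List Sym := []

def Mem.toFun (m : Mem) : Stk → List Sym
  | .I => m.I
  | .J => m.J
  | .K => m.K
  | .Kb => m.Kb
  | .A => m.A
  | .Ab => m.Ab
  | .T => m.T
  | .Tb => m.Tb
  | .U => m.U
  | .R => m.R
  | .Rb => m.Rb
  | .N => m.N
  | .C => m.C
  | .O => m.O

section
variable (m : Mem) (x : List Sym)
@[simp] theorem tf_I : m.toFun .I = m.I := rfl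
@[simp] theorem tf_J : m.toFun .J = m.J := rfl
@[simp] theorem tf_K : m.toFun .K = m.K := rfl
@[simp] theorem tf_Kb : m.toFun .Kb = m.Kb := rfl
@[simp] theorem tf_A : m.toFun .A = m.A := rfl
@[simp] theorem tf_Ab : m.toFun .Ab = m.Ab := rfl
@[simp] theorem tf_T : m.toFun .T = m.T := rfl
@[simp] theorem tf_Tb : m.toFun .Tb = m.Tb := rfl
@[simp] theorem tf_U : m.toFun .U = m.U := rfl
@[simp] theorem tf_R : m.toFun .R = m.R := rfl
@[simp] theorem tf_Rb : m.toFun .Rb = m.Rb := rfl
@[simp] theorem tf_N : m.toFun .N = m.N := rfl
@[simp] theorem tf_C : m.toFun .C = m.C := rfl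
@[simp] theorem tf_O : m.toFun .O = m.O := rfl
@[simp] theorem up_I : update m.toFun .I x = { m with I := x }.toFun := by
  funext k; cases k <;> rfl
@[simp] theorem up_J : update m.toFun .J x = { m with J := x }.toFun := by
  funext k; cases k <;> rfl
@[simp] theorem up_K : update m.toFun .K x = { m with K := x }.toFun := by
  funext k; cases k <;> rfl
@[simp] theorem up_Kb : update m.toFun .Kb x = { m with Kb := x }.toFun := by
  funext k; cases k <;> rfl
@[simp] theorem up_A : update m.toFun .A x = { m with A := x }.toFun := by
  funext k; cases k <;> rfl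
@[simp] theorem up_Ab : update m.toFun .Ab x = { m with Ab := x }.toFun := by
  funext k; cases k <;> rfl
@[simp] theorem up_T : update m.toFun .T x = { m with T := x }.toFun := by
  funext k; cases k <;> rfl
@[simp] theorem up_Tb : update m.toFun .Tb x = { m with Tb := x }.toFun := by
  funext k; cases k <;> rfl
@[simp] theorem up_U : update m.toFun .U x = { m with U := x }.toFun := by
  funext k; cases k <;> rfl
@[simp] theorem up_R : update m.toFun .R x = { m with R := x }.toFun := by
  funext k; cases k <;> rfl
@[simp] theorem up_Rb : update m.toFun .Rb x = { m with Rb := x }.toFun := by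
  funext k; cases k <;> rfl
@[simp] theorem up_N : update m.toFun .N x = { m with N := x }.toFun := by
  funext k; cases k <;> rfl
@[simp] theorem up_C : update m.toFun .C x = { m with C := x }.toFun := by
  funext k; cases k <;> rfl
@[simp] theorem up_O : update m.toFun .O x = { m with O := x }.toFun := by
  funext k; cases k <;> rfl
end

/-- Moving a stack onto another one. -/
theorem run_mv (k k' : Stk) (h : k ≠ k') (r : Reg) (s : Stk → List Sym) :
    Run (eachO k [pushc k']) ⟨r, s⟩
      ⟨{ r with cur := none }, update (update s k []) k' ((s k).reverse ++ s k')⟩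
      (2 * (s k).length + 2) := by
  have key : ∀ (xs : List Sym) (s : Stk → List Sym),
      Run (.loop (fun r => r.cur.isSome) (.ops ([pushc k'] ++ [popc k])))
        (⟨{ r with cur := xs.head? }, update s k xs.tail⟩ : ST)
        ⟨{ r with cur := none }, update (update s k []) k' (xs.reverse ++ s k')⟩
        (2 * xs.length + 1) := by
    intro xs
    induction xs with
    | nil =>
      intro s
      have e : update (update s k []) k' (([] : List Sym).reverse ++ s k') = update s k [] := by
        funext z
        by_cases hz : z = k'
        · subst hz; simp [Function.update_of_ne (Ne.symm h)]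
        · simp [Function.update_of_ne hz]
      rw [e]
      exact Run.loop_false rfl
    | cons x xs ih =>
      intro s
      have h1 := ih (update s k' (x :: s k'))
      have e : runs ([pushc k'] ++ [popc k])
          (⟨{ r with cur := (x :: xs).head? }, update s k (x :: xs).tail⟩ : ST) =
          ⟨{ r with cur := xs.head? }, update (update s k' (x :: s k')) k xs.tail⟩ := by
        simp only [List.cons_append, List.nil_append, runs, Op.run, pushc, popc]
        have h2 : update s k (x :: xs).tail k' = s k' := by
          rw [Function.update_of_ne (Ne.symm h)]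
        congr 1
        · simp [Function.update_of_ne h]
        · funext z
          by_cases hz : z = k
          · subst hz; simp [Function.update_of_ne h]
          · by_cases hz' : z = k'
            · subst hz'; simp [Function.update_of_ne hz]
            · simp [Function.update_of_ne hz, Function.update_of_ne hz']
      have h3 := Run.loop_true (c := fun r : Reg => r.cur.isSome)
        (s := (⟨{ r with cur := (x :: xs).head? }, update s k (x :: xs).tail⟩ : ST)) rfl
        (Run.ops e) h1
      refine (Run.mono ?_ (show 1 + 1 + (2 * xs.length + 1) ≤ 2 * (x :: xs).length + 1 by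
        simp only [List.length_cons]; omega))
      convert h3 using 2
      funext z
      by_cases hz : z = k'
      · subst hz; simp
      · by_cases hz' : z = k
        · subst hz'; simp [Function.update_of_ne hz]
        · simp [Function.update_of_ne hz, Function.update_of_ne hz']
  refine Run.mono (Run.seq (Run.ops rfl) (key (s k) s)) (by omega)


/-- Moving a stack onto two other ones, with relabelling for the second. -/
theorem run_mv2 (k k' k'' : Stk) (h : k ≠ k') (h' : k ≠ k'') (h'' : k' ≠ k'') (φ : Sym → Sym)
    (r : Reg) (s : Stk → List Sym) :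
    Run (eachO k [pushc k', .push k'' (fun r => φ (r.cur.getD .sep))]) ⟨r, s⟩
      ⟨{ r with cur := none }, update (update (update s k []) k' ((s k).reverse ++ s k'))
        k'' (((s k).map φ).reverse ++ s k'')⟩
      (2 * (s k).length + 2) := by
  have key : ∀ (xs : List Sym) (s : Stk → List Sym),
      Run (.loop (fun r => r.cur.isSome)
        (.ops ([pushc k', .push k'' (fun r => φ (r.cur.getD .sep))] ++ [popc k])))
        (⟨{ r with cur := xs.head? }, update s k xs.tail⟩ : ST)
        ⟨{ r with cur := none }, update (update (update s k []) k' (xs.reverse ++ s k')) k''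
          ((xs.map φ).reverse ++ s k'')⟩
        (2 * xs.length + 1) := by
    intro xs
    induction xs with
    | nil =>
      intro s
      have e : update (update (update s k []) k' (([] : List Sym).reverse ++ s k')) k''
          ((([] : List Sym).map φ).reverse ++ s k'') = update s k [] := by
        funext z
        by_cases hz : z = k''
        · subst hz; simp [Function.update_of_ne (Ne.symm h')]
        · by_cases hz' : z = k'
          · subst hz'; simp [Function.update_of_ne hz, Function.update_of_ne (Ne.symm h)]
          · simp [Function.update_of_ne hz, Function.update_of_ne hz']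
      rw [e]
      exact Run.loop_false rfl
    | cons x xs ih =>
      intro s
      have h1 := ih (update (update s k' (x :: s k')) k'' (φ x :: s k''))
      have e : runs ([pushc k', .push k'' (fun r => φ (r.cur.getD .sep))] ++ [popc k])
          (⟨{ r with cur := (x :: xs).head? }, update s k (x :: xs).tail⟩ : ST) =
          ⟨{ r with cur := xs.head? },
            update (update (update s k' (x :: s k')) k'' (φ x :: s k'')) k xs.tail⟩ := by
        simp only [List.cons_append, List.nil_append, runs, Op.run, pushc, popc]
        congr 1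
        · simp [Function.update_of_ne h, Function.update_of_ne h']
        · funext z
          by_cases hz : z = k
          · subst hz; simp [Function.update_of_ne h, Function.update_of_ne h']
          · by_cases hz' : z = k''
            · subst hz'
              simp [Function.update_of_ne hz, Function.update_of_ne (Ne.symm h'')]
            · by_cases hz2 : z = k'
              · subst hz2
                simp [Function.update_of_ne hz, Function.update_of_ne hz']
              · simp [Function.update_of_ne hz, Function.update_of_ne hz', Function.update_of_ne hz2]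
      have h3 := Run.loop_true (c := fun r : Reg => r.cur.isSome)
        (s := (⟨{ r with cur := (x :: xs).head? }, update s k (x :: xs).tail⟩ : ST)) rfl
        (Run.ops e) h1
      refine (Run.mono ?_ (show 1 + 1 + (2 * xs.length + 1) ≤ 2 * (x :: xs).length + 1 by
        simp only [List.length_cons]; omega))
      convert h3 using 2
      funext z
      by_cases hz : z = k''
      · subst hz; simp
      · by_cases hz' : z = k'
        · subst hz'; simp [Function.update_of_ne hz]
        · by_cases hz2 : z = k
          · subst hz2; simp [Function.update_of_ne hz, Function.update_of_ne hz']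
          · simp [Function.update_of_ne hz, Function.update_of_ne hz', Function.update_of_ne hz2]
  refine Run.mono (Run.seq (Run.ops rfl) (key (s k) s)) (by omega)

/-- Clearing a stack. -/
theorem run_clear (k : Stk) (r : Reg) (s : Stk → List Sym) :
    Run (eachO k []) ⟨r, s⟩ ⟨{ r with cur := none }, update s k []⟩
      (2 * (s k).length + 2) := by
  have key : ∀ (xs : List Sym) (s : Stk → List Sym),
      Run (.loop (fun r => r.cur.isSome) (.ops ([] ++ [popc k])))
        (⟨{ r with cur := xs.head? }, update s k xs.tail⟩ : ST)
        ⟨{ r with cur := none }, update s k []⟩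
        (2 * xs.length + 1) := by
    intro xs
    induction xs with
    | nil =>
      intro s
      exact Run.loop_false rfl
    | cons x xs ih =>
      intro s
      have e : runs ([] ++ [popc k])
          (⟨{ r with cur := (x :: xs).head? }, update s k (x :: xs).tail⟩ : ST) =
          ⟨{ r with cur := xs.head? }, update s k xs.tail⟩ := by
        simp [runs, Op.run, popc]
      have h3 := Run.loop_true (c := fun r : Reg => r.cur.isSome)
        (s := (⟨{ r with cur := (x :: xs).head? }, update s k (x :: xs).tail⟩ : ST)) rfl
        (Run.ops e) (ih s)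
      exact (Run.mono h3 (show 1 + 1 + (2 * xs.length + 1) ≤ 2 * (x :: xs).length + 1 by
        simp only [List.length_cons]; omega))
  refine Run.mono (Run.seq (Run.ops rfl) (key (s k) s)) (by omega)

theorem mvM (r : Reg) (m : Mem) :
    (Run (eachO .Rb [pushc .R]) (⟨r, m.toFun⟩ : ST) ⟨{ r with cur := none },
      { m with
        Rb := []
        R := m.Rb.reverse ++ m.R }.toFun⟩ (2 * m.Rb.length + 2)) ∧
    (Run (eachO .J [pushc .I]) (⟨r, m.toFun⟩ : ST) ⟨{ r with cur := none },
      { m with
        J := []
        I := m.J.reverse ++ m.I }.toFun⟩ (2 * m.J.length + 2)) ∧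
    (Run (eachO .Kb [pushc .K]) (⟨r, m.toFun⟩ : ST) ⟨{ r with cur := none },
      { m with
        Kb := []
        K := m.Kb.reverse ++ m.K }.toFun⟩ (2 * m.Kb.length + 2)) ∧
    (Run (eachO .Ab [pushc .A]) (⟨r, m.toFun⟩ : ST) ⟨{ r with cur := none },
      { m with
        Ab := []
        A := m.Ab.reverse ++ m.A }.toFun⟩ (2 * m.Ab.length + 2)) ∧
    (Run (eachO .T [pushc .Tb]) (⟨r, m.toFun⟩ : ST) ⟨{ r with cur := none },
      { m with
        T := []
        Tb := m.T.reverse ++ m.Tb }.toFun⟩ (2 * m.T.length + 2)) ∧
    (Run (eachO .Tb [pushc .T]) (⟨r, m.toFun⟩ : ST) ⟨{ r with cur := none },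
      { m with
        Tb := []
        T := m.Tb.reverse ++ m.T }.toFun⟩ (2 * m.Tb.length + 2)) ∧
    (Run (eachO .R [pushc .N]) (⟨r, m.toFun⟩ : ST) ⟨{ r with cur := none },
      { m with
        R := []
        N := m.R.reverse ++ m.N }.toFun⟩ (2 * m.R.length + 2)) ∧
    (Run (eachO .N [pushc .T]) (⟨r, m.toFun⟩ : ST) ⟨{ r with cur := none },
      { m with
        N := []
        T := m.N.reverse ++ m.T }.toFun⟩ (2 * m.N.length + 2)) := by
  refine ⟨?_, ?_, ?_, ?_, ?_, ?_, ?_, ?_⟩
  · simpa using run_mv .Rb .R (by decide) r m.toFun
  · simpa using run_mv .J .I (by decide) r m.toFun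
  · simpa using run_mv .Kb .K (by decide) r m.toFun
  · simpa using run_mv .Ab .A (by decide) r m.toFun
  · simpa using run_mv .T .Tb (by decide) r m.toFun
  · simpa using run_mv .Tb .T (by decide) r m.toFun
  · simpa using run_mv .R .N (by decide) r m.toFun
  · simpa using run_mv .N .T (by decide) r m.toFun

/-- Bits as symbols. -/
def bits (l : List Bool) : List Sym := l.map Sym.bit

@[simp] theorem bits_nil : bits [] = [] := rfl
@[simp] theorem bits_cons (b : Bool) (l : List Bool) : bits (b :: l) = .bit b :: bits l := rfl
@[simp] theorem bits_append (l l' : List Bool) : bits (l ++ l') = bits l ++ bits l' := by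
  simp [bits]
@[simp] theorem bits_length (l : List Bool) : (bits l).length = l.length := by simp [bits]
theorem bits_reverse (l : List Bool) : bits l.reverse = (bits l).reverse := by simp [bits]

def encRow (l : List Bool) : List Sym := bits l ++ [.sep]
def encRows (T : List (List Bool)) : List Sym := T.flatMap encRow

@[simp] theorem encRows_nil : encRows [] = [] := rfl
@[simp] theorem encRows_cons (r : List Bool) (T : List (List Bool)) :
    encRows (r :: T) = bits r ++ .sep :: encRows T := by
  simp [encRows, encRow]

/-- Moving bits up to a separator. -/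
theorem run_uptoMv (k k' : Stk) (h : k ≠ k') (r : Reg) (s : Stk → List Sym) (bs : List Bool)
    (rest : List Sym) (hs : s k = bits bs ++ .sep :: rest) :
    Run (uptoO k [pushc k']) ⟨r, s⟩
      ⟨{ r with cur := some .sep }, update (update s k rest) k' ((bits bs).reverse ++ s k')⟩
      (2 * bs.length + 2) := by
  have key : ∀ (bs : List Bool) (s : Stk → List Sym),
      Run (.loop (fun r => isBit r.cur) (.ops ([pushc k'] ++ [popc k])))
        (⟨{ r with cur := (bits bs ++ .sep :: rest).head? },
          update s k (bits bs ++ .sep :: rest).tail⟩ : ST)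
        ⟨{ r with cur := some .sep }, update (update s k rest) k' ((bits bs).reverse ++ s k')⟩
        (2 * bs.length + 1) := by
    intro bs
    induction bs with
    | nil =>
      intro s
      have e : update (update s k rest) k' ((bits []).reverse ++ s k') = update s k rest := by
        funext z
        by_cases hz : z = k'
        · subst hz; simp [Function.update_of_ne (Ne.symm h)]
        · simp [Function.update_of_ne hz]
      rw [e]
      exact Run.loop_false rfl
    | cons x xs ih =>
      intro s
      have h1 := ih (update s k' (.bit x :: s k'))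
      have e : runs ([pushc k'] ++ [popc k])
          (⟨{ r with cur := (bits (x :: xs) ++ .sep :: rest).head? },
            update s k (bits (x :: xs) ++ .sep :: rest).tail⟩ : ST) =
          ⟨{ r with cur := (bits xs ++ .sep :: rest).head? },
            update (update s k' (.bit x :: s k')) k (bits xs ++ .sep :: rest).tail⟩ := by
        simp only [List.cons_append, List.nil_append, runs, Op.run, pushc, popc]
        congr 1
        · simp [Function.update_of_ne h]
        · funext z
          by_cases hz : z = k
          · subst hz; simp [Function.update_of_ne h]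
          · by_cases hz' : z = k'
            · subst hz'; simp [Function.update_of_ne hz]
            · simp [Function.update_of_ne hz, Function.update_of_ne hz']
      have h3 := Run.loop_true (c := fun r : Reg => isBit r.cur)
        (s := (⟨{ r with cur := (bits (x :: xs) ++ .sep :: rest).head? },
            update s k (bits (x :: xs) ++ .sep :: rest).tail⟩ : ST)) rfl
        (Run.ops e) h1
      refine (Run.mono ?_ (show 1 + 1 + (2 * xs.length + 1) ≤ 2 * (x :: xs).length + 1 by
        simp only [List.length_cons]; omega))
      convert h3 using 2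
      funext z
      by_cases hz : z = k'
      · subst hz; simp
      · by_cases hz' : z = k
        · subst hz'; simp [Function.update_of_ne hz]
        · simp [Function.update_of_ne hz, Function.update_of_ne hz']
  have h0 := key bs s
  rw [← hs] at h0
  refine Run.mono (Run.seq (Run.ops rfl) h0) (by omega)

/-! ### The streaming step -/

/-- Streaming combination of a row `R` (with one leading dummy entry) and a row `Q`. -/
def stream (a : Bool) : Bool → Bool → List Bool → List Bool → List Bool
  | p, _, r :: _, [] => [r && (!a || p)]
  | p, c, r :: R, q :: Q => (r && (!a || p || q)) :: stream a c q R Q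
  | _, _, [], _ => []

def streamOps : List OP :=
  [pushc .Tb,
   .pop .R (fun r x => { r with any := val x && (!r.a || r.p || val r.cur) }),
   .push .Rb (fun r => .bit r.any),
   .load (fun r => { r with p := r.c, c := val r.cur })]

def streamEnd : List OP :=
  [.push .Tb (fun _ => .sep),
   .pop .R (fun r x => { r with any := val x && (!r.a || r.p) }),
   .push .Rb (fun r => .bit r.any)]

attribute [local simp] runs Op.run popc pushc peekc

theorem run_stream (a : Bool) (Q : List Bool) :
    ∀ (r : Reg) (m : Mem) (R : List Bool) (rest : List Sym), r.a = a →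
      m.T = bits Q ++ Sym.sep :: rest → m.R = bits R → R.length = Q.length + 1 →
      ∃ r' : Reg, Run (.seq (uptoO .T streamOps) (.ops streamEnd)) ⟨r, m.toFun⟩
        ⟨r', { m with
          T := rest
          Tb := (encRow Q).reverse ++ m.Tb
          R := []
          Rb := (bits (stream a r.p r.c R Q)).reverse ++ m.Rb }.toFun⟩ (2 * Q.length + 3) ∧
        r'.a = a ∧ r'.res = r.res := by
  have key : ∀ (Q : List Bool) (r : Reg) (m : Mem) (R : List Bool) (rest : List Sym), r.a = a →
      m.R = bits R → R.length = Q.length + 1 →
      ∃ r' : Reg, Run (.seq (.loop (fun r => isBit r.cur) (.ops (streamOps ++ [popc .T])))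
          (.ops streamEnd))
        ⟨{ r with cur := (bits Q ++ Sym.sep :: rest).head? },
          { m with T := (bits Q ++ Sym.sep :: rest).tail }.toFun⟩
        ⟨r', { m with
          T := rest
          Tb := (encRow Q).reverse ++ m.Tb
          R := []
          Rb := (bits (stream a r.p r.c R Q)).reverse ++ m.Rb }.toFun⟩ (2 * Q.length + 2) ∧
        r'.a = a ∧ r'.res = r.res := by
    intro Q
    induction Q with
    | nil =>
      intro r m R rest ha hR hlen
      obtain ⟨x, rfl⟩ : ∃ x, R = [x] := List.length_eq_one_iff.1 (by simpa using hlen)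
      refine ⟨{ r with cur := some .sep, any := x && (!r.a || r.p) },
        Run.mono (Run.seq (Run.loop_false rfl) (Run.ops ?_)) (by simp), ha, rfl⟩
      simp [streamEnd, hR, val, encRow, stream, ha]
    | cons q Q ih =>
      intro r m R rest ha hR hlen
      obtain ⟨x, R', rfl⟩ : ∃ x R', R = x :: R' := by
        cases R with
        | nil => simp at hlen
        | cons x R' => exact ⟨x, R', rfl⟩
      obtain ⟨r', h1, h2, h3⟩ := ih { r with p := r.c, c := q, any := x && (!r.a || r.p || q) }
        { m with
          Tb := .bit q :: m.Tb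
          R := bits R'
          Rb := .bit (x && (!r.a || r.p || q)) :: m.Rb } R' rest ha rfl
        (by simpa using hlen)
      refine ⟨r', ?_, h2, by simpa using h3⟩
      have hb := Run.seq_loop_true (c := fun r : Reg => isBit r.cur)
        (p := .ops (streamOps ++ [popc .T]))
        (s := (⟨{ r with cur := (bits (q :: Q) ++ Sym.sep :: rest).head? },
          { m with T := (bits (q :: Q) ++ Sym.sep :: rest).tail }.toFun⟩ : ST)) rfl
          (Run.ops (by simp [streamOps, hR, val])) h1
      refine Run.mono ?_ (show 1 + 1 + (2 * Q.length + 2) ≤ 2 * (q :: Q).length + 2 by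
        simp only [List.length_cons]; omega)
      convert hb using 3
      simp [stream, ha, encRow]
  intro r m R rest ha hT hR hlen
  obtain ⟨r', h1, h2, h3⟩ := key Q r m R rest ha hR hlen
  refine ⟨r', ?_, h2, h3⟩
  apply Run.assoc
  refine Run.mono (Run.seq (Run.ops ?_) h1) (by omega)
  simp [hT]

theorem stream_length (a : Bool) (Q : List Bool) : ∀ (p c : Bool) (R : List Bool),
    R.length = Q.length + 1 → (stream a p c R Q).length = Q.length + 1 := by
  induction Q with
  | nil =>
    intro p c R h
    obtain ⟨x, rfl⟩ : ∃ x, R = [x] := List.length_eq_one_iff.1 (by simpa using h)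
    simp [stream]
  | cons q Q ih =>
    intro p c R h
    cases R with
    | nil => simp at h
    | cons x R' =>
      simp only [stream, List.length_cons]
      rw [ih _ _ _ (by simpa using h)]

/-- Body of the loop over the bits of an adjacency row. -/
def rowBody : PR :=
  .seq (.ops [pushc .Ab, .load (fun r => { r with a := val r.cur, p := false, c := false })])
    (.seq (.seq (uptoO .T streamOps) (.ops streamEnd)) (eachO .Rb [pushc .R]))

theorem run_rowBody (r : Reg) (m : Mem) (a : Bool) (Q R : List Bool) (rest : List Sym)
    (ha : r.cur = some (.bit a)) (hT : m.T = bits Q ++ Sym.sep :: rest) (hR : m.R = bits R)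
    (hlen : R.length = Q.length + 1) (hRb : m.Rb = []) :
    ∃ r', Run rowBody ⟨r, m.toFun⟩ ⟨r', { m with
        T := rest
        Tb := (encRow Q).reverse ++ m.Tb
        R := bits (stream a false false R Q)
        Ab := .bit a :: m.Ab }.toFun⟩ (4 * Q.length + 8) ∧ r'.res = r.res := by
  obtain ⟨r1, h1, h2, h3⟩ := run_stream a Q { r with a := a, p := false, c := false }
    { m with Ab := .bit a :: m.Ab } R rest rfl hT hR hlen
  have h4 := (mvM r1 { m with
          T := rest
          Tb := (encRow Q).reverse ++ m.Tb
          R := []
          Rb := (bits (stream a false false R Q)).reverse ++ m.Rb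
          Ab := .bit a :: m.Ab }).1
  refine ⟨{ r1 with cur := none }, ?_, h3⟩
  refine Run.cast (Run.seq (Run.ops (l := [pushc .Ab, .load (fun r => { r with
    a := val r.cur
    p := false
    c := false })]) (s := ⟨r, m.toFun⟩)
    (s' := ⟨{ r with a := a, p := false, c := false }, { m with Ab := .bit a :: m.Ab }.toFun⟩)
    (by simp [ha, val])) (Run.seq h1 h4)) ?_ ?_
  · simp [hRb]
  · simp [hRb, stream_length a Q _ _ R hlen]
    omega

/-- Folding the streaming step over the rows. -/
def foldRow (as : List Bool) (Qs : List (List Bool)) (R : List Bool) : List Bool :=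
  (as.zip Qs).foldl (fun R x => stream x.1 false false R x.2) R

@[simp] theorem foldRow_nil (R : List Bool) : foldRow [] [] R = R := rfl
@[simp] theorem foldRow_cons (a : Bool) (as : List Bool) (Q : List Bool) (Qs : List (List Bool))
    (R : List Bool) :
    foldRow (a :: as) (Q :: Qs) R = foldRow as Qs (stream a false false R Q) := rfl

theorem foldRow_length {M : ℕ} (as : List Bool) : ∀ (Qs : List (List Bool)) (R : List Bool),
    (∀ Q ∈ Qs, Q.length = M) → R.length = M + 1 → (foldRow as Qs R).length = M + 1 := by
  induction as with
  | nil => intro Qs R _ h; simpa [foldRow] using h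
  | cons a as ih =>
    intro Qs R hQ h
    cases Qs with
    | nil => simpa [foldRow] using h
    | cons Q Qs =>
      rw [foldRow_cons]
      have hQM := hQ Q (by simp)
      apply ih Qs _ (fun Q' h' => hQ Q' (by simp [h']))
      rw [stream_length _ _ _ _ _ (by rw [h, hQM]), hQM]

theorem run_uptoA {M : ℕ} (as : List Bool) : ∀ (Qs : List (List Bool)) (R : List Bool) (r : Reg)
    (m : Mem) (restA restT : List Sym), as.length = Qs.length → (∀ Q ∈ Qs, Q.length = M) →
    R.length = M + 1 → m.A = bits as ++ Sym.sep :: restA → m.T = encRows Qs ++ restT →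
    m.R = bits R → m.Rb = [] →
    ∃ r', Run (upto .A rowBody) ⟨r, m.toFun⟩ ⟨r', { m with
        A := restA
        Ab := (bits as).reverse ++ m.Ab
        T := restT
        Tb := (encRows Qs).reverse ++ m.Tb
        R := bits (foldRow as Qs R) }.toFun⟩ (as.length * (4 * M + 10) + 2) ∧
      r'.res = r.res := by
  have key : ∀ (as : List Bool) (Qs : List (List Bool)) (R : List Bool) (r : Reg)
      (m : Mem) (restA restT : List Sym), as.length = Qs.length → (∀ Q ∈ Qs, Q.length = M) →
      R.length = M + 1 → r.cur = (bits as ++ Sym.sep :: restA).head? →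
      m.A = (bits as ++ Sym.sep :: restA).tail → m.T = encRows Qs ++ restT →
      m.R = bits R → m.Rb = [] →
      ∃ r', Run (.loop (fun r => isBit r.cur) (.seq rowBody (.ops [popc .A])))
        ⟨r, m.toFun⟩ ⟨r', { m with
          A := restA
          Ab := (bits as).reverse ++ m.Ab
          T := restT
          Tb := (encRows Qs).reverse ++ m.Tb
          R := bits (foldRow as Qs R) }.toFun⟩ (as.length * (4 * M + 10) + 1) ∧
        r'.res = r.res := by
    intro as
    induction as with
    | nil =>
      intro Qs R r m restA restT hlen hQ hRl hcur hA hT hR hRb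
      have hQs : Qs = [] := List.length_eq_zero_iff.1 (by simpa using hlen.symm)
      subst hQs
      refine ⟨r, ?_, rfl⟩
      have : (⟨r, m.toFun⟩ : ST) = ⟨r, { m with
          A := restA
          Ab := (bits []).reverse ++ m.Ab
          T := restT
          Tb := (encRows []).reverse ++ m.Tb
          R := bits (foldRow [] [] R) }.toFun⟩ := by
        simp at hA hT
        simp [← hR, ← hA, ← hT]
      rw [← this]
      refine Run.mono (Run.loop_false ?_) (by simp)
      simp [hcur, isBit]
    | cons a as ih =>
      intro Qs R r m restA restT hlen hQ hRl hcur hA hT hR hRb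
      cases Qs with
      | nil => simp at hlen
      | cons Q Qs =>
        have hQM : Q.length = M := hQ Q (by simp)
        obtain ⟨r1, h1, h2⟩ := run_rowBody r m a Q R (encRows Qs ++ restT) (by simpa using hcur)
          (by simpa using hT) hR (by rw [hRl, hQM]) hRb
        have hQs : ∀ Q' ∈ Qs, Q'.length = M := fun Q' h' => hQ Q' (by simp [h'])
        obtain ⟨r2, h3, h4⟩ := ih Qs (stream a false false R Q)
          { r1 with cur := (bits as ++ Sym.sep :: restA).head? }
          { m with
            A := (bits as ++ Sym.sep :: restA).tail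
            T := encRows Qs ++ restT
            Tb := (encRow Q).reverse ++ m.Tb
            R := bits (stream a false false R Q)
            Ab := .bit a :: m.Ab } restA restT (by simpa using hlen) hQs
            (by rw [stream_length _ _ _ _ _ (by rw [hRl, hQM]), hQM]) rfl rfl rfl rfl hRb
        refine ⟨r2, ?_, by rw [h4]; exact h2⟩
        have h5 := Run.loop_true (c := fun r : Reg => isBit r.cur) (s := (⟨r, m.toFun⟩ : ST))
          (by simp [hcur, isBit])
          (Run.seq h1 (Run.ops (l := [popc .A]) (by simp [hA]))) h3
        refine Run.mono ?_ (show 1 + (4 * Q.length + 8 + 1) + (as.length * (4 * M + 10) + 1) ≤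
          (a :: as).length * (4 * M + 10) + 1 by
            rw [hQM, List.length_cons, Nat.add_mul]; omega)
        convert h5 using 2
        simp [encRow]
  intro Qs R r m restA restT hlen hQ hRl hA hT hR hRb
  obtain ⟨r', h1, h2⟩ := key as Qs R { r with cur := (bits as ++ Sym.sep :: restA).head? }
    { m with A := (bits as ++ Sym.sep :: restA).tail } restA restT hlen hQ hRl rfl rfl hT hR hRb
  refine ⟨r', ?_, h2⟩
  refine Run.mono (Run.seq (Run.ops ?_) h1) (by omega)
  simp [hA]

/-! ### One vertex -/

def loadRow : PR :=
  .seq (uptoO .U [pushc .Rb]) (.seq (eachO .Rb [pushc .R])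
    (.ops [.push .R (fun _ => .bit false)]))

theorem run_loadRow (r : Reg) (m : Mem) (row : List Bool) (rest : List Sym)
    (hU : m.U = bits row ++ Sym.sep :: rest) (hR : m.R = []) (hRb : m.Rb = []) :
    ∃ r', Run loadRow ⟨r, m.toFun⟩ ⟨r', { m with
        U := rest
        R := bits (false :: row) }.toFun⟩ (4 * row.length + 5) ∧ r'.res = r.res := by
  have h1 := run_uptoMv .U .Rb (by decide) r m.toFun row rest hU
  simp only [up_U, up_Rb, tf_Rb] at h1
  have h2 := (mvM { r with cur := some .sep } { m with
    U := rest
    Rb := (bits row).reverse ++ m.Rb }).1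
  refine ⟨{ r with cur := none }, ?_, rfl⟩
  refine Run.cast (Run.seq h1 (Run.seq h2 (Run.ops rfl))) ?_ ?_
  · simp [hR, hRb]
  · simp [hRb]; omega

def finishRow : PR :=
  .seq (.ops [.push .Ab (fun _ => .sep), .pop .R (fun r _ => r)])
    (.seq (eachO .Tb [pushc .T]) (.seq (eachO .R [pushc .N]) (.ops [.push .N (fun _ => .sep)])))

theorem run_finishRow (r : Reg) (m : Mem) (x : Bool) (row : List Bool)
    (hR : m.R = bits (x :: row)) :
    ∃ r', Run finishRow ⟨r, m.toFun⟩ ⟨r', { m with
        Ab := .sep :: m.Ab
        Tb := []
        T := m.Tb.reverse ++ m.T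
        R := []
        N := (encRow row).reverse ++ m.N }.toFun⟩ (2 * m.Tb.length + 2 * row.length + 6) ∧
      r'.res = r.res := by
  have h2 := (mvM r { m with
    Ab := .sep :: m.Ab
    R := bits row }).2.2.2.2.2.1
  have h3 := (mvM { r with cur := none } { m with
    Ab := .sep :: m.Ab
    R := bits row
    Tb := []
    T := m.Tb.reverse ++ m.T }).2.2.2.2.2.2.1
  refine ⟨{ r with cur := none }, ?_, rfl⟩
  refine Run.cast (Run.seq (Run.ops (l := [.push .Ab (fun _ => .sep), .pop .R (fun r _ => r)])
    (s := ⟨r, m.toFun⟩) (by simp [hR])) (Run.seq h2 (Run.seq h3 (Run.ops rfl)))) ?_ ?_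
  · simp [encRow]
  · simp; omega

def vBody : PR := .seq loadRow (.seq (upto .A rowBody) finishRow)

/-- The new row computed for a vertex. -/
def newRow (Ts : List (List Bool)) (as row : List Bool) : List Bool :=
  (foldRow as Ts (false :: row)).tail

theorem run_vBody {M : ℕ} (r : Reg) (m : Mem) (as row : List Bool) (Ts : List (List Bool))
    (restA restU : List Sym) (hlen : as.length = Ts.length) (hQ : ∀ Q ∈ Ts, Q.length = M)
    (hrow : row.length = M) (hA : m.A = bits as ++ Sym.sep :: restA)
    (hU : m.U = bits row ++ Sym.sep :: restU) (hT : m.T = encRows Ts) (hR : m.R = [])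
    (hRb : m.Rb = []) (hTb : m.Tb = []) :
    ∃ r', Run vBody ⟨r, m.toFun⟩ ⟨r', { m with
        A := restA
        U := restU
        Ab := (encRow as).reverse ++ m.Ab
        N := (encRow (newRow Ts as row)).reverse ++ m.N }.toFun⟩
      (as.length * (4 * M + 10) + 2 * (encRows Ts).length + 6 * M + 13) ∧ r'.res = r.res := by
  obtain ⟨r1, h1, e1⟩ := run_loadRow r m row restU hU hR hRb
  obtain ⟨r2, h2, e2⟩ := run_uptoA (M := M) as Ts (false :: row) r1 { m with
        U := restU
        R := bits (false :: row) } restA [] hlen hQ (by simp [hrow]) hA (by simp [hT]) rfl hRb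
  have hfl := foldRow_length (M := M) as Ts (false :: row) hQ (by simp [hrow])
  obtain ⟨x, row', hx⟩ : ∃ x row', foldRow as Ts (false :: row) = x :: row' := by
    cases hh : foldRow as Ts (false :: row) with
    | nil => rw [hh] at hfl; simp at hfl
    | cons x row' => exact ⟨x, row', rfl⟩
  rw [hx] at h2 hfl
  obtain ⟨r3, h3, e3⟩ := run_finishRow r2 { m with
        A := restA
        Ab := (bits as).reverse ++ m.Ab
        T := []
        Tb := (encRows Ts).reverse ++ m.Tb
        R := bits (x :: row')
        U := restU } x row' rfl
  refine ⟨r3, ?_, by rw [e3, e2, e1]⟩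
  refine Run.cast (Run.seq h1 (Run.seq h2 h3)) ?_ ?_
  · simp [newRow, hx, hTb, hT, hR, encRow]
  · simp [hTb]
    simp at hfl
    rw [hrow, hfl]
    omega

/-! ### The sweep over all vertices -/

def sweep : PR :=
  .seq (.ops [peekc .A]) (.loop (fun r => r.cur.isSome) (.seq vBody (.ops [peekc .A])))

def vCost (n M tl : ℕ) : ℕ := n * (4 * M + 10) + 2 * tl + 6 * M + 15

theorem head_encRows_isSome (a : List Bool) (As : List (List Bool)) :
    (encRows (a :: As)).head?.isSome = true := by
  cases a <;> simp

theorem run_sweep {M n : ℕ} (Ts : List (List Bool)) (hTl : Ts.length = n)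
    (hQ : ∀ Q ∈ Ts, Q.length = M) (As : List (List Bool)) :
    ∀ (Us : List (List Bool)) (r : Reg) (m : Mem), As.length = Us.length →
      (∀ a ∈ As, a.length = n) → (∀ u ∈ Us, u.length = M) →
      m.A = encRows As → m.U = encRows Us → m.T = encRows Ts → m.R = [] → m.Rb = [] →
      m.Tb = [] →
      ∃ r', Run sweep ⟨r, m.toFun⟩ ⟨r', { m with
        A := []
        U := []
        Ab := (encRows As).reverse ++ m.Ab
        N := (encRows (List.zipWith (newRow Ts) As Us)).reverse ++ m.N }.toFun⟩
      (As.length * vCost n M (encRows Ts).length + 2) ∧ r'.res = r.res := by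
  have key : ∀ (As : List (List Bool)) (Us : List (List Bool)) (r : Reg) (m : Mem),
      As.length = Us.length →
      (∀ a ∈ As, a.length = n) → (∀ u ∈ Us, u.length = M) →
      m.A = encRows As → m.U = encRows Us → m.T = encRows Ts → m.R = [] → m.Rb = [] →
      m.Tb = [] → r.cur = (encRows As).head? →
      ∃ r', Run (.loop (fun r => r.cur.isSome) (.seq vBody (.ops [peekc .A])))
        ⟨r, m.toFun⟩ ⟨r', { m with
        A := []
        U := []
        Ab := (encRows As).reverse ++ m.Ab
        N := (encRows (List.zipWith (newRow Ts) As Us)).reverse ++ m.N }.toFun⟩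
      (As.length * vCost n M (encRows Ts).length + 1) ∧ r'.res = r.res := by
    intro As
    induction As with
    | nil =>
      intro Us r m hl _ _ hA hU hT hR hRb hTb hc
      have hUs : Us = [] := List.length_eq_zero_iff.1 (by simpa using hl.symm)
      subst hUs
      refine ⟨r, ?_, rfl⟩
      refine Run.cast (Run.loop_false (by simp [hc])) ?_ (by simp)
      cases m
      simp at hA hU
      subst hA
      subst hU
      rfl
    | cons a As ih =>
      intro Us r m hl hAn hUM hA hU hT hR hRb hTb hc
      cases Us with
      | nil => simp at hl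
      | cons u Us =>
        have ha : a.length = n := hAn a (by simp)
        have hu : u.length = M := hUM u (by simp)
        obtain ⟨r1, h1, e1⟩ := run_vBody (M := M) r m a u Ts (encRows As) (encRows Us)
          (by rw [ha, hTl]) hQ hu (by simp [hA]) (by simp [hU]) hT hR hRb hTb
        obtain ⟨r2, h2, e2⟩ := ih Us { r1 with cur := (encRows As).head? } { m with
            A := encRows As
            U := encRows Us
            Ab := (encRow a).reverse ++ m.Ab
            N := (encRow (newRow Ts a u)).reverse ++ m.N } (by simpa using hl)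
            (fun x hx => hAn x (by simp [hx])) (fun x hx => hUM x (by simp [hx])) rfl rfl hT hR
            hRb hTb rfl
        refine ⟨r2, ?_, by rw [e2]; exact e1⟩
        refine Run.cast (Run.loop_true (c := fun r : Reg => r.cur.isSome)
          (by simp only [hc]; exact head_encRows_isSome a As)
          (Run.seq h1 (Run.ops (l := [peekc .A]) (by simp))) h2) ?_ ?_
        · simp [encRow]
        · rw [ha]
          simp only [List.length_cons, vCost]
          ring_nf
          omega
  intro Us r m hl hAn hUM hA hU hT hR hRb hTb
  obtain ⟨r', h1, e1⟩ := key As Us { r with cur := (encRows As).head? } m hl hAn hUM hA hU hT hR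
    hRb hTb rfl
  refine ⟨r', ?_, e1⟩
  refine Run.cast (Run.seq (Run.ops (by simp [hA])) h1) rfl (by omega)

/-! ### One round -/

def round : PR :=
  .seq (eachO .T [pushc .Tb])
    (.seq (eachO .Tb [pushc .T, .push .U (fun r => id (r.cur.getD .sep))])
      (.seq sweep
        (.seq (eachO .Ab [pushc .A]) (.seq (eachO .T []) (eachO .N [pushc .T])))))

/-- One round of arc consistency, on lists. -/
def roundL (As Ts : List (List Bool)) : List (List Bool) := List.zipWith (newRow Ts) As Ts

theorem newRow_length {M : ℕ} (Ts : List (List Bool)) (hQ : ∀ Q ∈ Ts, Q.length = M)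
    (as row : List Bool) (hrow : row.length = M) : (newRow Ts as row).length = M := by
  have := foldRow_length (M := M) as Ts (false :: row) hQ (by simp [hrow])
  simp [newRow, this]

theorem roundL_shape {M n : ℕ} (As Ts : List (List Bool)) (hA : As.length = n)
    (hT : Ts.length = n) (hQ : ∀ Q ∈ Ts, Q.length = M) :
    (roundL As Ts).length = n ∧ ∀ Q ∈ roundL As Ts, Q.length = M := by
  refine ⟨by simp [roundL, hA, hT], ?_⟩
  intro Q hQ'
  simp only [roundL] at hQ'
  rw [List.mem_iff_getElem] at hQ'
  obtain ⟨i, hi, rfl⟩ := hQ'
  rw [List.getElem_zipWith]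
  exact newRow_length Ts hQ _ _ (hQ _ (List.getElem_mem _))

theorem encRows_length {M : ℕ} (Ts : List (List Bool)) (hQ : ∀ Q ∈ Ts, Q.length = M) :
    (encRows Ts).length = Ts.length * (M + 1) := by
  induction Ts with
  | nil => simp
  | cons Q Ts ih =>
    rw [encRows_cons, List.length_append, List.length_cons, ih (fun Q' h => hQ Q' (by simp [h])),
      bits_length, hQ Q (by simp), List.length_cons]
    ring

def roundCost (n M : ℕ) : ℕ :=
  8 * (n * (M + 1)) + 2 * (n * (n + 1)) + n * vCost n M (n * (M + 1)) + 12

theorem run_round {M n : ℕ} (As Ts : List (List Bool)) (r : Reg) (m : Mem)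
    (hAl : As.length = n) (hTl : Ts.length = n) (hAn : ∀ a ∈ As, a.length = n)
    (hQ : ∀ Q ∈ Ts, Q.length = M) (hA : m.A = encRows As) (hT : m.T = encRows Ts)
    (hU : m.U = []) (hR : m.R = []) (hRb : m.Rb = []) (hTb : m.Tb = []) (hAb : m.Ab = [])
    (hN : m.N = []) :
    ∃ r', Run round ⟨r, m.toFun⟩ ⟨r', { m with T := encRows (roundL As Ts) }.toFun⟩
      (roundCost n M) ∧ r'.res = r.res := by
  have h1 := (mvM r m).2.2.2.2.1
  have h2 := run_mv2 .Tb .T .U (by decide) (by decide) (by decide) id { r with cur := none }
    (Mem.toFun { m with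
        T := []
        Tb := m.T.reverse ++ m.Tb })
  simp only [up_Tb, up_T, up_U, tf_Tb, tf_T, tf_U] at h2
  obtain ⟨r3, h3, e3⟩ := run_sweep (M := M) (n := n) Ts hTl hQ As Ts { r with cur := none } { m with
        T := encRows Ts
        U := encRows Ts
        Tb := [] } (by rw [hAl, hTl]) hAn hQ hA rfl rfl hR hRb rfl
  have h4 := (mvM r3 { m with
        T := encRows Ts
        U := []
        Tb := []
        A := []
        Ab := (encRows As).reverse ++ m.Ab
        N := (encRows (List.zipWith (newRow Ts) As Ts)).reverse ++ m.N }).2.2.2.1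
  have h5 := run_clear .T { r3 with cur := none } (Mem.toFun { m with
        T := encRows Ts
        U := []
        Tb := []
        A := encRows As
        Ab := []
        N := (encRows (roundL As Ts)).reverse })
  simp only [up_T, tf_T] at h5
  have h6 := (mvM { r3 with cur := none } { m with
        T := []
        U := []
        Tb := []
        A := encRows As
        Ab := []
        N := (encRows (roundL As Ts)).reverse }).2.2.2.2.2.2.2
  refine ⟨{ r3 with cur := none }, ?_, e3⟩
  refine Run.cast (Run.seq h1 (Run.seq (Run.cast h2 ?_ le_rfl)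
    (Run.seq h3 (Run.seq (Run.cast h4 ?_ le_rfl) (Run.seq h5 h6))))) ?_ ?_
  · simp [hT, hTb, hU]
  · simp [hN, hAb, roundL]
  · simp [hA, hU, hR, hRb, hTb, hAb, hN]
  · have hs := roundL_shape As Ts hAl hTl hQ
    simp only [List.length_append, List.length_reverse, hTb, hT, hAb, List.length_nil,
      encRows_length Ts hQ, encRows_length As hAn, encRows_length _ hs.2, hs.1, hAl, hTl,
      roundCost]
    omega

/-- All rounds. -/
theorem run_rounds {M n : ℕ} (As : List (List Bool)) (hAl : As.length = n)
    (hAn : ∀ a ∈ As, a.length = n) (xs : List Sym) :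
    ∀ (Ts : List (List Bool)) (r : Reg) (m : Mem), Ts.length = n →
      (∀ Q ∈ Ts, Q.length = M) → m.C = xs → m.A = encRows As → m.T = encRows Ts →
      m.U = [] → m.R = [] → m.Rb = [] → m.Tb = [] → m.Ab = [] → m.N = [] →
    ∃ r', Run (each .C round) ⟨r, m.toFun⟩ ⟨r', { m with
        C := []
        T := encRows ((roundL As)^[xs.length] Ts) }.toFun⟩
      (xs.length * (roundCost n M + 2) + 2) := by
  have key : ∀ (xs : List Sym) (Ts : List (List Bool)) (r : Reg) (m : Mem), Ts.length = n →
      (∀ Q ∈ Ts, Q.length = M) → r.cur = xs.head? → m.C = xs.tail → m.A = encRows As →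
      m.T = encRows Ts →
      m.U = [] → m.R = [] → m.Rb = [] → m.Tb = [] → m.Ab = [] → m.N = [] →
    ∃ r', Run (.loop (fun r => r.cur.isSome) (.seq round (.ops [popc .C]))) ⟨r, m.toFun⟩
      ⟨r', { m with
        C := []
        T := encRows ((roundL As)^[xs.length] Ts) }.toFun⟩
      (xs.length * (roundCost n M + 2) + 1) := by
    intro xs
    induction xs with
    | nil =>
      intro Ts r m hTl hQ hc hC hA hT hU hR hRb hTb hAb hN
      refine ⟨r, Run.cast (Run.loop_false (by simp [hc])) ?_ (by simp)⟩
      cases m
      simp at hC hT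
      subst hC
      subst hT
      rfl
    | cons x xs ih =>
      intro Ts r m hTl hQ hc hC hA hT hU hR hRb hTb hAb hN
      obtain ⟨r1, h1, e1⟩ := run_round (M := M) As Ts r m hAl hTl hAn hQ hA hT hU hR hRb hTb hAb hN
      have hs := roundL_shape As Ts hAl hTl hQ
      obtain ⟨r2, h2⟩ := ih (roundL As Ts) { r1 with cur := xs.head? } { m with
          C := xs.tail
          T := encRows (roundL As Ts) } hs.1 hs.2 rfl rfl hA rfl hU hR hRb hTb hAb hN
      refine ⟨r2, ?_⟩
      refine Run.cast (Run.loop_true (c := fun r : Reg => r.cur.isSome) (by simp [hc])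
          (Run.seq h1 (Run.ops (l := [popc .C]) (by simp [hC]))) h2) ?_ ?_
      · simp
      · simp only [List.length_cons]
        ring_nf
        omega
  intro Ts r m hTl hQ hC hA hT hU hR hRb hTb hAb hN
  obtain ⟨r', h1⟩ := key xs Ts { r with cur := xs.head? } { m with C := xs.tail } hTl hQ rfl rfl
    hA hT hU hR hRb hTb hAb hN
  exact ⟨r', Run.cast (Run.seq (Run.ops (by simp [hC])) h1) rfl (by omega)⟩

/-! ### Preprocessing -/

def pre1 : PR :=
  .seq (eachO .I [pushc .J, .push .K (fun r => (fun _ => Sym.sep) (r.cur.getD .sep))])
    (eachO .J [pushc .I])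

theorem run_pre1 (r : Reg) (xs : List Sym) :
    ∃ r', Run pre1 ⟨r, Mem.toFun { I := xs }⟩
      ⟨r', Mem.toFun { I := xs, K := List.replicate xs.length Sym.sep }⟩ (4 * xs.length + 4) := by
  have h1 := run_mv2 .I .J .K (by decide) (by decide) (by decide) (fun _ => Sym.sep) r
    (Mem.toFun { I := xs })
  simp only [up_I, up_J, up_K, tf_I, tf_J, tf_K] at h1
  have h2 := (mvM { r with cur := none }
    { J := xs.reverse, K := List.replicate xs.length Sym.sep }).2.1
  refine ⟨{ r with cur := none }, Run.cast (Run.seq (Run.cast h1 ?_ le_rfl) h2) ?_ ?_⟩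
  · simp
  · simp
  · simp; omega

/-- The cyclic sequence of list bits. -/
def cyc : Bool → Bool → Bool → ℕ → List Bool
  | _, _, _, 0 => []
  | a, b, c, n + 1 => a :: cyc b c a n

theorem cyc_length (n : ℕ) : ∀ a b c, (cyc a b c n).length = n := by
  induction n with
  | zero => intros; rfl
  | succ n ih => intros; simp [cyc, ih]

def kOps : List OP :=
  [.push .Kb (fun _ => .sep), .push .N (fun r => .bit r.l0),
    .load (fun r => { r with l0 := r.l1, l1 := r.l2, l2 := r.l0 })]

theorem run_K (L : ℕ) : ∀ (r : Reg) (m : Mem), m.K = List.replicate L Sym.sep →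
    ∃ r', Run (eachO .K kOps) ⟨r, m.toFun⟩ ⟨r', { m with
      K := []
      Kb := List.replicate L Sym.sep ++ m.Kb
      N := (bits (cyc r.l0 r.l1 r.l2 L)).reverse ++ m.N }.toFun⟩ (2 * L + 2) := by
  have key : ∀ (L : ℕ) (r : Reg) (m : Mem), m.K = (List.replicate L Sym.sep).tail →
    r.cur = (List.replicate L Sym.sep).head? →
    ∃ r', Run (.loop (fun r => r.cur.isSome) (.ops (kOps ++ [popc .K]))) ⟨r, m.toFun⟩
      ⟨r', { m with
      K := []
      Kb := List.replicate L Sym.sep ++ m.Kb
      N := (bits (cyc r.l0 r.l1 r.l2 L)).reverse ++ m.N }.toFun⟩ (2 * L + 1) := by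
    intro L
    induction L with
    | zero =>
      intro r m hK hc
      refine ⟨r, Run.cast (Run.loop_false (by simp [hc])) ?_ (by simp)⟩
      cases m
      simp at hK
      subst hK
      rfl
    | succ L ih =>
      intro r m hK hc
      obtain ⟨r2, h2⟩ := ih { r with
          l0 := r.l1
          l1 := r.l2
          l2 := r.l0
          cur := (List.replicate L Sym.sep).head? } { m with
          K := (List.replicate L Sym.sep).tail
          Kb := .sep :: m.Kb
          N := .bit r.l0 :: m.N } rfl rfl
      refine ⟨r2, ?_⟩
      refine Run.cast (Run.loop_true (c := fun r : Reg => r.cur.isSome)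
          (by simp [hc, List.replicate_succ])
          (Run.ops (l := kOps ++ [popc .K]) (by simp [kOps, hK, List.replicate_succ])) h2) ?_ ?_
      · simp only [cyc, bits_cons, List.reverse_cons, List.append_assoc, List.cons_append,
          List.nil_append]
        congr 3
        rw [List.replicate_succ']
        simp
      · omega
  intro r m hK
  obtain ⟨r', h1⟩ := key L { r with cur := (List.replicate L Sym.sep).head? }
    { m with K := (List.replicate L Sym.sep).tail } rfl rfl
  exact ⟨r', Run.cast (Run.seq (Run.ops (by simp [hK])) h1) rfl (by omega)⟩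

/-- One input row: three list bits, then an adjacency row. -/
abbrev InRow := (Bool × Bool × Bool) × List Bool

def encIn (rows : List InRow) : List Sym :=
  rows.flatMap (fun x => bits [x.1.1, x.1.2.1, x.1.2.2] ++ encRow x.2)

@[simp] theorem encIn_nil : encIn [] = [] := rfl
@[simp] theorem encIn_cons (x : InRow) (rows : List InRow) :
    encIn (x :: rows) = .bit x.1.1 :: .bit x.1.2.1 :: .bit x.1.2.2 ::
      (bits x.2 ++ .sep :: encIn rows) := by
  simp [encIn, encRow]

def preRow : PR :=
  .seq (.ops [.load (fun r => { r with l0 := val r.cur }), popc .I,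
      .load (fun r => { r with l1 := val r.cur }), popc .I,
      .load (fun r => { r with l2 := val r.cur })])
    (.seq (eachO .K kOps)
      (.seq (.ops [.push .N (fun _ => .sep)])
        (.seq (eachO .Kb [pushc .K])
          (.seq (uptoO .I [pushc .Ab]) (.ops [.push .Ab (fun _ => .sep)])))))

def cycRow (L : ℕ) (x : InRow) : List Bool := cyc x.1.1 x.1.2.1 x.1.2.2 L

theorem run_preRow {n L : ℕ} (r : Reg) (m : Mem) (x : InRow) (rest : List Sym)
    (hx : x.2.length = n) (hc : r.cur = some (.bit x.1.1))
    (hI : m.I = .bit x.1.2.1 :: .bit x.1.2.2 :: (bits x.2 ++ .sep :: rest))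
    (hK : m.K = List.replicate L Sym.sep) (hKb : m.Kb = []) :
    ∃ r', Run preRow ⟨r, m.toFun⟩ ⟨r', { m with
      I := rest
      Ab := (encRow x.2).reverse ++ m.Ab
      N := (encRow (cycRow L x)).reverse ++ m.N }.toFun⟩ (4 * L + 2 * n + 9) := by
  obtain ⟨r1, h1⟩ := run_K L { r with
      l0 := x.1.1
      l1 := x.1.2.1
      l2 := x.1.2.2
      cur := some (.bit x.1.2.2) } { m with I := bits x.2 ++ .sep :: rest } hK
  have h2 := (mvM r1 { m with
      I := bits x.2 ++ .sep :: rest
      K := []
      Kb := List.replicate L Sym.sep
      N := (encRow (cycRow L x)).reverse ++ m.N }).2.2.1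
  have h3 := run_uptoMv .I .Ab (by decide) { r1 with cur := none } (Mem.toFun { m with
      I := bits x.2 ++ .sep :: rest
      K := List.replicate L Sym.sep
      Kb := []
      N := (encRow (cycRow L x)).reverse ++ m.N }) x.2 rest rfl
  simp only [up_I, up_Ab, tf_Ab] at h3
  refine ⟨{ r1 with cur := some .sep }, ?_⟩
  refine Run.cast (Run.seq (Run.ops ?_) (Run.seq h1 (Run.seq (Run.ops (s' := ⟨r1, Mem.toFun { m with
      I := bits x.2 ++ .sep :: rest
      K := []
      Kb := List.replicate L Sym.sep
      N := (encRow (cycRow L x)).reverse ++ m.N }⟩) ?_) (Run.seq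
    (Run.cast h2 ?_ le_rfl) (Run.seq h3 (Run.ops rfl)))))) ?_ ?_
  · simp [hI, hc, val]
  · simp [encRow, cycRow, hKb]
  · simp
  · simp [encRow, hK, hKb]
  · simp only [List.length_replicate, hx]
    omega

theorem run_pre2 {n L : ℕ} (rows : List InRow) : ∀ (r : Reg) (m : Mem),
    (∀ x ∈ rows, x.2.length = n) → m.I = encIn rows → m.K = List.replicate L Sym.sep →
    m.Kb = [] →
    ∃ r', Run (each .I preRow) ⟨r, m.toFun⟩ ⟨r', { m with
      I := []
      Ab := (encRows (rows.map (fun x : InRow => x.2))).reverse ++ m.Ab
      N := (encRows (rows.map (cycRow L))).reverse ++ m.N }.toFun⟩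
      (rows.length * (4 * L + 2 * n + 11) + 2) := by
  have key : ∀ (rows : List InRow) (r : Reg) (m : Mem),
    (∀ x ∈ rows, x.2.length = n) → r.cur = (encIn rows).head? → m.I = (encIn rows).tail →
    m.K = List.replicate L Sym.sep → m.Kb = [] →
    ∃ r', Run (.loop (fun r => r.cur.isSome) (.seq preRow (.ops [popc .I]))) ⟨r, m.toFun⟩
      ⟨r', { m with
      I := []
      Ab := (encRows (rows.map (fun x : InRow => x.2))).reverse ++ m.Ab
      N := (encRows (rows.map (cycRow L))).reverse ++ m.N }.toFun⟩
      (rows.length * (4 * L + 2 * n + 11) + 1) := by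
    intro rows
    induction rows with
    | nil =>
      intro r m hn hc hI hK hKb
      refine ⟨r, Run.cast (Run.loop_false (by simp [hc])) ?_ (by simp)⟩
      cases m
      simp at hI
      subst hI
      rfl
    | cons x rows ih =>
      intro r m hn hc hI hK hKb
      obtain ⟨r1, h1⟩ := run_preRow (n := n) (L := L) r m x (encIn rows) (hn x (by simp))
        (by simpa using hc) (by simpa using hI) hK hKb
      obtain ⟨r2, h2⟩ := ih { r1 with cur := (encIn rows).head? } { m with
        I := (encIn rows).tail
        Ab := (encRow x.2).reverse ++ m.Ab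
        N := (encRow (cycRow L x)).reverse ++ m.N } (fun y hy => hn y (by simp [hy])) rfl rfl hK
        hKb
      refine ⟨r2, ?_⟩
      refine Run.cast (Run.loop_true (c := fun r : Reg => r.cur.isSome) (by simp [hc])
          (Run.seq h1 (Run.ops (l := [popc .I]) (by simp))) h2) ?_ ?_
      · simp [encRow]
      · simp only [List.length_cons]
        ring_nf
        omega
  intro r m hn hI hK hKb
  obtain ⟨r', h1⟩ := key rows { r with cur := (encIn rows).head? } { m with
    I := (encIn rows).tail } hn rfl rfl hK hKb
  exact ⟨r', Run.cast (Run.seq (Run.ops (by simp [hI])) h1) rfl (by omega)⟩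

def pre3 : PR :=
  .seq (eachO .N [pushc .T, .push .C (fun r => id (r.cur.getD .sep))])
    (.seq (eachO .Ab [pushc .A]) (eachO .K []))

theorem run_pre3 (r : Reg) (xs ys zs : List Sym) :
    ∃ r', Run pre3 ⟨r, Mem.toFun { N := xs.reverse, Ab := ys.reverse, K := zs }⟩
      ⟨r', Mem.toFun { T := xs, C := xs, A := ys }⟩
      (2 * xs.length + 2 * ys.length + 2 * zs.length + 6) := by
  have h1 := run_mv2 .N .T .C (by decide) (by decide) (by decide) id r
    (Mem.toFun { N := xs.reverse, Ab := ys.reverse, K := zs })
  simp only [up_N, up_T, up_C, tf_N, tf_T, tf_C] at h1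
  have h2 := (mvM { r with cur := none } { T := xs, C := xs, Ab := ys.reverse, K := zs }).2.2.2.1
  have h3 := run_clear .K { r with cur := none } (Mem.toFun { T := xs, C := xs, A := ys, K := zs })
  simp only [up_K, tf_K] at h3
  refine ⟨{ r with cur := none }, ?_⟩
  refine Run.cast (Run.seq (Run.cast h1 ?_ le_rfl) (Run.seq (Run.cast h2 ?_ le_rfl) h3)) rfl ?_
  · simp
  · simp
  · simp only [List.length_reverse]
    omega

/-! ### Final check -/

def chkOps : List OP :=
  [.load (fun r => if r.cur = some .sep then { r with res := r.res && r.any, any := false }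
    else { r with any := r.any || val r.cur })]

def check : PR :=
  .seq (.ops [.load (fun r => { r with any := false, res := true })]) (eachO .T chkOps)

theorem run_chkRow (row : List Bool) : ∀ (r : Reg) (m : Mem) (rest : List Sym),
    r.cur = (bits row ++ Sym.sep :: rest).head? → m.T = (bits row ++ Sym.sep :: rest).tail →
    ∀ (s' : ST) (T : ℕ),
    Run (.loop (fun r => r.cur.isSome) (.ops (chkOps ++ [popc .T])))
      ⟨{ r with cur := rest.head?, any := false, res := r.res && (r.any || row.any id) },
        { m with T := rest.tail }.toFun⟩ s' T →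
    Run (.loop (fun r => r.cur.isSome) (.ops (chkOps ++ [popc .T])))
      ⟨r, m.toFun⟩ s' (2 * row.length + 2 + T) := by
  induction row with
  | nil =>
    intro r m rest hc hT s' T h
    refine Run.cast (Run.loop_true (c := fun r : Reg => r.cur.isSome) (by simp [hc])
      (Run.ops (l := chkOps ++ [popc .T]) ?_) h) rfl ?_
    · simp at hT hc
      simp [chkOps, hc, hT]
    · simp
  | cons b row ih =>
    intro r m rest hc hT s' T h
    have h2 := ih { r with
      cur := (bits row ++ Sym.sep :: rest).head?
      any := r.any || b } { m with T := (bits row ++ Sym.sep :: rest).tail } rest rfl rfl s' T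
      (by simpa [Bool.or_assoc] using h)
    refine Run.cast (Run.loop_true (c := fun r : Reg => r.cur.isSome) (by simp [hc])
      (Run.ops (l := chkOps ++ [popc .T]) ?_) h2) rfl ?_
    · simp at hT hc
      simp [chkOps, hc, hT, val]
    · simp only [List.length_cons]; omega

theorem run_chkRows (Ts : List (List Bool)) : ∀ (r : Reg) (m : Mem),
    r.cur = (encRows Ts).head? → m.T = (encRows Ts).tail → r.any = false →
    ∃ r', Run (.loop (fun r => r.cur.isSome) (.ops (chkOps ++ [popc .T])))
      ⟨r, m.toFun⟩ ⟨r', { m with T := [] }.toFun⟩ (2 * (encRows Ts).length + 1) ∧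
      r'.res = (r.res && Ts.all (fun row => row.any id)) := by
  induction Ts with
  | nil =>
    intro r m hc hT _
    refine ⟨r, Run.cast (Run.loop_false (by simp [hc])) ?_ (by simp), by simp⟩
    cases m
    simp at hT
    subst hT
    rfl
  | cons row Ts ih =>
    intro r m hc hT ha
    obtain ⟨r', h1, h2⟩ := ih { r with
      cur := (encRows Ts).head?
      any := false
      res := r.res && (r.any || row.any id) } { m with T := (encRows Ts).tail } rfl rfl rfl
    refine ⟨r', ?_, ?_⟩
    · refine Run.cast (run_chkRow row r m (encRows Ts) (by simpa using hc) (by simpa using hT)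
        _ _ h1) rfl ?_
      simp only [encRows_cons, List.length_append, List.length_cons, bits_length]
      omega
    · rw [h2]
      simp [ha, Bool.and_assoc]

theorem run_check (r : Reg) (m : Mem) (Ts : List (List Bool)) (hT : m.T = encRows Ts) :
    ∃ r', Run check ⟨r, m.toFun⟩ ⟨r', { m with T := [] }.toFun⟩ (2 * (encRows Ts).length + 3) ∧
      r'.res = Ts.all (fun row => row.any id) := by
  obtain ⟨r', h1, h2⟩ := run_chkRows Ts { r with
    any := false
    res := true
    cur := (encRows Ts).head? } { m with T := (encRows Ts).tail } rfl rfl rfl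
  refine ⟨r', ?_, by simpa using h2⟩
  refine Run.cast (Run.seq (Run.ops rfl) (Run.seq (Run.ops ?_) h1)) rfl ?_
  · simp [hT]
  · omega

/-- Initial register contents. -/
def r0 : Reg := ⟨none, false, false, false, false, false, false, false, false⟩

def final : PR :=
  .seq (eachO .A []) (.ops [.push .O (fun r => .bit r.res), .load (fun _ => r0)])

theorem run_final (r : Reg) (xs : List Sym) :
    Run final ⟨r, Mem.toFun { A := xs }⟩ ⟨r0, Mem.toFun { O := [.bit r.res] }⟩
      (2 * xs.length + 3) := by
  have h1 := run_clear .A r (Mem.toFun { A := xs })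
  simp only [up_A, tf_A] at h1
  refine Run.cast (Run.seq h1 (Run.ops rfl)) ?_ ?_
  · simp
  · omega

/-- The complete program. -/
def prog : PR :=
  .seq pre1 (.seq (each .I preRow) (.seq pre3 (.seq (each .C round) (.seq check final))))

/-- The Boolean computed by the program. -/
def result (rows : List InRow) : Bool :=
  let L := (encIn rows).length
  let T0 := rows.map (cycRow L)
  ((roundL (rows.map (fun x : InRow => x.2)))^[(encRows T0).length] T0).all (fun row => row.any id)

theorem iter_shape {M n : ℕ} (As : List (List Bool)) (hA : As.length = n) (k : ℕ) :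
    ∀ (Ts : List (List Bool)), Ts.length = n → (∀ Q ∈ Ts, Q.length = M) →
    ((roundL As)^[k] Ts).length = n ∧ ∀ Q ∈ (roundL As)^[k] Ts, Q.length = M := by
  induction k with
  | zero => intro Ts h1 h2; exact ⟨h1, h2⟩
  | succ k ih =>
    intro Ts h1 h2
    have hs := roundL_shape As Ts hA h1 h2
    exact ih _ hs.1 hs.2

theorem encIn_length {n : ℕ} (rows : List InRow) (h : ∀ x ∈ rows, x.2.length = n) :
    (encIn rows).length = rows.length * (n + 4) := by
  induction rows with
  | nil => simp
  | cons x rows ih =>
    rw [encIn_cons]
    simp only [List.length_cons, List.length_append, bits_length, h x (by simp)]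
    rw [ih (fun y hy => h y (by simp [hy]))]
    ring

def totalCost (n L : ℕ) : ℕ :=
  (4 * L + 4) + (n * (4 * L + 2 * n + 11) + 2) +
    (2 * (n * (L + 1)) + 2 * (n * (n + 1)) + 2 * L + 6) +
    (n * (L + 1) * (roundCost n L + 2) + 2) + (2 * (n * (L + 1)) + 3) + (2 * (n * (n + 1)) + 3)

theorem run_prog {n : ℕ} (rows : List InRow) (hn : rows.length = n)
    (h : ∀ x ∈ rows, x.2.length = n) :
    Run prog ⟨r0, Mem.toFun { I := encIn rows }⟩
      ⟨r0, Mem.toFun { O := [.bit (result rows)] }⟩ (totalCost n (encIn rows).length) := by
  set L := (encIn rows).length with hL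
  set T0 := rows.map (cycRow L) with hT0
  set As := rows.map (fun x : InRow => x.2) with hAs
  have hAl : As.length = n := by simp [hAs, hn]
  have hTl : T0.length = n := by simp [hT0, hn]
  have hAn : ∀ a ∈ As, a.length = n := by
    intro a ha
    simp only [hAs, List.mem_map] at ha
    obtain ⟨x, hx, rfl⟩ := ha
    exact h x hx
  have hTn : ∀ a ∈ T0, a.length = L := by
    intro a ha
    simp only [hT0, List.mem_map] at ha
    obtain ⟨x, hx, rfl⟩ := ha
    exact cyc_length _ _ _ _
  obtain ⟨r1, h1⟩ := run_pre1 r0 (encIn rows)
  obtain ⟨r2, h2⟩ := run_pre2 (n := n) (L := L) rows r1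
    { I := encIn rows, K := List.replicate L Sym.sep } h rfl rfl rfl
  obtain ⟨r3, h3⟩ := run_pre3 r2 (encRows T0) (encRows As) (List.replicate L Sym.sep)
  obtain ⟨r4, h4⟩ := run_rounds (M := L) As hAl hAn (encRows T0) T0 r3
    { T := encRows T0, C := encRows T0, A := encRows As } hTl hTn rfl rfl rfl rfl rfl rfl rfl
    rfl rfl
  obtain ⟨r5, h5, e5⟩ := run_check r4
    { T := encRows ((roundL As)^[(encRows T0).length] T0), A := encRows As } _ rfl
  have h6 := run_final r5 (encRows As)
  have hres : result rows = r5.res := by
    rw [e5]; rfl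
  rw [hres]
  refine Run.cast (Run.seq h1 (Run.seq (Run.cast h2 ?_ le_rfl) (Run.seq h3 (Run.seq
    (Run.cast h4 ?_ le_rfl) (Run.seq h5 h6))))) rfl ?_
  · simp [hAs, hT0]
  · rfl
  · have hs := iter_shape As hAl (encRows T0).length T0 hTl hTn
    simp only [List.length_replicate, encRows_length As hAn, encRows_length T0 hTn,
      hAl, hTl, hn, totalCost]
    rw [encRows_length _ (by
      have := hs.2
      rw [encRows_length T0 hTn, hTl] at this
      exact this)]
    have := hs.1
    rw [encRows_length T0 hTn, hTl] at this
    rw [this]
    omega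

end Pool.Agent.Helper99.CBM
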