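import Mathlib
import Pool.Agent.Helper99.CBCore
import Pool.Agent.Helper99.CBMachine

namespace Pool.Agent.Helper99.CBM

open Pool.Agent.Helper99.CB Pool.Agent.Helper99.SL

theorem stream_getD (a : Bool) (Q : List Bool) : ∀ (p c : Bool) (R : List Bool),
    R.length = Q.length + 1 → ∀ j, (stream a p c R Q).getD j false =
      (R.getD j false && (!a || (p :: c :: Q).getD j false || (p :: c :: Q).getD (j + 2) false)) := by
  induction Q with
  | nil =>
    intro p c R h j
    obtain ⟨x, rfl⟩ : ∃ x, R = [x] := List.length_eq_one_iff.1 (by simpa using h)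
    cases j with
    | zero => simp [stream]
    | succ j => simp [stream]
  | cons q Q ih =>
    intro p c R h j
    cases R with
    | nil => simp at h
    | cons x R' =>
      cases j with
      | zero => simp [stream]
      | succ j =>
        have := ih c q R' (by simpa using h) j
        simp only [stream, List.getD_cons_succ]
        rw [this]
        simp

theorem foldRow_getD {M : ℕ} (as : List Bool) : ∀ (Qs : List (List Bool)) (R : List Bool),
    as.length = Qs.length → (∀ Q ∈ Qs, Q.length = M) → R.length = M + 1 → ∀ j,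
    ((foldRow as Qs R).getD j false = true ↔ R.getD j false = true ∧
      ∀ i < as.length, as.getD i false = true →
        ((false :: false :: Qs.getD i []).getD j false = true ∨
          (false :: false :: Qs.getD i []).getD (j + 2) false = true)) := by
  induction as with
  | nil =>
    intro Qs R h1 h2 h3 j
    simp [foldRow]
  | cons a as ih =>
    intro Qs R h1 h2 h3 j
    cases Qs with
    | nil => simp at h1
    | cons Q Qs =>
      have hQM := h2 Q (by simp)
      rw [foldRow_cons, ih Qs _ (by simpa using h1) (fun Q' h' => h2 Q' (by simp [h']))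
        (by rw [stream_length _ _ _ _ _ (by rw [h3, hQM]), hQM]) j,
        stream_getD _ _ _ _ _ (by rw [h3, hQM])]
      constructor
      · rintro ⟨h4, h5⟩
        simp only [Bool.and_eq_true, Bool.or_eq_true, Bool.not_eq_true'] at h4
        refine ⟨h4.1, ?_⟩
        intro i hi ha
        cases i with
        | zero =>
          simp only [List.getD_cons_zero] at ha ⊢
          rcases h4.2 with (h | h) | h
          · rw [ha] at h; exact absurd h (by simp)
          · exact Or.inl h
          · exact Or.inr h
        | succ i =>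
          simp only [List.getD_cons_succ] at ha ⊢
          exact h5 i (by simpa using hi) ha
      · rintro ⟨h4, h5⟩
        refine ⟨?_, ?_⟩
        · simp only [Bool.and_eq_true, Bool.or_eq_true, Bool.not_eq_true']
          refine ⟨h4, ?_⟩
          cases a with
          | false => simp
          | true =>
            have := h5 0 (by simp) (by simp)
            simp only [List.getD_cons_zero] at this
            rcases this with h | h
            · exact Or.inl (Or.inr h)
            · exact Or.inr h
        · intro i hi ha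
          have := h5 (i + 1) (by simpa using hi) (by simpa using ha)
          simpa using this

theorem getD_tail' (l : List Bool) (j : ℕ) : l.tail.getD j false = l.getD (j + 1) false := by
  cases l <;> simp

/-- The truth table of a list of rows. -/
def tab (Ts : List (List Bool)) (v j : ℕ) : Prop := (Ts.getD v []).getD j false = true

theorem newRow_getD {M : ℕ} (Ts : List (List Bool)) (as row : List Bool)
    (h1 : as.length = Ts.length) (h2 : ∀ Q ∈ Ts, Q.length = M) (h3 : row.length = M) (j : ℕ) :
    (newRow Ts as row).getD j false = true ↔ row.getD j false = true ∧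
      ∀ i < as.length, as.getD i false = true →
        ((1 ≤ j ∧ tab Ts i (j - 1)) ∨ tab Ts i (j + 1)) := by
  unfold newRow
  rw [getD_tail', foldRow_getD (M := M) as Ts _ h1 h2 (by simp [h3])]
  simp only [List.getD_cons_succ]
  refine and_congr Iff.rfl (forall_congr' fun i => forall_congr' fun hi => forall_congr' fun ha => ?_)
  cases j with
  | zero => simp [tab]
  | succ j => simp [tab]

theorem roundL_tab {M n : ℕ} (As Ts : List (List Bool)) (hA : As.length = n)
    (hT : Ts.length = n) (hAn : ∀ a ∈ As, a.length = n) (hQ : ∀ Q ∈ Ts, Q.length = M)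
    (v j : ℕ) :
    tab (roundL As Ts) v j ↔ tab Ts v j ∧ ∀ u < n, tab As v u →
        ((1 ≤ j ∧ tab Ts u (j - 1)) ∨ tab Ts u (j + 1)) := by
  by_cases hv : v < n
  · have e1 : (roundL As Ts).getD v [] = newRow Ts (As.getD v []) (Ts.getD v []) := by
      rw [List.getD_eq_getElem _ _ (by simp [roundL, hA, hT, hv]),
        List.getD_eq_getElem _ _ (by rw [hA]; exact hv),
        List.getD_eq_getElem _ _ (by rw [hT]; exact hv)]
      simp only [roundL, List.getElem_zipWith]
    unfold tab at *
    rw [e1]
    have hv' : v < As.length := by rw [hA]; exact hv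
    have hv2 : v < Ts.length := by rw [hT]; exact hv
    have l1 : (As.getD v []).length = n := by
      rw [List.getD_eq_getElem _ _ hv']; exact hAn _ (List.getElem_mem _)
    have l2 : (Ts.getD v []).length = M := by
      rw [List.getD_eq_getElem _ _ hv2]; exact hQ _ (List.getElem_mem _)
    rw [newRow_getD (M := M) Ts _ _ (by rw [l1, hT]) hQ l2 j, l1]
    rfl
  · have e1 : (roundL As Ts).getD v [] = [] := by
      rw [List.getD_eq_default]
      simp [roundL, hA, hT]; omega
    have e2 : Ts.getD v [] = [] := by
      rw [List.getD_eq_default]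
      omega
    unfold tab
    rw [e1, e2]
    simp

/-- One round of arc consistency on finite sets of pairs (vertex, value). -/
def stepF (A : ℕ → ℕ → Prop) (n : ℕ) (S : Finset (ℕ × ℕ)) : Set (ℕ × ℕ) :=
  {p | p ∈ S ∧ ∀ u < n, A p.1 u → ((1 ≤ p.2 ∧ (u, p.2 - 1) ∈ S) ∨ (u, p.2 + 1) ∈ S)}

open Classical in
noncomputable def setOf' (Ts : List (List Bool)) (n M : ℕ) : Finset (ℕ × ℕ) :=
  ((Finset.range n) ×ˢ (Finset.range M)).filter (fun p => tab Ts p.1 p.2)

theorem tab_lt {M n : ℕ} (Ts : List (List Bool)) (hT : Ts.length = n)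
    (hQ : ∀ Q ∈ Ts, Q.length = M) (v j : ℕ) (h : tab Ts v j) : v < n ∧ j < M := by
  unfold tab at h
  by_contra hcon
  by_cases hv : v < n
  · have hv2 : v < Ts.length := by rw [hT]; exact hv
    have l2 : (Ts.getD v []).length = M := by
      rw [List.getD_eq_getElem _ _ hv2]; exact hQ _ (List.getElem_mem _)
    rw [List.getD_eq_default] at h
    · exact absurd h (by simp)
    · rw [l2]; omega
  · have e2 : Ts.getD v [] = [] := by
      rw [List.getD_eq_default]
      omega
    rw [e2] at h
    simp at h

theorem mem_setOf' {M n : ℕ} (Ts : List (List Bool)) (hT : Ts.length = n)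
    (hQ : ∀ Q ∈ Ts, Q.length = M) (p : ℕ × ℕ) : p ∈ setOf' Ts n M ↔ tab Ts p.1 p.2 := by
  classical
  unfold setOf'
  simp only [Finset.mem_filter, Finset.mem_product, Finset.mem_range]
  constructor
  · exact fun h => h.2
  · exact fun h => ⟨tab_lt Ts hT hQ _ _ h, h⟩

/-- After as many rounds as there are entries, the table is arc consistent. -/
theorem iter_closed {M n : ℕ} (As : List (List Bool)) (hA : As.length = n)
    (hAn : ∀ a ∈ As, a.length = n) (k : ℕ) :
    ∀ (Ts : List (List Bool)), Ts.length = n → (∀ Q ∈ Ts, Q.length = M) →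
      (setOf' Ts n M).card ≤ k → ∀ v j, tab ((roundL As)^[k] Ts) v j →
        ∀ u < n, tab As v u →
        ((1 ≤ j ∧ tab ((roundL As)^[k] Ts) u (j - 1)) ∨ tab ((roundL As)^[k] Ts) u (j + 1)) := by
  classical
  induction k with
  | zero =>
    intro Ts hT hQ hc v j hvj
    exfalso
    have : setOf' Ts n M = ∅ := by
      rw [← Finset.card_eq_zero]; omega
    have h2 := (mem_setOf' Ts hT hQ (v, j)).2 hvj
    rw [this] at h2
    simp at h2
  | succ k ih =>
    intro Ts hT hQ hc
    have hs := roundL_shape As Ts hA hT hQ
    rw [Function.iterate_succ_apply]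
    have hsub : setOf' (roundL As Ts) n M ⊆ setOf' Ts n M := by
      intro p hp
      rw [mem_setOf' _ hs.1 hs.2] at hp
      rw [mem_setOf' _ hT hQ]
      exact ((roundL_tab (M := M) As Ts hA hT hAn hQ _ _).1 hp).1
    by_cases heq : setOf' (roundL As Ts) n M = setOf' Ts n M
    · -- fixpoint: all later tables coincide
      have htab : ∀ v j, tab (roundL As Ts) v j ↔ tab Ts v j := by
        intro v j
        rw [← mem_setOf' _ hs.1 hs.2 (v, j), ← mem_setOf' _ hT hQ (v, j), heq]
      have hstab : ∀ m, ∀ (Us : List (List Bool)), Us.length = n → (∀ Q ∈ Us, Q.length = M) →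
          (∀ v j, tab Us v j ↔ tab Ts v j) →
          ∀ v j, tab ((roundL As)^[m] Us) v j ↔ tab Ts v j := by
        intro m
        induction m with
        | zero => intro Us _ _ h; exact h
        | succ m ihm =>
          intro Us hU1 hU2 h v j
          rw [Function.iterate_succ_apply]
          have hs' := roundL_shape As Us hA hU1 hU2
          apply ihm _ hs'.1 hs'.2
          intro v j
          rw [roundL_tab (M := M) As Us hA hU1 hAn hU2, ← htab v j,
            roundL_tab (M := M) As Ts hA hT hAn hQ]
          simp only [h]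
      intro v j hvj u hu hadj
      have h1 := hstab k _ hs.1 hs.2 htab
      rw [h1] at hvj
      simp only [h1]
      rw [← htab] at hvj
      exact ((roundL_tab (M := M) As Ts hA hT hAn hQ _ _).1 hvj).2 u hu hadj
    · have hlt : (setOf' (roundL As Ts) n M).card < (setOf' Ts n M).card :=
        Finset.card_lt_card (Finset.ssubset_iff_subset_ne.2 ⟨hsub, heq⟩)
      exact ih _ hs.1 hs.2 (by omega)

theorem setOf'_card_le (Ts : List (List Bool)) (n M : ℕ) : (setOf' Ts n M).card ≤ n * M := by
  classical
  unfold setOf'
  refine (Finset.card_filter_le _ _).trans ?_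
  simp

/-- A height function contained in the table survives. -/
theorem iter_mono {M n : ℕ} (As : List (List Bool)) (hA : As.length = n)
    (hAn : ∀ a ∈ As, a.length = n) (h : ℕ → ℕ)
    (hh : ∀ v < n, ∀ u < n, tab As v u → h u = h v + 1 ∨ h v = h u + 1) (k : ℕ) :
    ∀ (Ts : List (List Bool)), Ts.length = n → (∀ Q ∈ Ts, Q.length = M) →
      (∀ v < n, tab Ts v (h v)) → ∀ v < n, tab ((roundL As)^[k] Ts) v (h v) := by
  induction k with
  | zero => intro Ts _ _ h2; exact h2
  | succ k ih =>
    intro Ts hT hQ h2
    rw [Function.iterate_succ_apply]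
    have hs := roundL_shape As Ts hA hT hQ
    apply ih _ hs.1 hs.2
    intro v hv
    rw [roundL_tab (M := M) As Ts hA hT hAn hQ]
    refine ⟨h2 v hv, ?_⟩
    intro u hu hadj
    rcases hh v hv u hu hadj with h3 | h3
    · right; rw [← h3]; exact h2 u hu
    · left
      refine ⟨by omega, ?_⟩
      rw [h3]
      exact h2 u hu

theorem cyc_getD (n : ℕ) : ∀ (a b c : Bool) (j : ℕ), (cyc a b c n).getD j false = true ↔
    j < n ∧ ((j % 3 = 0 ∧ a = true) ∨ (j % 3 = 1 ∧ b = true) ∨ (j % 3 = 2 ∧ c = true)) := by
  induction n with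
  | zero => intros; simp [cyc]
  | succ n ih =>
    intro a b c j
    cases j with
    | zero => simp [cyc]
    | succ j =>
      simp only [cyc, List.getD_cons_succ]
      rw [ih]
      constructor
      · rintro ⟨h1, h2⟩
        refine ⟨by omega, ?_⟩
        rcases h2 with ⟨h2, h3⟩ | ⟨h2, h3⟩ | ⟨h2, h3⟩
        · right; left; exact ⟨by omega, h3⟩
        · right; right; exact ⟨by omega, h3⟩
        · left; exact ⟨by omega, h3⟩
      · rintro ⟨h1, h2⟩
        refine ⟨by omega, ?_⟩
        rcases h2 with ⟨h2, h3⟩ | ⟨h2, h3⟩ | ⟨h2, h3⟩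
        · right; right; exact ⟨by omega, h3⟩
        · left; exact ⟨by omega, h3⟩
        · right; left; exact ⟨by omega, h3⟩

theorem iter_le {M n : ℕ} (As : List (List Bool)) (hA : As.length = n)
    (hAn : ∀ a ∈ As, a.length = n) (k : ℕ) :
    ∀ (Ts : List (List Bool)), Ts.length = n → (∀ Q ∈ Ts, Q.length = M) →
      ∀ v j, tab ((roundL As)^[k] Ts) v j → tab Ts v j := by
  induction k with
  | zero => intro Ts _ _ v j h; exact h
  | succ k ih =>
    intro Ts hT hQ v j h
    rw [Function.iterate_succ_apply] at h
    have hs := roundL_shape As Ts hA hT hQ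
    exact ((roundL_tab (M := M) As Ts hA hT hAn hQ _ _).1 (ih _ hs.1 hs.2 v j h)).1

theorem all_any_iff {n : ℕ} (Ts : List (List Bool)) (hT : Ts.length = n) :
    Ts.all (fun row => row.any id) = true ↔ ∀ v < n, ∃ j, tab Ts v j := by
  rw [List.all_eq_true]
  constructor
  · intro h v hv
    have hv' : v < Ts.length := by rw [hT]; exact hv
    have h1 := h (Ts[v]) (List.getElem_mem _)
    rw [List.any_eq_true] at h1
    obtain ⟨b, hb, hb'⟩ := h1
    obtain ⟨j, hj, rfl⟩ := List.mem_iff_getElem.1 hb
    refine ⟨j, ?_⟩
    unfold tab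
    rw [List.getD_eq_getElem _ _ hv', List.getD_eq_getElem _ _ hj]
    exact hb'
  · intro h row hrow
    obtain ⟨v, hv, rfl⟩ := List.mem_iff_getElem.1 hrow
    obtain ⟨j, hj⟩ := h v (by rw [← hT]; exact hv)
    unfold tab at hj
    rw [List.getD_eq_getElem _ _ hv] at hj
    rw [List.any_eq_true]
    by_cases hj' : j < (Ts[v]).length
    · rw [List.getD_eq_getElem _ _ hj'] at hj
      exact ⟨_, List.getElem_mem _, hj⟩
    · rw [List.getD_eq_default] at hj
      · exact absurd hj (by simp)
      · omega

open Classical in
/-- The rows of the input describing an instance. -/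
noncomputable def rowsOf (I : Instance) : List InRow :=
  (List.finRange I.n).map (fun v => ((decide (0 ∈ I.L v), decide (1 ∈ I.L v),
    decide (2 ∈ I.L v)), (List.finRange I.n).map (fun u => decide (I.G.Adj v u))))

theorem encode_eq (I : Instance) : I.encode = encIn (rowsOf I) := by
  unfold Instance.encode encIn rowsOf
  rw [List.flatMap_map]
  congr 1
  funext v
  simp [bits, encRow, Function.comp_def]

theorem rowsOf_length (I : Instance) : (rowsOf I).length = I.n := by simp [rowsOf]

theorem rowsOf_row (I : Instance) : ∀ x ∈ rowsOf I, x.2.length = I.n := by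
  intro x hx
  simp only [rowsOf, List.mem_map] at hx
  obtain ⟨v, _, rfl⟩ := hx
  simp

theorem tab_adj (I : Instance) (v u : ℕ) : tab ((rowsOf I).map (fun x : InRow => x.2)) v u ↔
    ∃ (hv : v < I.n) (hu : u < I.n), I.G.Adj ⟨v, hv⟩ ⟨u, hu⟩ := by
  classical
  unfold tab
  by_cases hv : v < I.n
  · have e : ((rowsOf I).map (fun x : InRow => x.2)).getD v [] =
        (List.finRange I.n).map (fun u => decide (I.G.Adj ⟨v, hv⟩ u)) := by
      rw [List.getD_eq_getElem _ _ (by simp [rowsOf, hv])]
      simp [rowsOf]
    rw [e]
    by_cases hu : u < I.n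
    · rw [List.getD_eq_getElem _ _ (by simp [hu])]
      simp [hv, hu]
    · rw [List.getD_eq_default _ _ (by simp; omega)]
      simp [hu]
  · have e : ((rowsOf I).map (fun x : InRow => x.2)).getD v [] = [] := by
      rw [List.getD_eq_default _ _ (by simp [rowsOf]; omega)]
    rw [e]
    simp [hv]

theorem tab_cyc (I : Instance) (L v j : ℕ) : tab ((rowsOf I).map (cycRow L)) v j ↔
    ∃ (hv : v < I.n), j < L ∧ (⟨j % 3, Nat.mod_lt _ (by norm_num)⟩ : Fin 3) ∈ I.L ⟨v, hv⟩ := by
  classical
  unfold tab
  by_cases hv : v < I.n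
  · have e : ((rowsOf I).map (cycRow L)).getD v [] = cyc (decide (0 ∈ I.L ⟨v, hv⟩))
        (decide (1 ∈ I.L ⟨v, hv⟩)) (decide (2 ∈ I.L ⟨v, hv⟩)) L := by
      rw [List.getD_eq_getElem _ _ (by simp [rowsOf, hv])]
      simp [rowsOf, cycRow]
    rw [e, cyc_getD]
    simp only [decide_eq_true_eq, hv, exists_true_left]
    refine and_congr Iff.rfl ?_
    have h3 : j % 3 = 0 ∨ j % 3 = 1 ∨ j % 3 = 2 := by omega
    rcases h3 with h | h | h
    · have e : (⟨j % 3, Nat.mod_lt _ (by norm_num)⟩ : Fin 3) = 0 := Fin.ext h
      rw [e, h]; simp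
    · have e : (⟨j % 3, Nat.mod_lt _ (by norm_num)⟩ : Fin 3) = 1 := Fin.ext h
      rw [e, h]; simp
    · have e : (⟨j % 3, Nat.mod_lt _ (by norm_num)⟩ : Fin 3) = 2 := Fin.ext h
      rw [e, h]; simp
  · have e : ((rowsOf I).map (cycRow L)).getD v [] = [] := by
      rw [List.getD_eq_default _ _ (by simp [rowsOf]; omega)]
    rw [e]
    simp [hv]

/-- Correctness of the decision procedure on chordal bipartite graphs. -/
theorem result_correct (I : Instance) (hG : IsChordalBipartite I.G) :
    result (rowsOf I) = true ↔ I.ListColorable := by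
  set L := (encIn (rowsOf I)).length with hL
  set As := (rowsOf I).map (fun x : InRow => x.2) with hAs
  set T0 := (rowsOf I).map (cycRow L) with hT0
  have hAl : As.length = I.n := by simp [hAs, rowsOf_length]
  have hTl : T0.length = I.n := by simp [hT0, rowsOf_length]
  have hAn : ∀ a ∈ As, a.length = I.n := by
    intro a ha
    simp only [hAs, List.mem_map] at ha
    obtain ⟨x, hx, rfl⟩ := ha
    exact rowsOf_row I x hx
  have hTn : ∀ a ∈ T0, a.length = L := by
    intro a ha
    simp only [hT0, List.mem_map] at ha
    obtain ⟨x, hx, rfl⟩ := ha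
    exact cyc_length _ _ _ _
  have hLn : L = I.n * (I.n + 4) := by
    rw [hL, encIn_length (rowsOf I) (rowsOf_row I), rowsOf_length]
  have hK : (encRows T0).length = I.n * (L + 1) := by
    rw [encRows_length T0 hTn, hTl]
  have hres : result (rowsOf I) =
      ((roundL As)^[(encRows T0).length] T0).all (fun row => row.any id) := rfl
  have hsh := iter_shape As hAl (encRows T0).length T0 hTl hTn
  rw [hres, all_any_iff _ hsh.1]
  have hclosed := iter_closed As hAl hAn (encRows T0).length T0 hTl hTn
    ((setOf'_card_le T0 I.n L).trans (by rw [hK]; nlinarith))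
  have hle := iter_le As hAl hAn (encRows T0).length T0 hTl hTn
  constructor
  · intro hne
    obtain ⟨h, h1, h2⟩ := solution_of_closed (V := Fin I.n) hG.1
      (fun v j => tab ((roundL As)^[(encRows T0).length] T0) v.val j)
      (fun v j hvj u huv => hclosed v.val j hvj u.val u.isLt
        ((tab_adj I v.val u.val).2 ⟨v.isLt, u.isLt, huv⟩))
      (fun v => hne v.val v.isLt)
    refine ⟨fun v => ⟨h v % 3, Nat.mod_lt _ (by norm_num)⟩, ?_, ?_⟩
    · intro u v huv heq
      have : h u % 3 = h v % 3 := by simpa using heq
      rcases h2 u v huv with h3 | h3 <;> omega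
    · intro v
      have := hle v.val (h v) (h1 v)
      rw [hT0, tab_cyc] at this
      obtain ⟨_, _, h4⟩ := this
      exact h4
  · rintro ⟨c, hc1, hc2⟩
    obtain ⟨h, h1, h2, h3⟩ := exists_bounded_height (V := Fin I.n) (fun v => (c v : ZMod 3)) hG hc1
    have hmono := iter_mono As hAl hAn (fun v => if hv : v < I.n then h ⟨v, hv⟩ else 0)
      (by
        intro v hv u hu hadj
        rw [hAs, tab_adj] at hadj
        obtain ⟨hv', hu', hadj⟩ := hadj
        simp only [hv, hu, dif_pos]
        exact h2 _ _ hadj) (encRows T0).length T0 hTl hTn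
      (by
        intro v hv
        simp only [hv, dif_pos]
        rw [hT0, tab_cyc]
        refine ⟨hv, ?_, ?_⟩
        · have := h3 ⟨v, hv⟩
          rw [Fintype.card_fin] at this
          rw [hLn]
          nlinarith
        · have e : (⟨h ⟨v, hv⟩ % 3, Nat.mod_lt _ (by norm_num)⟩ : Fin 3) = c ⟨v, hv⟩ := by
            have h4 := h1 ⟨v, hv⟩
            apply Fin.ext
            have h5 := congrArg (fun z : ZMod 3 => z.val) h4
            simp only [ZMod.val_natCast] at h5
            exact h5
          rw [e]
          exact hc2 _)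
    intro v hv
    exact ⟨_, hmono v hv⟩

theorem totalCost_mono (n L : ℕ) (h : n ≤ L) : totalCost n L ≤ totalCost L L := by
  unfold totalCost roundCost vCost
  gcongr

open Polynomial in
/-- The polynomial time bound. -/
noncomputable def costPoly : Polynomial ℕ :=
  (4 * X + 4) + (X * (4 * X + 2 * X + 11) + 2) +
    (2 * (X * (X + 1)) + 2 * (X * (X + 1)) + 2 * X + 6) +
    (X * (X + 1) * ((8 * (X * (X + 1)) + 2 * (X * (X + 1)) +
      X * (X * (4 * X + 10) + 2 * (X * (X + 1)) + 6 * X + 15) + 12) + 2) + 2) +
    (2 * (X * (X + 1)) + 3) + (2 * (X * (X + 1)) + 3)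

theorem costPoly_eval (L : ℕ) : costPoly.eval L = totalCost L L := by
  simp [costPoly, totalCost, roundCost, vCost]

/-- **LIST 3-COLORING restricted to chordal bipartite graphs is solvable in polynomial time.** -/
theorem main : ∃ f : Instance → Bool,
    Nonempty (Turing.TM2ComputableInPolyTime Instance.encode encodeAnswer f) ∧
    ∀ I : Instance, IsChordalBipartite I.G → (f I = true ↔ I.ListColorable) := by
  refine ⟨fun I => result (rowsOf I), ?_, result_correct⟩
  refine computable_of_run Stk.I Stk.O r0 prog _ _ _ costPoly ?_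
  intro I
  have h1 := run_prog (n := I.n) (rowsOf I) (rowsOf_length I) (rowsOf_row I)
  rw [← encode_eq] at h1
  have hlen : (I.encode).length = I.n * (I.n + 4) := by
    rw [encode_eq, encIn_length _ (rowsOf_row I), rowsOf_length]
  have e1 : (fun k => if k = Stk.I then I.encode else []) = Mem.toFun { I := I.encode } := by
    funext k; cases k <;> rfl
  have e2 : (fun k => if k = Stk.O then encodeAnswer (result (rowsOf I)) else []) =
      Mem.toFun { O := [.bit (result (rowsOf I))] } := by
    funext k; cases k <;> rfl
  rw [e1, e2, costPoly_eval]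
  refine h1.mono (totalCost_mono _ _ ?_)
  rw [hlen]
  nlinarith

end Pool.Agent.Helper99.CBM
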