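import Mathlib
import Pool.Agent.Helper99.CBFinal

/-! Sanity check: the encoding of instances is injective. -/

namespace Pool.Agent.Helper99.CBM

open Pool.Agent.Helper99.CB Pool.Agent.Helper99.SL

theorem bits_injective : Function.Injective bits := by
  intro a b h
  exact List.map_injective_iff.2 (fun x y hxy => by injection hxy) h

theorem encIn_injective {n : ℕ} (rows : List InRow) : ∀ rows' : List InRow,
    (∀ x ∈ rows, x.2.length = n) → (∀ x ∈ rows', x.2.length = n) → encIn rows = encIn rows' →
    rows = rows' := by
  induction rows with
  | nil =>
    intro rows' _ _ h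
    cases rows' with
    | nil => rfl
    | cons x rows' => simp at h
  | cons x rows ih =>
    intro rows' h1 h2 h
    cases rows' with
    | nil => simp at h
    | cons y rows' =>
      simp only [encIn_cons, List.cons.injEq, Sym.bit.injEq] at h
      obtain ⟨a1, a2, a3, h⟩ := h
      have hl : (bits x.2).length = (bits y.2).length := by
        rw [bits_length, bits_length, h1 x (by simp), h2 y (by simp)]
      obtain ⟨h3, h4⟩ := List.append_inj h hl
      have h5 := ih rows' (fun z hz => h1 z (by simp [hz])) (fun z hz => h2 z (by simp [hz]))
        (by simpa using h4)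
      have h6 := bits_injective h3
      rw [h5]
      congr 1
      exact Prod.ext (Prod.ext a1 (Prod.ext a2 a3)) h6

theorem encode_injective : Function.Injective Instance.encode := by
  classical
  intro I J h
  rw [encode_eq, encode_eq] at h
  have hn : I.n = J.n := by
    have := congrArg List.length h
    rw [encIn_length _ (rowsOf_row I), encIn_length _ (rowsOf_row J), rowsOf_length,
      rowsOf_length] at this
    by_contra hne
    rcases lt_or_gt_of_ne hne with h1 | h1 <;> nlinarith
  obtain ⟨n, G, L⟩ := I
  obtain ⟨n', G', L'⟩ := J
  simp only at hn
  subst hn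
  have hrows := encIn_injective (n := n) _ _ (rowsOf_row ⟨n, G, L⟩) (rowsOf_row ⟨n, G', L'⟩) h
  simp only [rowsOf] at hrows
  rw [List.map_inj_left] at hrows
  have hG : G = G' := by
    ext v u
    have h1 := hrows v (List.mem_finRange v)
    have h2 := (Prod.ext_iff.1 h1).2
    simp only at h2
    rw [List.map_inj_left] at h2
    have h3 := h2 u (List.mem_finRange u)
    simpa using h3
  have hL : L = L' := by
    funext v
    have h1 := (Prod.ext_iff.1 (hrows v (List.mem_finRange v))).1
    simp only [Prod.mk.injEq, decide_eq_decide] at h1
    ext c
    fin_cases c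
    · exact h1.1
    · exact h1.2.1
    · exact h1.2.2
  subst hG
  subst hL
  rfl

end Pool.Agent.Helper99.CBM
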