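import Mathlib

/-! Partial recursive functions on a finite `TM0` machine (all steps are in Mathlib). -/

namespace Pool.Agent.Helper99.CFA

open Turing Relation

/-- Restriction of a machine to a finite set of supporting labels. -/
theorem restrict_machine {Γ Λ : Type} [Inhabited Γ] [Inhabited Λ] (M : TM0.Machine Γ Λ)
    (T : Set Λ) (hT : T.Finite) (hs : TM0.Supports M T) :
    ∃ (Λ' : Type) (_ : Inhabited Λ') (_ : Finite Λ') (M' : TM0.Machine Γ Λ'),
      ∀ l, (TM0.eval M' l).Dom ↔ (TM0.eval M l).Dom := by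
  classical
  let i1 : Inhabited T := ⟨⟨default, hs.1⟩⟩
  let M' : TM0.Machine Γ T := fun q t =>
    match h : M q.1 t with
    | none => none
    | some (q', a) => some (⟨q', hs.2 h q.2⟩, a)
  have hM'0 : ∀ (q : T) t, M q.1 t = none → M' q t = none := by
    intro q t h
    simp only [M']
    split
    · rfl
    · rename_i h'; rw [h] at h'; simp at h'
  have hM'1 : ∀ (q : T) t q' a, M q.1 t = some (q', a) → ∃ h, M' q t = some (⟨q', h⟩, a) := by
    intro q t q' a h
    simp only [M']
    split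
    · rename_i h'; rw [h] at h'; simp at h'
    · rename_i q'' a' h'
      rw [h] at h'
      simp only [Option.some.injEq, Prod.mk.injEq] at h'
      obtain ⟨rfl, rfl⟩ := h'
      exact ⟨hs.2 h q.2, rfl⟩
  refine ⟨T, i1, hT, M', fun l => ?_⟩
  have hR : StateTransition.Respects (TM0.step M) (TM0.step M')
      (fun c c' => c = ⟨c'.q.1, c'.Tape⟩) := by
    rintro ⟨q, t⟩ ⟨q', t'⟩ h
    simp only [TM0.Cfg.mk.injEq] at h
    obtain ⟨rfl, rfl⟩ := h
    cases h : M q'.1 t.1 with
    | none =>
      simp only [TM0.step, h, Option.map_none, hM'0 _ _ h]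
    | some p =>
      obtain ⟨q2, a⟩ := p
      obtain ⟨h3, h4⟩ := hM'1 _ _ _ _ h
      simp only [TM0.step, h, Option.map_some]
      refine ⟨⟨⟨q2, h3⟩, _⟩, rfl, TransGen.single ?_⟩
      simp only [TM0.step, h4, Option.map_some]
      rfl
  have := StateTransition.tr_eval_dom hR (a₁ := TM0.init l) (a₂ := TM0.init l) rfl
  exact this

open PartrecToTM2 in
/-- A partial recursive function is evaluated by a finite machine. -/
theorem exists_machine (f : ℕ →. ℕ) (hf : Partrec f) :
    ∃ (Λ : Type) (_ : Inhabited Λ) (_ : Finite Λ)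
      (M : TM0.Machine (TM2to1.Γ' K' (fun _ => PartrecToTM2.Γ')) Λ),
      ∀ n, (TM0.eval M (TM2to1.trInit K'.main (trList [n]))).Dom ↔ (f n).Dom := by
  classical
  have h1 : Nat.Partrec' (fun v : List.Vector ℕ 1 => f v.head) :=
    Nat.Partrec'.of_part (hf.comp (Primrec.vector_head.to_comp))
  obtain ⟨c, hc⟩ := ToPartrec.Code.exists_code h1
  let i1 : Inhabited PartrecToTM2.Λ' := ⟨trNormal c Cont'.halt⟩
  let M2 : PartrecToTM2.Λ' → TM2.Stmt (fun _ : K' => PartrecToTM2.Γ') PartrecToTM2.Λ'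
    (Option PartrecToTM2.Γ') := PartrecToTM2.tr
  have s2 : TM2.Supports M2 (codeSupp c Cont'.halt) := PartrecToTM2.tr_supports c Cont'.halt
  have s1 := TM2to1.tr_supports (M := M2) s2
  have s0 := TM1to0.tr_supports (M := TM2to1.tr M2) s1
  obtain ⟨Λ', j1, j2, M', hM'⟩ := restrict_machine _ _ (Finset.finite_toSet _) s0
  refine ⟨Λ', j1, j2, M', fun n => ?_⟩
  rw [hM', TM1to0.tr_eval, TM2to1.tr_eval_dom]
  have h2 : (TM2.eval M2 K'.main (trList [n])).Dom ↔
      (StateTransition.eval (TM2.step M2) (TM2.init K'.main (trList [n]))).Dom := Iff.rfl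
  rw [h2]
  have h3 : TM2.init (Γ := fun _ : K' => PartrecToTM2.Γ') (Λ := PartrecToTM2.Λ')
      (σ := Option PartrecToTM2.Γ') K'.main (trList [n]) = PartrecToTM2.init c [n] := by
    unfold TM2.init PartrecToTM2.init
    congr 1
    funext k
    cases k <;> rfl
  rw [h3, PartrecToTM2.tr_eval]
  have h4 := hc ⟨[n], rfl⟩
  simp only at h4
  rw [h4]
  simp [List.Vector.head]

end Pool.Agent.Helper99.CFA
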