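import Mathlib

/-!
Definitions: state-controlled finite automata and the context-sensitive languages.

Symbols (of input alphabets, of sets of states, of terminal and nonterminal alphabets) are natural
numbers, so that a family of languages is a set of sets of words over `ℕ`; all alphabets that
occur are finite.
-/

namespace Pool.Agent.Helper99.CFA

/-- A language: a set of words over the universal alphabet `ℕ`. -/
abbrev Lang := Set (List ℕ)

/-- A family of languages. -/
abbrev Family := Set Lang

/-- A finite automaton `(Q, Σ, R, s, F)` with rules `p a → q`, `a ∈ Σ ∪ {ε}`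
(`none` stands for `ε`). -/
structure FA where
  Q : Finset ℕ
  s : ℕ
  F : Finset ℕ
  R : Finset (ℕ × Option ℕ × ℕ)
  s_mem : s ∈ Q
  F_sub : F ⊆ Q
  R_sub : ∀ r ∈ R, r.1 ∈ Q ∧ r.2.2 ∈ Q

/-- A move `(p a x, α) ▷ (q x, α p)`: a configuration is (state, remaining input, record word),
and each move appends the state being left to the record word. -/
inductive FA.Move (M : FA) : ℕ × List ℕ × List ℕ → ℕ × List ℕ × List ℕ → Prop
  | mk (p q : ℕ) (a : Option ℕ) (x α : List ℕ) :
      (p, a, q) ∈ M.R → FA.Move M (p, a.toList ++ x, α) (q, x, α ++ [p])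

/-- The language `{w | (s w, ε) ▷* (f, α) for some f ∈ F, α ∈ C}` of `M` controlled by `C`. -/
def FA.lang (M : FA) (C : Lang) : Lang :=
  {w | ∃ f ∈ M.F, ∃ α ∈ C, Relation.ReflTransGen M.Move (M.s, w, []) (f, [], α)}

/-- `SCFA(𝓛)`: the languages of finite automata `M` with a control language `C ⊆ Q*`
belonging to the family `𝓛`. -/
def SCFA (𝓛 : Family) : Family :=
  {K | ∃ (M : FA) (C : Lang), C ∈ 𝓛 ∧ (∀ α ∈ C, ∀ q ∈ α, q ∈ M.Q) ∧ K = M.lang C}

/-- A (phrase structure) grammar: `inl A` are nonterminals, `inr a` are terminals; a start symbol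
and finitely many rules `u → v`. -/
structure Grammar where
  S : ℕ
  R : Finset (List (ℕ ⊕ ℕ) × List (ℕ ⊕ ℕ))

/-- One derivation step. -/
def Grammar.Step (G : Grammar) (x y : List (ℕ ⊕ ℕ)) : Prop :=
  ∃ r ∈ G.R, ∃ α β, x = α ++ r.1 ++ β ∧ y = α ++ r.2 ++ β

/-- The generated language. -/
def Grammar.lang (G : Grammar) : Lang :=
  {w | Relation.ReflTransGen G.Step [Sum.inl G.S] (w.map Sum.inr)}

/-- Noncontracting grammars: every left-hand side contains a nonterminal and is not longer than
the right-hand side. -/
def Grammar.Noncontracting (G : Grammar) : Prop :=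
  ∀ r ∈ G.R, (∃ A, Sum.inl A ∈ r.1) ∧ r.1.length ≤ r.2.length

/-- The family of context-sensitive languages: up to the empty word, the languages generated by
noncontracting grammars. -/
def CS : Family := {K | ∃ G : Grammar, G.Noncontracting ∧ ∀ w, w ≠ [] → (w ∈ K ↔ w ∈ G.lang)}

end Pool.Agent.Helper99.CFA
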