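import Mathlib
import Pool.Agent.Helper99.CFADefs

namespace Pool.Agent.Helper99.CFA

open Relation

/-- Relabelling of an automaton by a weak coding. -/
def FA.relabel (M : FA) (h : ℕ → Option ℕ) : FA where
  Q := M.Q
  s := M.s
  F := M.F
  R := M.R.image (fun r => (r.1, r.2.1.bind h, r.2.2))
  s_mem := M.s_mem
  F_sub := M.F_sub
  R_sub := by
    intro r hr
    simp only [Finset.mem_image] at hr
    obtain ⟨r', hr', rfl⟩ := hr
    exact M.R_sub r' hr'

theorem relabel_fwd (M : FA) (h : ℕ → Option ℕ) {c : ℕ × List ℕ × List ℕ}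
    {d : ℕ × List ℕ × List ℕ} (H : ReflTransGen M.Move c d) :
    ReflTransGen (M.relabel h).Move (c.1, c.2.1.filterMap h, c.2.2)
      (d.1, d.2.1.filterMap h, d.2.2) := by
  induction H with
  | refl => exact ReflTransGen.refl
  | @tail b d _ hbd ih =>
    refine ih.tail ?_
    obtain ⟨p, q, a, x, α, hr⟩ := hbd
    have h1 : (a.toList ++ x).filterMap h = (a.bind h).toList ++ x.filterMap h := by
      cases a with
      | none => simp
      | some a => cases ha : h a <;> simp [ha]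
    simp only [h1]
    exact FA.Move.mk p q (a.bind h) _ α (Finset.mem_image.2 ⟨_, hr, rfl⟩)

theorem relabel_bwd (M : FA) (h : ℕ → Option ℕ) (f : ℕ) (γ : List ℕ)
    {c : ℕ × List ℕ × List ℕ} (H : ReflTransGen (M.relabel h).Move c (f, [], γ)) :
    ∃ w, w.filterMap h = c.2.1 ∧ ReflTransGen M.Move (c.1, w, c.2.2) (f, [], γ) := by
  induction H using ReflTransGen.head_induction_on with
  | refl => exact ⟨[], by simp, ReflTransGen.refl⟩
  | head hcd _ ih =>
    obtain ⟨p, q, a', x, α, hr⟩ := hcd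
    simp only [FA.relabel, Finset.mem_image, Prod.mk.injEq] at hr
    obtain ⟨⟨p1, a, q1⟩, hr, h1, h2, h3⟩ := hr
    simp only at h1 h2 h3
    subst h1 h2 h3
    obtain ⟨w, hw1, hw2⟩ := ih
    refine ⟨a.toList ++ w, ?_, ReflTransGen.head (FA.Move.mk p1 q1 a w α hr) hw2⟩
    simp only at hw1 ⊢
    cases a with
    | none => simpa using hw1
    | some a => cases ha : h a <;> simp [ha, hw1]

/-- `SCFA(𝓛)` is closed under weak codings, for every family `𝓛`. -/
theorem SCFA_closed (𝓛 : Family) (K : Lang) (hK : K ∈ SCFA 𝓛) (h : ℕ → Option ℕ) :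
    {w' | ∃ w ∈ K, w.filterMap h = w'} ∈ SCFA 𝓛 := by
  obtain ⟨M, C, hC, hsub, rfl⟩ := hK
  refine ⟨M.relabel h, C, hC, hsub, ?_⟩
  ext w'
  constructor
  · rintro ⟨w, ⟨f, hf, α, hα, H⟩, rfl⟩
    exact ⟨f, hf, α, hα, relabel_fwd M h H⟩
  · rintro ⟨f, hf, α, hα, H⟩
    obtain ⟨w, hw1, hw2⟩ := relabel_bwd M h f α H
    exact ⟨w, ⟨f, hf, α, hα, hw2⟩, hw1⟩

end Pool.Agent.Helper99.CFA
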