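import Pool.Agent.Helper99.CFADefs

/-! Context-sensitive languages are decidable. -/

namespace Pool.Agent.Helper99.CFA

open Relation

theorem rePred_exists {α : Type*} [Primcodable α] {p : α → ℕ → Prop} (hp : PrimrecRel p) :
    REPred fun a => ∃ k, p a k := by
  classical
  have h1 : Primrec₂ fun a k => if p a k then some () else none :=
    Primrec.ite (c := fun x : α × ℕ => p x.1 x.2) hp (Primrec.const _) (Primrec.const _)
  have h2 := (Partrec.rfindOpt h1.to_comp).dom_re
  refine h2.of_eq fun a => ?_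
  rw [Nat.rfindOpt_dom]
  constructor
  · rintro ⟨n, x, h⟩
    by_cases hp : p a n
    · exact ⟨n, hp⟩
    · simp [hp] at h
  · rintro ⟨n, h⟩
    exact ⟨n, (), by simp [h]⟩

/-- Successors of `x` of length at most `n`. -/
def succs (R : List (List (ℕ ⊕ ℕ) × List (ℕ ⊕ ℕ))) (n : ℕ) (x : List (ℕ ⊕ ℕ)) :
    List (List (ℕ ⊕ ℕ)) :=
  R.flatMap fun r => (List.range (x.length + 1)).filterMap fun i =>
    if (x.drop i).take r.1.length = r.1 ∧
      (x.take i ++ r.2 ++ x.drop (i + r.1.length)).length ≤ n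
    then some (x.take i ++ r.2 ++ x.drop (i + r.1.length)) else none

theorem mem_succs {R : List (List (ℕ ⊕ ℕ) × List (ℕ ⊕ ℕ))} {n : ℕ} {x y : List (ℕ ⊕ ℕ)} :
    y ∈ succs R n x ↔ y.length ≤ n ∧ ∃ r ∈ R, ∃ α β, x = α ++ r.1 ++ β ∧ y = α ++ r.2 ++ β := by
  simp only [succs, List.mem_flatMap, List.mem_filterMap, List.mem_range]
  constructor
  · rintro ⟨r, hr, i, hi, h⟩
    split_ifs at h with hc
    · injection h with h
      subst h
      refine ⟨hc.2, r, hr, x.take i, x.drop (i + r.1.length), ?_, rfl⟩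
      have h1 : x = x.take i ++ x.drop i := (List.take_append_drop i x).symm
      have h2 : x.drop i = (x.drop i).take r.1.length ++ (x.drop i).drop r.1.length :=
        (List.take_append_drop _ _).symm
      rw [hc.1, List.drop_drop] at h2
      rw [List.append_assoc, ← h2, ← h1]
  · rintro ⟨hy, r, hr, α, β, rfl, rfl⟩
    refine ⟨r, hr, α.length, by simp, ?_⟩
    have h1 : (α ++ r.1 ++ β).take α.length = α := by simp
    have h2 : (α ++ r.1 ++ β).drop α.length = r.1 ++ β := by simp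
    have h3 : (α ++ r.1 ++ β).drop (α.length + r.1.length) = β := by
      rw [← List.drop_drop, h2]; simp
    rw [h1, h2, h3]
    rw [if_pos]
    exact ⟨by simp, hy⟩

theorem primrec_succs (R : List (List (ℕ ⊕ ℕ) × List (ℕ ⊕ ℕ))) : Primrec₂ (succs R) := by
  have g1 : Primrec fun (q : ((ℕ × List (ℕ ⊕ ℕ)) × (List (ℕ ⊕ ℕ) × List (ℕ ⊕ ℕ))) × ℕ) =>
      q.1.1.2 := Primrec.snd.comp (Primrec.fst.comp Primrec.fst)
  have g2 : Primrec fun (q : ((ℕ × List (ℕ ⊕ ℕ)) × (List (ℕ ⊕ ℕ) × List (ℕ ⊕ ℕ))) × ℕ) =>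
      q.1.2.1 := Primrec.fst.comp (Primrec.snd.comp Primrec.fst)
  have g3 : Primrec fun (q : ((ℕ × List (ℕ ⊕ ℕ)) × (List (ℕ ⊕ ℕ) × List (ℕ ⊕ ℕ))) × ℕ) =>
      q.1.2.2 := Primrec.snd.comp (Primrec.snd.comp Primrec.fst)
  have g4 : Primrec fun (q : ((ℕ × List (ℕ ⊕ ℕ)) × (List (ℕ ⊕ ℕ) × List (ℕ ⊕ ℕ))) × ℕ) =>
      q.1.1.1 := Primrec.fst.comp (Primrec.fst.comp Primrec.fst)
  have g5 : Primrec fun (q : ((ℕ × List (ℕ ⊕ ℕ)) × (List (ℕ ⊕ ℕ) × List (ℕ ⊕ ℕ))) × ℕ) =>
      q.2 := Primrec.snd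
  have g6 : Primrec fun (q : ((ℕ × List (ℕ ⊕ ℕ)) × (List (ℕ ⊕ ℕ) × List (ℕ ⊕ ℕ))) × ℕ) =>
      (q.1.1.2.take q.2 ++ q.1.2.2 ++ q.1.1.2.drop (q.2 + q.1.2.1.length)) :=
    Primrec.list_append.comp (Primrec.list_append.comp (Primrec.list_take.comp g5 g1) g3)
      (Primrec.list_drop.comp (Primrec.nat_add.comp g5 (Primrec.list_length.comp g2)) g1)
  have h1 : PrimrecPred fun (q : ((ℕ × List (ℕ ⊕ ℕ)) × (List (ℕ ⊕ ℕ) × List (ℕ ⊕ ℕ))) × ℕ) =>
      (q.1.1.2.drop q.2).take q.1.2.1.length = q.1.2.1 ∧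
      (q.1.1.2.take q.2 ++ q.1.2.2 ++ q.1.1.2.drop (q.2 + q.1.2.1.length)).length ≤ q.1.1.1 := by
    refine PrimrecPred.and ?_ ?_
    · exact Primrec.eq.comp (Primrec.list_take.comp (Primrec.list_length.comp g2)
        (Primrec.list_drop.comp g5 g1)) g2
    · exact Primrec.nat_le.comp (Primrec.list_length.comp g6) g4
  have h2 : Primrec fun (q : ((ℕ × List (ℕ ⊕ ℕ)) × (List (ℕ ⊕ ℕ) × List (ℕ ⊕ ℕ))) × ℕ) =>
      if (q.1.1.2.drop q.2).take q.1.2.1.length = q.1.2.1 ∧
      (q.1.1.2.take q.2 ++ q.1.2.2 ++ q.1.1.2.drop (q.2 + q.1.2.1.length)).length ≤ q.1.1.1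
      then some (q.1.1.2.take q.2 ++ q.1.2.2 ++ q.1.1.2.drop (q.2 + q.1.2.1.length)) else none :=
    Primrec.ite h1 (Primrec.option_some.comp g6) (Primrec.const none)
  have h3 : Primrec fun (q : (ℕ × List (ℕ ⊕ ℕ)) × (List (ℕ ⊕ ℕ) × List (ℕ ⊕ ℕ))) =>
      (List.range (q.1.2.length + 1)).filterMap fun i =>
        if (q.1.2.drop i).take q.2.1.length = q.2.1 ∧
        (q.1.2.take i ++ q.2.2 ++ q.1.2.drop (i + q.2.1.length)).length ≤ q.1.1
        then some (q.1.2.take i ++ q.2.2 ++ q.1.2.drop (i + q.2.1.length)) else none :=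
    Primrec.listFilterMap (Primrec.list_range.comp (Primrec.succ.comp (Primrec.list_length.comp
      (Primrec.snd.comp Primrec.fst)))) h2.to₂
  exact Primrec.list_flatMap (f := fun _ : ℕ × List (ℕ ⊕ ℕ) => R) (Primrec.const R) h3.to₂

/-- Strings of length at most `n` reached in at most `k` steps (through such strings). -/
def reach (R : List (List (ℕ ⊕ ℕ) × List (ℕ ⊕ ℕ))) (s : List (ℕ ⊕ ℕ)) (n k : ℕ) :
    List (List (ℕ ⊕ ℕ)) :=
  (fun l => l ++ l.flatMap (succs R n))^[k] [s]

theorem reach_succ (R : List (List (ℕ ⊕ ℕ) × List (ℕ ⊕ ℕ))) (s : List (ℕ ⊕ ℕ)) (n k : ℕ) :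
    reach R s n (k + 1) = reach R s n k ++ (reach R s n k).flatMap (succs R n) := by
  simp only [reach, Function.iterate_succ_apply']

theorem primrec_reach (R : List (List (ℕ ⊕ ℕ) × List (ℕ ⊕ ℕ))) (s : List (ℕ ⊕ ℕ)) :
    Primrec₂ (reach R s) := by
  have h1 : Primrec₂ fun (p : ℕ × ℕ) (l : List (List (ℕ ⊕ ℕ))) =>
      l ++ l.flatMap (succs R p.1) := by
    refine Primrec.list_append.comp Primrec.snd (Primrec.list_flatMap Primrec.snd ?_)
    exact (primrec_succs R).comp (Primrec.fst.comp (Primrec.fst.comp Primrec.fst)) Primrec.snd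
  exact Primrec.nat_iterate (f := fun p : ℕ × ℕ => p.2) (g := fun _ => [s]) Primrec.snd
    (Primrec.const [s]) h1

theorem reach_sub {G : Grammar} {R : List (List (ℕ ⊕ ℕ) × List (ℕ ⊕ ℕ))}
    (hR : ∀ r, r ∈ R ↔ r ∈ G.R) (n k : ℕ) {y : List (ℕ ⊕ ℕ)}
    (hy : y ∈ reach R [Sum.inl G.S] n k) : ReflTransGen G.Step [Sum.inl G.S] y := by
  induction k generalizing y with
  | zero => simp only [reach, Function.iterate_zero, id, List.mem_singleton] at hy
            rw [hy]
  | succ k ih =>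
    rw [reach_succ, List.mem_append, List.mem_flatMap] at hy
    rcases hy with hy | ⟨x, hx, hy⟩
    · exact ih hy
    · obtain ⟨_, r, hr, α, β, h1, h2⟩ := mem_succs.1 hy
      exact (ih hx).tail ⟨r, (hR r).1 hr, α, β, h1, h2⟩

theorem step_length {G : Grammar} (hG : G.Noncontracting) {x y : List (ℕ ⊕ ℕ)}
    (h : G.Step x y) : x.length ≤ y.length := by
  obtain ⟨r, hr, α, β, rfl, rfl⟩ := h
  have := (hG r hr).2
  simp only [List.length_append]
  omega

theorem mem_reach {G : Grammar} (hG : G.Noncontracting)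
    {R : List (List (ℕ ⊕ ℕ) × List (ℕ ⊕ ℕ))}
    (hR : ∀ r, r ∈ R ↔ r ∈ G.R) (n : ℕ) {y : List (ℕ ⊕ ℕ)}
    (hy : ReflTransGen G.Step [Sum.inl G.S] y) (hn : y.length ≤ n) :
    ∃ k, y ∈ reach R [Sum.inl G.S] n k := by
  induction hy with
  | refl => exact ⟨0, by simp [reach]⟩
  | tail _ h ih =>
    obtain ⟨k, hk⟩ := ih ((step_length hG h).trans hn)
    refine ⟨k + 1, ?_⟩
    rw [reach_succ, List.mem_append, List.mem_flatMap]
    obtain ⟨r, hr, α, β, h1, h2⟩ := h
    exact Or.inr ⟨_, hk, mem_succs.2 ⟨hn, r, (hR r).2 hr, α, β, h1, h2⟩⟩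

theorem reach_mono (R : List (List (ℕ ⊕ ℕ) × List (ℕ ⊕ ℕ))) (s : List (ℕ ⊕ ℕ)) (n : ℕ)
    {k k' : ℕ} (h : k ≤ k') : reach R s n k ⊆ reach R s n k' := by
  induction h with
  | refl => exact fun _ h => h
  | step _ ih =>
    rw [reach_succ]
    exact fun x hx => List.mem_append_left _ (ih hx)

theorem reach_closed (R : List (List (ℕ ⊕ ℕ) × List (ℕ ⊕ ℕ))) (s : List (ℕ ⊕ ℕ)) (n : ℕ)
    {k : ℕ} (h : reach R s n (k + 1) ⊆ reach R s n k) (k' : ℕ) :
    reach R s n k' ⊆ reach R s n k := by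
  induction k' with
  | zero => exact reach_mono R s n (Nat.zero_le k)
  | succ k' ih =>
    intro y hy
    rw [reach_succ, List.mem_append, List.mem_flatMap] at hy
    rcases hy with hy | ⟨x, hx, hy⟩
    · exact ih hy
    · apply h
      rw [reach_succ, List.mem_append, List.mem_flatMap]
      exact Or.inr ⟨x, ih hx, hy⟩

/-- Finiteness: the process stabilises. -/
theorem reach_stable (R : List (List (ℕ ⊕ ℕ) × List (ℕ ⊕ ℕ))) (s : List (ℕ ⊕ ℕ)) (n : ℕ) :
    ∃ k, reach R s n (k + 1) ⊆ reach R s n k := by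
  classical
  -- the alphabet
  let A : Finset (ℕ ⊕ ℕ) := s.toFinset ∪ (R.flatMap Prod.snd).toFinset
  have hA : ∀ k, ∀ y ∈ reach R s n k, (∀ a ∈ y, a ∈ A) ∧ y.length ≤ max s.length n := by
    intro k
    induction k with
    | zero =>
      intro y hy
      simp only [reach, Function.iterate_zero, id, List.mem_singleton] at hy
      subst hy
      exact ⟨fun a ha => Finset.mem_union_left _ (List.mem_toFinset.2 ha), le_max_left _ _⟩
    | succ k ih =>
      intro y hy
      rw [reach_succ, List.mem_append, List.mem_flatMap] at hy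
      rcases hy with hy | ⟨x, hx, hy⟩
      · exact ih y hy
      · obtain ⟨hn, r, hr, α, β, h1, h2⟩ := mem_succs.1 hy
        refine ⟨?_, hn.trans (le_max_right _ _)⟩
        intro a ha
        rw [h2, List.mem_append, List.mem_append] at ha
        rcases ha with (ha | ha) | ha
        · exact (ih x hx).1 a (by rw [h1]; simp [ha])
        · refine Finset.mem_union_right _ (List.mem_toFinset.2 (List.mem_flatMap.2 ⟨r, hr, ha⟩))
        · exact (ih x hx).1 a (by rw [h1]; simp [ha])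
  have hfin : {y : List (ℕ ⊕ ℕ) | (∀ a ∈ y, a ∈ A) ∧ y.length ≤ max s.length n}.Finite := by
    have h1 : ({l : List A | l.length ≤ max s.length n}).Finite := List.finite_length_le A _
    refine (h1.image (List.map Subtype.val)).subset ?_
    rintro y ⟨h2, h3⟩
    refine ⟨y.pmap Subtype.mk h2, ?_, ?_⟩
    · simpa using h3
    · rw [List.map_pmap]; simp
  by_contra hcon
  push Not at hcon
  have hcard : ∀ k, k ≤ (reach R s n k).toFinset.card := by
    intro k
    induction k with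
    | zero => exact Nat.zero_le _
    | succ k ih =>
      have h1 : (reach R s n k).toFinset ⊂ (reach R s n (k + 1)).toFinset := by
        rw [Finset.ssubset_iff_subset_ne]
        constructor
        · intro x hx
          rw [List.mem_toFinset] at hx ⊢
          exact reach_mono R s n (Nat.le_succ k) hx
        · intro he
          apply hcon k
          intro x hx
          rw [← List.mem_toFinset, he, List.mem_toFinset]
          exact hx
      have := Finset.card_lt_card h1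
      omega
  have h2 : ∀ k, (reach R s n k).toFinset ⊆ hfin.toFinset := by
    intro k x hx
    rw [Set.Finite.mem_toFinset]
    exact hA k x (List.mem_toFinset.1 hx)
  have h3 := hcard (hfin.toFinset.card + 1)
  have h4 := Finset.card_le_card (h2 (hfin.toFinset.card + 1))
  omega

theorem computable_lang (G : Grammar) (hG : G.Noncontracting) :
    ComputablePred fun w : List ℕ => w ∈ G.lang := by
  classical
  let R := G.R.toList
  have hR : ∀ r, r ∈ R ↔ r ∈ G.R := fun r => Finset.mem_toList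
  have hmap : Primrec fun w : List ℕ => (w.map Sum.inr : List (ℕ ⊕ ℕ)) :=
    Primrec.list_map Primrec.id (Primrec.sumInr.comp Primrec.snd).to₂
  have hre : Primrec₂ fun (w : List ℕ) (k : ℕ) => reach R [Sum.inl G.S] w.length k :=
    (primrec_reach R [Sum.inl G.S]).comp (Primrec.list_length.comp Primrec.fst) Primrec.snd
  have hre' : Primrec₂ fun (w : List ℕ) (k : ℕ) => reach R [Sum.inl G.S] w.length (k + 1) :=
    (primrec_reach R [Sum.inl G.S]).comp (Primrec.list_length.comp Primrec.fst)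
      (Primrec.succ.comp Primrec.snd)
  have hmem : PrimrecRel fun (w : List ℕ) (k : ℕ) =>
      (w.map Sum.inr : List (ℕ ⊕ ℕ)) ∈ reach R [Sum.inl G.S] w.length k := by
    have h1 : PrimrecRel fun (L : List (List (ℕ ⊕ ℕ))) (b : List (ℕ ⊕ ℕ)) => ∃ a ∈ L, a = b :=
      PrimrecRel.exists_mem_list Primrec.eq
    refine (h1.comp hre (hmap.comp Primrec.fst)).of_eq fun a => ?_
    simp
  rw [ComputablePred.computable_iff_re_compl_re']
  constructor
  · refine (rePred_exists hmem).of_eq fun w => ?_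
    constructor
    · rintro ⟨k, hk⟩
      exact reach_sub hR _ _ hk
    · intro h
      exact mem_reach hG hR _ h (by simp)
  · have h2 : PrimrecRel fun (w : List ℕ) (k : ℕ) =>
        (∀ y ∈ reach R [Sum.inl G.S] w.length (k + 1), y ∈ reach R [Sum.inl G.S] w.length k) ∧
        ¬ (w.map Sum.inr : List (ℕ ⊕ ℕ)) ∈ reach R [Sum.inl G.S] w.length k := by
      refine PrimrecPred.and ?_ hmem.not
      have h3 : PrimrecRel fun (L : List (List (ℕ ⊕ ℕ))) (b : List (ℕ ⊕ ℕ)) => ∃ a ∈ L, a = b :=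
        PrimrecRel.exists_mem_list Primrec.eq
      have h4 : PrimrecRel fun (L L' : List (List (ℕ ⊕ ℕ))) => ∀ y ∈ L, ∃ a ∈ L', a = y :=
        PrimrecRel.forall_mem_list (R := fun (y : List (ℕ ⊕ ℕ)) (L' : List (List (ℕ ⊕ ℕ))) =>
          ∃ a ∈ L', a = y) h3.swap
      refine (h4.comp hre' hre).of_eq fun a => ?_
      simp
    refine (rePred_exists h2).of_eq fun w => ?_
    constructor
    · rintro ⟨k, hk, hk2⟩ h
      obtain ⟨k', hk'⟩ := mem_reach hG hR w.length h (by simp)
      exact hk2 (reach_closed R _ _ (fun y hy => hk y hy) k' hk')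
    · intro h
      obtain ⟨k, hk⟩ := reach_stable R [Sum.inl G.S] w.length
      refine ⟨k, fun y hy => hk hy, fun h' => h ?_⟩
      exact reach_sub hR _ _ h'

theorem computable_CS {K : Lang} (hK : K ∈ CS) : ComputablePred fun w : List ℕ => w ∈ K := by
  classical
  obtain ⟨G, hG, hw⟩ := hK
  obtain ⟨_, h1⟩ := computable_lang G hG
  refine ⟨Classical.decPred _, ?_⟩
  have h2 : Computable fun w : List ℕ => bif decide (w = []) then decide ([] ∈ K) else
      decide (w ∈ G.lang) := by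
    refine Computable.cond ?_ (Computable.const _) ?_
    · exact (Primrec.eq.comp Primrec.id (Primrec.const ([] : List ℕ))).decide.to_comp
    · exact h1.of_eq fun w => decide_eq_decide.2 Iff.rfl
  refine h2.of_eq fun w => ?_
  by_cases h3 : w = []
  · subst h3; simp
  · simp only [h3, decide_false, cond_false]
    have := hw w h3
    by_cases h4 : w ∈ K
    · simp [h4, this.1 h4]
    · have h5 : w ∉ G.lang := fun h => h4 (this.2 h)
      simp [h4, h5]

end Pool.Agent.Helper99.CFA
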