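import Mathlib

/-! Simulation of Turing machines (Mathlib's `TM0`) by noncontracting rewriting. -/

namespace Pool.Agent.Helper99.CFA

open Relation Turing

/-- One step of a rewriting system. -/
def RStep {α : Type*} (R : List α → List α → Prop) (x y : List α) : Prop :=
  ∃ u v, R u v ∧ ∃ a b, x = a ++ u ++ b ∧ y = a ++ v ++ b

theorem RStep.ctx {α : Type*} {R : List α → List α → Prop} {x y : List α} (h : RStep R x y)
    (a b : List α) : RStep R (a ++ x ++ b) (a ++ y ++ b) := by
  obtain ⟨u, v, hR, c, d, rfl, rfl⟩ := h
  exact ⟨u, v, hR, a ++ c, d ++ b, by simp, by simp⟩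

theorem RStep.ctx' {α : Type*} {R : List α → List α → Prop} {x y : List α}
    (h : ReflTransGen (RStep R) x y) (a b : List α) :
    ReflTransGen (RStep R) (a ++ x ++ b) (a ++ y ++ b) := by
  induction h with
  | refl => exact ReflTransGen.refl
  | tail _ h ih => exact ih.tail (h.ctx a b)

/-- Symbols of the simulating grammar. -/
inductive GS (Γ Λ : Type) : Type
  | S | A | L
  | cell (o : Option Γ) (t : Γ) (q : Option Λ)
  | out (o : Option Γ)
  deriving DecidableEq

variable {Γ Λ : Type} [Inhabited Γ] [Inhabited Λ]

open GS

/-- Rules of the simulating grammar. -/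
inductive Rule (M : TM0.Machine Γ Λ) : List (GS Γ Λ) → List (GS Γ Λ) → Prop
  | s1 : Rule M [S] [S, cell none default none]
  | s2 : Rule M [S] [A]
  | s3 : Rule M [S] [L, cell none default (some default)]
  | a1 (a : Γ) : Rule M [A] [A, cell (some a) a none]
  | a2 (a : Γ) : Rule M [A] [L, cell (some a) a (some default)]
  | l1 : Rule M [L] [L, cell none default none]
  | l2 : Rule M [L] [cell none default none]
  | halt (o : Option Γ) (t : Γ) (q : Λ) : M q t = none → Rule M [cell o t (some q)] [out o]
  | write (o : Option Γ) (t t' : Γ) (q q' : Λ) : M q t = some (q', .write t') →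
      Rule M [cell o t (some q)] [cell o t' (some q')]
  | right (o o' : Option Γ) (t t' : Γ) (q q' : Λ) : M q t = some (q', .move Dir.right) →
      Rule M [cell o t (some q), cell o' t' none] [cell o t none, cell o' t' (some q')]
  | left (o o' : Option Γ) (t t' : Γ) (q q' : Λ) : M q t = some (q', .move Dir.left) →
      Rule M [cell o' t' none, cell o t (some q)] [cell o' t' (some q'), cell o t none]
  | sr (o o' : Option Γ) (t' : Γ) : Rule M [out o, cell o' t' none] [out o, out o']
  | sl (o o' : Option Γ) (t' : Γ) : Rule M [cell o' t' none, out o] [out o', out o]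

/-- A plain cell. -/
def pc (c : Option Γ × Γ) : GS Γ Λ := cell c.1 c.2 none

/-- Halting within `k` steps. -/
def HaltsIn (M : TM0.Machine Γ Λ) : ℕ → TM0.Cfg Γ Λ → Prop
  | 0, c => TM0.step M c = none
  | k + 1, c => TM0.step M c = none ∨ ∃ c', TM0.step M c = some c' ∧ HaltsIn M k c'

theorem exists_haltsIn (M : TM0.Machine Γ Λ) {c d : TM0.Cfg Γ Λ}
    (h : ReflTransGen (fun a b => b ∈ TM0.step M a) c d) (hd : TM0.step M d = none) :
    ∃ k, HaltsIn M k c := by
  induction h using ReflTransGen.head_induction_on with
  | refl => exact ⟨0, hd⟩
  | head hcd _ ih =>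
    obtain ⟨k, hk⟩ := ih
    exact ⟨k + 1, Or.inr ⟨_, hcd, hk⟩⟩

/-! ### Completeness: halting computations give derivations -/

theorem spread_right (M : TM0.Machine Γ Λ) (o : Option Γ) (cs : List (Option Γ × Γ)) :
    ReflTransGen (RStep (Rule M)) (out o :: cs.map pc)
      (out o :: cs.map (fun c => (out c.1 : GS Γ Λ))) := by
  induction cs generalizing o with
  | nil => exact ReflTransGen.refl
  | cons c cs ih =>
    have h1 : RStep (Rule M) (out o :: (c :: cs).map pc) (out o :: out c.1 :: cs.map pc) :=
      ⟨_, _, Rule.sr o c.1 c.2, [], cs.map pc, by simp [pc], by simp⟩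
    refine ReflTransGen.head h1 ?_
    have := RStep.ctx' (ih c.1) [out o] []
    simpa using this

theorem spread_left (M : TM0.Machine Γ Λ) (o : Option Γ) (cs : List (Option Γ × Γ)) :
    ReflTransGen (RStep (Rule M)) (cs.map pc ++ [out o])
      (cs.map (fun c => (out c.1 : GS Γ Λ)) ++ [out o]) := by
  induction cs using List.reverseRecOn generalizing o with
  | nil => exact ReflTransGen.refl
  | append_singleton cs c ih =>
    have h1 : RStep (Rule M) ((cs ++ [c]).map pc ++ [out o]) (cs.map pc ++ [out c.1, out o]) :=
      ⟨_, _, Rule.sl o c.1 c.2, cs.map pc, [], by simp [pc], by simp⟩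
    refine ReflTransGen.head h1 ?_
    have := RStep.ctx' (ih c.1) [] [out o]
    simpa using this

/-- The tape with finite left and right parts. -/
def tp (l : List (Option Γ × Γ)) (c : Option Γ × Γ) (r : List (Option Γ × Γ)) : Tape Γ :=
  Tape.mk' (ListBlank.mk (l.map Prod.snd)) (ListBlank.mk (c.2 :: r.map Prod.snd))

/-- The string of a configuration; `l` is reversed. -/
def str (q : Λ) (l : List (Option Γ × Γ)) (c : Option Γ × Γ) (r : List (Option Γ × Γ)) :
    List (GS Γ Λ) := l.reverse.map pc ++ cell c.1 c.2 (some q) :: r.map pc

theorem sim_complete (M : TM0.Machine Γ Λ) (k : ℕ) : ∀ (q : Λ) (l : List (Option Γ × Γ))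
    (c : Option Γ × Γ) (r : List (Option Γ × Γ)), k ≤ l.length → k ≤ r.length →
    HaltsIn M k ⟨q, tp l c r⟩ →
    ReflTransGen (RStep (Rule M)) (str q l c r)
      ((l.reverse.map Prod.fst ++ c.1 :: r.map Prod.fst).map out) := by
  have base : ∀ (q : Λ) (l : List (Option Γ × Γ))
    (c : Option Γ × Γ) (r : List (Option Γ × Γ)), TM0.step M ⟨q, tp l c r⟩ = none →
    ReflTransGen (RStep (Rule M)) (str q l c r)
      ((l.reverse.map Prod.fst ++ c.1 :: r.map Prod.fst).map out) := by
    intro q l c r h
    have hM : M q c.2 = none := by
      have : (tp l c r).1 = c.2 := by simp [tp, Tape.mk']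
      simp only [TM0.step, Option.map_eq_none_iff] at h
      rw [this] at h
      exact h
    have h1 : RStep (Rule M) (str q l c r) (l.reverse.map pc ++ [out c.1] ++ r.map pc) :=
      ⟨_, _, Rule.halt c.1 c.2 q hM, l.reverse.map pc, r.map pc, by simp [str], rfl⟩
    have h2 := RStep.ctx' (spread_left M c.1 l.reverse) [] (r.map pc)
    have h3 := RStep.ctx' (spread_right M c.1 r) (l.reverse.map (fun c => (out c.1 : GS Γ Λ))) []
    refine ReflTransGen.head h1 ?_
    refine ReflTransGen.trans (b := l.reverse.map (fun c => (out c.1 : GS Γ Λ)) ++ [out c.1] ++
      r.map pc) (by simpa using h2) ?_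
    refine ReflTransGen.trans (b := l.reverse.map (fun c => (out c.1 : GS Γ Λ)) ++
      (out c.1 :: r.map (fun c => (out c.1 : GS Γ Λ)))) (by simpa using h3) ?_
    have : (l.reverse.map (fun c => (out c.1 : GS Γ Λ)) ++
      (out c.1 :: r.map (fun c => (out c.1 : GS Γ Λ)))) =
      ((l.reverse.map Prod.fst ++ c.1 :: r.map Prod.fst).map out) := by
      simp [Function.comp_def]
    rw [this]
  induction k with
  | zero => intro q l c r _ _ h; exact base q l c r h
  | succ k ih =>
    intro q l c r hl hr h
    rcases h with h | ⟨c', h, hk⟩
    · exact base q l c r h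
    · have hhead : (tp l c r).1 = c.2 := by simp [tp, Tape.mk']
      simp only [TM0.step, Option.map_eq_some_iff] at h
      obtain ⟨⟨q', a⟩, hM, hc'⟩ := h
      rw [hhead] at hM
      subst hc'
      cases a with
      | write t' =>
        have h1 : RStep (Rule M) (str q l c r) (str q' l (c.1, t') r) :=
          ⟨_, _, Rule.write c.1 c.2 t' q q' hM, l.reverse.map pc, r.map pc, by simp [str],
            by simp [str]⟩
        refine ReflTransGen.head h1 ?_
        have h2 := ih q' l (c.1, t') r (by omega) (by omega) (by
          have e : (tp l c r).write t' = tp l (c.1, t') r := by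
            simp [tp]
          simpa [e] using hk)
        simpa using h2
      | move d =>
        cases d with
        | right =>
          cases r with
          | nil => simp at hr
          | cons c' r =>
            have h1 : RStep (Rule M) (str q l c (c' :: r)) (str q' (c :: l) c' r) :=
              ⟨_, _, Rule.right c.1 c'.1 c.2 c'.2 q q' hM, l.reverse.map pc, r.map pc,
                by simp [str, pc], by simp [str, pc]⟩
            refine ReflTransGen.head h1 ?_
            have h2 := ih q' (c :: l) c' r (by simp; omega) (by simpa using hr) (by
              have e : (tp l c (c' :: r)).move Dir.right = tp (c :: l) c' r := by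
                simp [tp]
              simpa [e] using hk)
            simpa using h2
        | left =>
          cases l with
          | nil => simp at hl
          | cons c' l =>
            have h1 : RStep (Rule M) (str q (c' :: l) c r) (str q' l c' (c :: r)) :=
              ⟨_, _, Rule.left c.1 c'.1 c.2 c'.2 q q' hM, l.reverse.map pc, r.map pc,
                by simp [str, pc], by simp [str, pc]⟩
            refine ReflTransGen.head h1 ?_
            have h2 := ih q' l c' (c :: r) (by simpa using hl) (by simp; omega) (by
              have e : (tp (c' :: l) c r).move Dir.left = tp l c' (c :: r) := by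
                simp [tp]
              simpa [e] using hk)
            simpa using h2

/-- The initial configuration as a triple. -/
def initC (x : List Γ) : Option Γ × Γ := (x.head?, x.headI)
def initR (x : List Γ) : List (Option Γ × Γ) := x.tail.map (fun a => (some a, a))
def padC : Option Γ × Γ := (none, default)

theorem derive_init (M : TM0.Machine Γ Λ) (k r : ℕ) (x : List Γ) :
    ReflTransGen (RStep (Rule M)) [S]
      (str default (List.replicate (k + 1) padC) (initC x) (initR x ++ List.replicate r padC)) := by
  have h1 : ∀ r, ReflTransGen (RStep (Rule M)) [S] (S :: (List.replicate r padC).map pc) := by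
    intro r
    induction r with
    | zero => exact ReflTransGen.refl
    | succ r ih =>
      refine ih.tail ⟨_, _, Rule.s1, [], (List.replicate r padC).map pc, by simp, ?_⟩
      simp [List.replicate_succ, pc, padC]
  have h2 : ∀ (y : List Γ) (z : List (GS Γ Λ)), ReflTransGen (RStep (Rule M)) (A :: z)
      (A :: y.map (fun a => pc (some a, a)) ++ z) := by
    intro y
    induction y with
    | nil => intro z; exact ReflTransGen.refl
    | cons a y ih =>
      intro z
      refine (ih z).tail ⟨_, _, Rule.a1 a, [], y.map (fun a => pc (some a, a)) ++ z, by simp, ?_⟩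
      simp [pc]
  have h3 : ∀ (k : ℕ) (z : List (GS Γ Λ)), ReflTransGen (RStep (Rule M)) (L :: z)
      (L :: (List.replicate k padC).map pc ++ z) := by
    intro k
    induction k with
    | zero => intro z; exact ReflTransGen.refl
    | succ k ih =>
      intro z
      refine (ih z).tail ⟨_, _, Rule.l1, [], (List.replicate k padC).map pc ++ z, by simp, ?_⟩
      simp [List.replicate_succ, pc, padC]
  have h4 : ∀ (k : ℕ) (z : List (GS Γ Λ)), ReflTransGen (RStep (Rule M)) (L :: z)
      ((List.replicate (k + 1) padC).map pc ++ z) := by
    intro k z
    refine (h3 k z).tail ⟨_, _, Rule.l2, [], (List.replicate k padC).map pc ++ z, by simp, ?_⟩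
    simp [List.replicate_succ, pc, padC]
  have h5 : ReflTransGen (RStep (Rule M)) [S] (L :: cell (initC x).1 (initC x).2 (some default) ::
      (initR x ++ List.replicate r padC).map pc) := by
    cases x with
    | nil =>
      refine (h1 r).tail ⟨_, _, Rule.s3, [], (List.replicate r padC).map pc, by simp, ?_⟩
      simp [initC, initR]
    | cons a y =>
      have h6 : RStep (Rule M) (S :: (List.replicate r padC).map pc)
          (A :: (List.replicate r padC).map pc) :=
        ⟨_, _, Rule.s2, [], (List.replicate r padC).map pc, by simp, by simp⟩
      have h7 : RStep (Rule M)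
          (A :: y.map (fun a => pc (some a, a)) ++ (List.replicate r padC).map pc)
          (L :: cell (some a) a (some default) ::
            (y.map (fun a => pc (some a, a)) ++ (List.replicate r padC).map pc)) :=
        ⟨_, _, Rule.a2 a, [], y.map (fun a => pc (some a, a)) ++ (List.replicate r padC).map pc,
          by simp, by simp⟩
      have h8 := ((((h1 r).tail h6).trans (h2 y _)).tail h7)
      simpa [initC, initR, Function.comp_def] using h8
  refine h5.trans ?_
  have := h4 k (cell (initC x).1 (initC x).2 (some default) ::
      (initR x ++ List.replicate r padC).map pc)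
  simpa [str] using this

theorem mk_append_replicate (l : List Γ) (n : ℕ) :
    ListBlank.mk (l ++ List.replicate n default) = ListBlank.mk l := by
  apply ListBlank.ext
  intro i
  simp only [ListBlank.nth_mk]
  by_cases hi : i < l.length
  · rw [List.getI_eq_getElem _ (by simp; omega), List.getI_eq_getElem _ hi]
    simp [hi]
  · rw [List.getI_eq_default l (by omega)]
    by_cases hi2 : i < (l ++ List.replicate n default).length
    · rw [List.getI_eq_getElem _ hi2]
      rw [List.getElem_append_right (by omega)]
      simp
    · rw [List.getI_eq_default _ (by omega)]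

theorem tp_init (k r : ℕ) (x : List Γ) :
    tp (List.replicate k padC) (initC x) (initR x ++ List.replicate r padC) = Tape.mk₁ x := by
  unfold tp Tape.mk₁ Tape.mk₂
  have e1 : ListBlank.mk ((List.replicate k (padC : Option Γ × Γ)).map Prod.snd) =
      ListBlank.mk [] := by
    have := mk_append_replicate ([] : List Γ) k
    simpa [padC] using this
  have e2 : ListBlank.mk ((initC x).2 :: (initR x ++ List.replicate r padC).map Prod.snd) =
      ListBlank.mk x := by
    cases x with
    | nil =>
      have := mk_append_replicate ([] : List Γ) (r + 1)
      simpa [padC, initC, initR, List.replicate_succ] using this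
    | cons a y =>
      have := mk_append_replicate (a :: y) r
      simpa [padC, initC, initR, Function.comp_def] using this
  rw [e1, e2]

theorem complete (M : TM0.Machine Γ Λ) (x : List Γ) (h : (TM0.eval M x).Dom) :
    ∃ os : List (Option Γ), os ≠ [] ∧ os.filterMap id = x ∧
      ReflTransGen (RStep (Rule M)) [S] (os.map out) := by
  have h1 : (StateTransition.eval (TM0.step M) (TM0.init x)).Dom := h
  obtain ⟨d, hd⟩ := Part.dom_iff_mem.1 h1
  rw [StateTransition.mem_eval] at hd
  obtain ⟨k, hk⟩ := exists_haltsIn M hd.1 hd.2
  have h2 := sim_complete M k default (List.replicate (k + 1) padC) (initC x)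
    (initR x ++ List.replicate k padC) (by simp) (by simp) (by rw [tp_init]; exact hk)
  have h3 := (derive_init M k k x).trans h2
  refine ⟨_, ?_, ?_, h3⟩
  · simp
  · cases x with
    | nil => simp [padC, initC, initR]
    | cons a y => simp [padC, initC, initR, Function.comp_def]

/-! ### Soundness: derivations give halting computations -/

/-- The invariant of derivations. -/
inductive Inv (M : TM0.Machine Γ Λ) : List (GS Γ Λ) → Prop
  | i1 (r : ℕ) : Inv M (S :: (List.replicate r padC).map pc)
  | i2 (y : List Γ) (r : ℕ) :
      Inv M (A :: (y.map (fun a => (some a, a)) ++ List.replicate r padC).map pc)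
  | i3 (pre : List (GS Γ Λ)) (q : Λ) (l : List (Option Γ × Γ)) (c : Option Γ × Γ)
      (r : List (Option Γ × Γ)) (x : List Γ) (hpre : pre = [] ∨ pre = [L])
      (hx : (l.reverse.map Prod.fst ++ c.1 :: r.map Prod.fst).filterMap id = x)
      (hreach : ReflTransGen (fun a b => b ∈ TM0.step M a) (TM0.init x) ⟨q, tp l c r⟩) :
      Inv M (pre ++ str q l c r)
  | i4 (pre z : List (GS Γ Λ)) (x : List Γ) (os : List (Option Γ)) (hpre : pre = [] ∨ pre = [L])
      (hz : List.Forall₂ (fun s o => s = out o ∨ ∃ t, s = cell o t none) z os)
      (hx : os.filterMap id = x) (hhalt : (TM0.eval M x).Dom) : Inv M (pre ++ z)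

theorem tp_pad (l : List (Option Γ × Γ)) (c : Option Γ × Γ) (r : List (Option Γ × Γ)) :
    tp (l ++ [padC]) c r = tp l c r := by
  unfold tp
  congr 1
  have := mk_append_replicate (l.map Prod.snd) 1
  simpa [padC] using this

theorem forall₂_replace {α β : Type*} {P : α → β → Prop} {a u v b : List α} {os : List β}
    (h : List.Forall₂ P (a ++ u ++ b) os) (huv : ∀ ou, List.Forall₂ P u ou → List.Forall₂ P v ou) :
    List.Forall₂ P (a ++ v ++ b) os := by
  rw [List.append_assoc] at h ⊢
  induction a generalizing os with
  | nil =>
    simp only [List.nil_append] at h ⊢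
    rw [List.forall₂_iff_zip] at h
    have h2 := List.forall₂_iff_zip.2 h
    obtain ⟨o1, o2, h3, h4, rfl⟩ : ∃ o1 o2, List.Forall₂ P u o1 ∧ List.Forall₂ P b o2 ∧
        o1 ++ o2 = os := by
      refine ⟨os.take u.length, os.drop u.length, ?_, ?_, List.take_append_drop _ _⟩
      · have := List.forall₂_take_append os u b h2.flip
        exact this.flip
      · have := List.forall₂_drop_append os u b h2.flip
        exact this.flip
    exact List.rel_append (huv _ h3) h4
  | cons x a ih =>
    cases os with
    | nil => simp at h
    | cons o os =>
      simp only [List.cons_append, List.forall₂_cons] at h ⊢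
      exact ⟨h.1, ih h.2⟩

theorem inv_step (M : TM0.Machine Γ Λ) {z z' : List (GS Γ Λ)} (hz : Inv M z)
    (hs : RStep (Rule M) z z') : Inv M z' := by
  obtain ⟨u, v, hR, a, b, h1, rfl⟩ := hs
  cases hz with
  | i1 r =>
    have hmem : ∀ s ∈ u, s = S ∨ ∃ o t, s = cell o t none := by
      intro s hs
      have : s ∈ S :: (List.replicate r padC).map pc := by rw [h1]; simp [hs]
      simp only [List.mem_cons, List.mem_map] at this
      rcases this with h | ⟨c, _, rfl⟩
      · exact Or.inl h
      · exact Or.inr ⟨_, _, rfl⟩
    have hS : (S : GS Γ Λ) ∉ (List.replicate r padC).map pc := by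
      simp [pc]
    cases hR with
    | s1 =>
      have h2 : [] ++ S :: (List.replicate r padC).map pc = a ++ S :: b := by simpa using h1
      rw [List.append_cons_inj_of_notMem (by simp) hS] at h2
      obtain ⟨rfl, _, rfl⟩ := h2
      have := Inv.i1 (M := M) (r + 1)
      simpa [List.replicate_succ, pc, padC] using this
    | s2 =>
      have h2 : [] ++ S :: (List.replicate r padC).map pc = a ++ S :: b := by simpa using h1
      rw [List.append_cons_inj_of_notMem (by simp) hS] at h2
      obtain ⟨rfl, _, rfl⟩ := h2
      have := Inv.i2 (M := M) [] r
      simpa using this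
    | s3 =>
      have h2 : [] ++ S :: (List.replicate r padC).map pc = a ++ S :: b := by simpa using h1
      rw [List.append_cons_inj_of_notMem (by simp) hS] at h2
      obtain ⟨rfl, _, rfl⟩ := h2
      have := Inv.i3 (M := M) [L] default [] (initC []) (initR [] ++ List.replicate r padC) []
        (Or.inr rfl) (by simp [initC, initR, padC]) (by
          have := tp_init 0 r ([] : List Γ)
          rw [List.replicate_zero] at this
          rw [this]
          exact ReflTransGen.refl)
      simpa [str, initC, initR] using this
    | _ => exfalso; simp at hmem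
  | i2 y r =>
    have hmem : ∀ s ∈ u, s = A ∨ ∃ o t, s = cell o t none := by
      intro s hs
      have : s ∈ A :: (y.map (fun a => (some a, a)) ++ List.replicate r padC).map pc := by
        rw [h1]; simp [hs]
      simp only [List.mem_cons, List.mem_map] at this
      rcases this with h | ⟨c, _, rfl⟩
      · exact Or.inl h
      · exact Or.inr ⟨_, _, rfl⟩
    have hA : (A : GS Γ Λ) ∉
        (y.map (fun a => (some a, a)) ++ List.replicate r padC).map pc := by
      simp [pc]
    cases hR with
    | a1 g =>
      have h2 : [] ++ A ::
        (y.map (fun a => (some a, a)) ++ List.replicate r padC).map pc = a ++ A :: b := by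
          simpa using h1
      rw [List.append_cons_inj_of_notMem (by simp) hA] at h2
      obtain ⟨rfl, _, rfl⟩ := h2
      have := Inv.i2 (M := M) (g :: y) r
      simpa [pc] using this
    | a2 g =>
      have h2 : [] ++ A ::
        (y.map (fun a => (some a, a)) ++ List.replicate r padC).map pc = a ++ A :: b := by
          simpa using h1
      rw [List.append_cons_inj_of_notMem (by simp) hA] at h2
      obtain ⟨rfl, _, rfl⟩ := h2
      have := Inv.i3 (M := M) [L] default [] (initC (g :: y))
        (initR (g :: y) ++ List.replicate r padC) (g :: y)
        (Or.inr rfl) (by simp [initC, initR, padC, Function.comp_def]) (by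
          have := tp_init 0 r (g :: y)
          rw [List.replicate_zero] at this
          rw [this]
          exact ReflTransGen.refl)
      simpa [str, initC, initR] using this
    | _ => exfalso; simp at hmem
  | i3 pre q l c r x hpre hx hreach =>
    have hpl : ∀ (w : List (Option Γ × Γ)), ∀ s ∈ (w.map pc : List (GS Γ Λ)),
        ∃ o t, s = cell o t none := by
      intro w s hs
      simp only [List.mem_map] at hs
      obtain ⟨c, _, rfl⟩ := hs
      exact ⟨_, _, rfl⟩
    have hmem : ∀ s ∈ u, s = L ∨ (∃ o t, s = cell o t none) ∨ ∃ o t q, s = cell o t (some q) := by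
      intro s hs
      have : s ∈ pre ++ str q l c r := by rw [h1]; simp [hs]
      simp only [str, List.mem_append, List.mem_cons] at this
      rcases this with h | h | h | h
      · rcases hpre with rfl | rfl
        · simp at h
        · left; simpa using h
      · right; left; exact hpl _ _ h
      · right; right; exact ⟨_, _, _, h⟩
      · right; left; exact hpl _ _ h
    have hhead : ∀ o t q', (cell o t (some q') : GS Γ Λ) ∉ pre ++ l.reverse.map pc := by
      intro o t q' h
      rw [List.mem_append] at h
      rcases h with h | h
      · rcases hpre with rfl | rfl <;> simp at h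
      · obtain ⟨_, _, h⟩ := hpl _ _ h
        simp at h
    have hhead2 : ∀ o t q', (cell o t (some q') : GS Γ Λ) ∉ (r.map pc : List (GS Γ Λ)) := by
      intro o t q' h
      obtain ⟨_, _, h⟩ := hpl _ _ h
      simp at h
    have hLs : (L : GS Γ Λ) ∉ str q l c r := by
      intro h
      simp only [str, List.mem_append, List.mem_cons] at h
      rcases h with h | h | h
      · obtain ⟨_, _, h⟩ := hpl _ _ h; simp at h
      · simp at h
      · obtain ⟨_, _, h⟩ := hpl _ _ h; simp at h
    have hMhead : (tp l c r).1 = c.2 := by simp [tp, Tape.mk']
    cases hR with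
    | l1 =>
      rcases hpre with rfl | rfl
      · exfalso
        apply hLs
        rw [List.nil_append] at h1
        rw [h1]; simp
      · have h2 : [] ++ L :: str q l c r = a ++ L :: b := by simpa using h1
        rw [List.append_cons_inj_of_notMem (by simp) hLs] at h2
        obtain ⟨rfl, _, rfl⟩ := h2
        have := Inv.i3 (M := M) [L] q (l ++ [padC]) c r x (Or.inr rfl)
          (by simpa [padC] using hx) (by rw [tp_pad]; exact hreach)
        simpa [str, pc, padC] using this
    | l2 =>
      rcases hpre with rfl | rfl
      · exfalso
        apply hLs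
        rw [List.nil_append] at h1
        rw [h1]; simp
      · have h2 : [] ++ L :: str q l c r = a ++ L :: b := by simpa using h1
        rw [List.append_cons_inj_of_notMem (by simp) hLs] at h2
        obtain ⟨rfl, _, rfl⟩ := h2
        have := Inv.i3 (M := M) [] q (l ++ [padC]) c r x (Or.inl rfl)
          (by simpa [padC] using hx) (by rw [tp_pad]; exact hreach)
        simpa [str, pc, padC] using this
    | halt o t q2 hM =>
      have h2 : (pre ++ l.reverse.map pc) ++ cell c.1 c.2 (some q) :: r.map pc =
          a ++ cell o t (some q2) :: b := by
        simpa [str] using h1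
      rw [List.append_cons_inj_of_notMem (hhead _ _ _) (hhead2 _ _ _)] at h2
      obtain ⟨h3, h4, h5⟩ := h2
      subst h3; subst h5
      injection h4 with h6 h7 h8
      injection h8 with h8
      subst h6; subst h7; subst h8
      have h9 : TM0.step M ⟨q, tp l c r⟩ = none := by
        simp only [TM0.step, hMhead, hM, Option.map_none]
      have h10 : (TM0.eval M x).Dom := by
        have : (StateTransition.eval (TM0.step M) (TM0.init x)).Dom :=
          Part.dom_iff_mem.2 ⟨_, StateTransition.mem_eval.2 ⟨hreach, h9⟩⟩
        exact this
      have := Inv.i4 (M := M) pre (l.reverse.map pc ++ out c.1 :: r.map pc) x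
        (l.reverse.map Prod.fst ++ c.1 :: r.map Prod.fst) hpre (by
          have h11 : ∀ w : List (Option Γ × Γ), List.Forall₂
            (fun (s : GS Γ Λ) o => s = out o ∨ ∃ t, s = cell o t none) (w.map pc)
              (w.map Prod.fst) := by
            intro w
            induction w with
            | nil => simp
            | cons d w ih =>
              simp only [List.map_cons, List.forall₂_cons]
              exact ⟨Or.inr ⟨_, rfl⟩, ih⟩
          exact List.rel_append (h11 _) (List.Forall₂.cons (Or.inl rfl) (h11 _))) hx h10
      simpa using this
    | write o t t' q2 q' hM =>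
      have h2 : (pre ++ l.reverse.map pc) ++ cell c.1 c.2 (some q) :: r.map pc =
          a ++ cell o t (some q2) :: b := by
        simpa [str] using h1
      rw [List.append_cons_inj_of_notMem (hhead _ _ _) (hhead2 _ _ _)] at h2
      obtain ⟨h3, h4, h5⟩ := h2
      subst h3; subst h5
      injection h4 with h6 h7 h8
      injection h8 with h8
      subst h6; subst h7; subst h8
      have h9 : TM0.step M ⟨q, tp l c r⟩ = some ⟨q', tp l (c.1, t') r⟩ := by
        simp only [TM0.step, hMhead, hM, Option.map_some]
        simp [tp]
      have := Inv.i3 (M := M) pre q' l (c.1, t') r x hpre hx (hreach.tail h9)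
      simpa [str] using this
    | right o o' t t' q2 q' hM =>
      have h2 : (pre ++ l.reverse.map pc) ++ cell c.1 c.2 (some q) :: r.map pc =
          a ++ cell o t (some q2) :: (cell o' t' none :: b) := by
        simpa [str] using h1
      rw [List.append_cons_inj_of_notMem (hhead _ _ _) (hhead2 _ _ _)] at h2
      obtain ⟨h3, h4, h5⟩ := h2
      cases r with
      | nil => simp at h5
      | cons d r =>
        simp only [List.map_cons, List.cons.injEq] at h5
        obtain ⟨h5, h5'⟩ := h5
        subst h3; subst h5'
        injection h5 with h51 h52 _
        subst h51; subst h52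
        injection h4 with h6 h7 h8
        injection h8 with h8
        subst h6; subst h7; subst h8
        have h9 : TM0.step M ⟨q, tp l c (d :: r)⟩ = some ⟨q', tp (c :: l) d r⟩ := by
          simp only [TM0.step, hMhead, hM, Option.map_some]
          simp [tp]
        have := Inv.i3 (M := M) pre q' (c :: l) d r x hpre (by
          rw [← hx]; simp only [List.reverse_cons, List.map_append, List.map_cons, List.map_nil,
            List.append_assoc, List.cons_append, List.nil_append]) (hreach.tail h9)
        simpa [str, pc] using this
    | left o o' t t' q2 q' hM =>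
      have h2 : (pre ++ l.reverse.map pc) ++ cell c.1 c.2 (some q) :: r.map pc =
          (a ++ [cell o' t' none]) ++ cell o t (some q2) :: b := by
        simpa [str] using h1
      rw [List.append_cons_inj_of_notMem (hhead _ _ _) (hhead2 _ _ _)] at h2
      obtain ⟨h3, h4, h5⟩ := h2
      cases l with
      | nil =>
        exfalso
        rcases hpre with rfl | rfl
        · simp at h3
        · have h6 := congrArg List.getLast? h3
          simp at h6
      | cons d l =>
        have h3a : (pre ++ l.reverse.map pc) ++ [pc d] = a ++ [cell o' t' none] := by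
          simpa using h3
        have h3b := List.append_inj_right' h3a (by simp)
        have h3c := List.append_inj_left' h3a (by simp)
        subst h3c; subst h5
        simp only [List.cons.injEq, and_true] at h3b
        injection h3b with h51 h52 _
        subst h51; subst h52
        injection h4 with h6 h7 h8
        injection h8 with h8
        subst h6; subst h7; subst h8
        have h9 : TM0.step M ⟨q, tp (d :: l) c r⟩ = some ⟨q', tp l d (c :: r)⟩ := by
          simp only [TM0.step, hMhead, hM, Option.map_some]
          simp [tp]
        have := Inv.i3 (M := M) pre q' l d (c :: r) x hpre (by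
          rw [← hx]; simp only [List.reverse_cons, List.map_append, List.map_cons, List.map_nil,
            List.append_assoc, List.cons_append, List.nil_append]) (hreach.tail h9)
        simpa [str, pc] using this
    | _ => exfalso; simp at hmem
  | i4 pre z x os hpre hz hx hhalt =>
    have hzm : ∀ s ∈ z, (∃ o, s = out o) ∨ ∃ o t, s = cell o t none := by
      clear h1 hx
      induction hz with
      | nil => simp
      | cons h _ ih =>
        intro s hs
        rcases List.mem_cons.1 hs with rfl | hs
        · rcases h with h | ⟨t, h⟩
          · exact Or.inl ⟨_, h⟩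
          · exact Or.inr ⟨_, _, h⟩
        · exact ih s hs
    have hmem : ∀ s ∈ u, s = L ∨ (∃ o, s = out o) ∨ ∃ o t, s = cell o t none := by
      intro s hs
      have : s ∈ pre ++ z := by rw [h1]; simp [hs]
      rcases List.mem_append.1 this with h | h
      · rcases hpre with rfl | rfl
        · simp at h
        · left; simpa using h
      · right; exact hzm s h
    have hLs : (L : GS Γ Λ) ∉ z := by
      intro h
      rcases hzm _ h with ⟨_, h⟩ | ⟨_, _, h⟩ <;> simp at h
    have key : L ∉ u → ∀ (P : List (GS Γ Λ) → Prop), (∀ a', z = a' ++ u ++ b → a = pre ++ a' →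
        P (pre ++ (a' ++ v ++ b))) → u ≠ [] → P (a ++ v ++ b) := by
      intro hLu P hP hu
      rcases hpre with rfl | rfl
      · have := hP a (by simpa using h1) rfl
        simpa using this
      · cases a with
        | nil =>
          exfalso
          cases u with
          | nil => exact hu rfl
          | cons s u =>
            simp only [List.nil_append, List.cons_append, List.cons.injEq] at h1
            rw [← h1.1] at hLu
            simp at hLu
        | cons s a =>
          simp only [List.cons_append, List.nil_append, List.cons.injEq] at h1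
          obtain ⟨rfl, h1⟩ := h1
          have := hP a (by simpa using h1) rfl
          simpa using this
    cases hR with
    | l1 =>
      rcases hpre with rfl | rfl
      · exfalso
        apply hLs
        rw [List.nil_append] at h1
        rw [h1]; simp
      · have h2 : [] ++ L :: z = a ++ L :: b := by simpa using h1
        rw [List.append_cons_inj_of_notMem (by simp) hLs] at h2
        obtain ⟨rfl, _, rfl⟩ := h2
        have := Inv.i4 (M := M) [L] (cell none default none :: z) x (none :: os) (Or.inr rfl)
          (List.Forall₂.cons (Or.inr ⟨_, rfl⟩) hz) (by simpa using hx) hhalt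
        simpa using this
    | l2 =>
      rcases hpre with rfl | rfl
      · exfalso
        apply hLs
        rw [List.nil_append] at h1
        rw [h1]; simp
      · have h2 : [] ++ L :: z = a ++ L :: b := by simpa using h1
        rw [List.append_cons_inj_of_notMem (by simp) hLs] at h2
        obtain ⟨rfl, _, rfl⟩ := h2
        have := Inv.i4 (M := M) [] (cell none default none :: z) x (none :: os) (Or.inl rfl)
          (List.Forall₂.cons (Or.inr ⟨_, rfl⟩) hz) (by simpa using hx) hhalt
        simpa using this
    | sr o o' t' =>
      refine key (by simp) (Inv M) (fun a' h2 _ => ?_) (by simp)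
      refine Inv.i4 pre _ x os hpre ?_ hx hhalt
      rw [h2] at hz
      refine forall₂_replace hz ?_
      intro ou hou
      cases hou with
      | cons h1 hou =>
        cases hou with
        | cons h2 hou =>
          cases hou
          refine List.Forall₂.cons h1 (List.Forall₂.cons ?_ List.Forall₂.nil)
          rcases h2 with h2 | ⟨t, h2⟩
          · simp at h2
          · left; injection h2 with h3 _ _; rw [h3]
    | sl o o' t' =>
      refine key (by simp) (Inv M) (fun a' h2 _ => ?_) (by simp)
      refine Inv.i4 pre _ x os hpre ?_ hx hhalt
      rw [h2] at hz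
      refine forall₂_replace hz ?_
      intro ou hou
      cases hou with
      | cons h2 hou =>
        cases hou with
        | cons h1 hou =>
          cases hou
          refine List.Forall₂.cons ?_ (List.Forall₂.cons h1 List.Forall₂.nil)
          rcases h2 with h2 | ⟨t, h2⟩
          · simp at h2
          · left; injection h2 with h3 _ _; rw [h3]
    | _ => exfalso; simp at hmem

theorem inv_reach (M : TM0.Machine Γ Λ) {z : List (GS Γ Λ)}
    (h : ReflTransGen (RStep (Rule M)) [S] z) : Inv M z := by
  induction h with
  | refl => simpa using Inv.i1 (M := M) 0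
  | tail _ hs ih => exact inv_step M ih hs

theorem sound (M : TM0.Machine Γ Λ) (os : List (Option Γ))
    (h : ReflTransGen (RStep (Rule M)) [S] (os.map out)) :
    (TM0.eval M (os.filterMap id)).Dom := by
  have h1 := inv_reach M h
  generalize hz : (os.map out : List (GS Γ Λ)) = z at h1
  have hmem : ∀ s ∈ z, ∃ o, s = out o := by
    intro s hs
    rw [← hz, List.mem_map] at hs
    obtain ⟨o, _, rfl⟩ := hs
    exact ⟨o, rfl⟩
  cases h1 with
  | i1 r => obtain ⟨_, h⟩ := hmem S (by simp); simp at h
  | i2 y r => obtain ⟨_, h⟩ := hmem A (by simp); simp at h
  | i3 pre q l c r x hpre hx hreach =>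
    obtain ⟨_, h⟩ := hmem (cell c.1 c.2 (some q)) (by simp [str]); simp at h
  | i4 pre z x os' hpre hz' hx hhalt =>
    have hpre' : pre = [] := by
      rcases hpre with h | rfl
      · exact h
      · obtain ⟨_, h⟩ := hmem L (by simp); simp at h
    subst hpre'
    rw [List.nil_append] at hz
    have : os = os' := by
      subst hz
      rw [List.forall₂_map_left_iff] at hz'
      have h2 : List.Forall₂ (fun a b : Option Γ => a = b) os os' := by
        refine hz'.imp ?_
        rintro a b (h | ⟨t, h⟩)
        · injection h
        · simp at h
      exact List.forall₂_eq_eq_eq ▸ h2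
    rw [this, hx]
    exact hhalt

end Pool.Agent.Helper99.CFA
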