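import Pool.Agent.Helper99.CFADefs
import Pool.Agent.Helper99.CFASim

/-! Transfer of the simulating rewriting system to a noncontracting grammar over `ℕ`. -/

namespace Pool.Agent.Helper99.CFA

open Turing Relation

variable {Γ Λ : Type} [Inhabited Γ] [Inhabited Λ]

theorem rule_len (M : TM0.Machine Γ Λ) {u v : List (GS Γ Λ)} (h : Rule M u v) :
    u.length ≤ v.length ∧ u.length ≤ 2 ∧ v.length ≤ 2 := by
  cases h <;> simp

theorem rule_nt (M : TM0.Machine Γ Λ) {u v : List (GS Γ Λ)} (h : Rule M u v) :
    ∃ s ∈ u, ∀ o, s ≠ GS.out o := by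
  cases h <;> simp

instance [Finite Γ] [Finite Λ] : Finite (GS Γ Λ) := by
  have : Function.Surjective (fun x : (Unit ⊕ Unit ⊕ Unit) ⊕ (Option Γ × Γ × Option Λ) ⊕ Option Γ =>
      match x with
      | .inl (.inl _) => (GS.S : GS Γ Λ)
      | .inl (.inr (.inl _)) => GS.A
      | .inl (.inr (.inr _)) => GS.L
      | .inr (.inl (o, t, q)) => GS.cell o t q
      | .inr (.inr o) => GS.out o) := by
    intro s
    cases s with
    | S => exact ⟨.inl (.inl ()), rfl⟩
    | A => exact ⟨.inl (.inr (.inl ())), rfl⟩
    | L => exact ⟨.inl (.inr (.inr ())), rfl⟩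
    | cell o t q => exact ⟨.inr (.inl (o, t, q)), rfl⟩
    | out o => exact ⟨.inr (.inr o), rfl⟩
  exact Finite.of_surjective _ this

/-- The halting inputs of a finite machine are a weak coding of a context-sensitive language. -/
theorem halting_weak_coding [Finite Γ] [Finite Λ] (M : TM0.Machine Γ Λ) (code : Γ → ℕ) :
    ∃ K ∈ CS, ∃ h : ℕ → Option ℕ,
      {w' | ∃ w ∈ K, w.filterMap h = w'} = {w | ∃ x, (TM0.eval M x).Dom ∧ x.map code = w} := by
  classical
  obtain ⟨e, he⟩ : ∃ e : GS Γ Λ → ℕ, Function.Injective e := exists_injective_nat _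
  obtain ⟨e', he'⟩ : ∃ e : Option Γ → ℕ, Function.Injective e := exists_injective_nat _
  let f : GS Γ Λ → ℕ ⊕ ℕ := fun s => match s with
    | .out o => Sum.inr (e' o)
    | s => Sum.inl (e s)
  have hfout : ∀ o, f (.out o) = Sum.inr (e' o) := fun o => rfl
  have hfnt : ∀ s, (∀ o, s ≠ GS.out o) → f s = Sum.inl (e s) := by
    intro s hs
    cases s <;> first | rfl | exact absurd rfl (hs _)
  have hf : Function.Injective f := by
    intro s t hst
    by_cases h1 : ∃ o, s = GS.out o
    · obtain ⟨o, rfl⟩ := h1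
      by_cases h2 : ∃ o, t = GS.out o
      · obtain ⟨o', rfl⟩ := h2
        rw [hfout, hfout] at hst
        rw [he' (Sum.inr_injective hst)]
      · push Not at h2
        rw [hfout, hfnt t h2] at hst
        simp at hst
    · push Not at h1
      by_cases h2 : ∃ o, t = GS.out o
      · obtain ⟨o', rfl⟩ := h2
        rw [hfout, hfnt s h1] at hst
        simp at hst
      · push Not at h2
        rw [hfnt s h1, hfnt t h2] at hst
        exact he (Sum.inl_injective hst)
  have hmapinj : Function.Injective (List.map f) := List.map_injective_iff.2 hf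
  -- the rules
  have hfin : {r : List (ℕ ⊕ ℕ) × List (ℕ ⊕ ℕ) | ∃ u v, Rule M u v ∧ r = (u.map f, v.map f)}.Finite := by
    have h1 : ({l : List (GS Γ Λ) | l.length ≤ 2}).Finite := List.finite_length_le _ _
    refine ((h1.prod h1).image (fun p => (p.1.map f, p.2.map f))).subset ?_
    rintro r ⟨u, v, hr, rfl⟩
    exact ⟨(u, v), ⟨(rule_len M hr).2.1, (rule_len M hr).2.2⟩, rfl⟩
  let G : Grammar := ⟨e GS.S, hfin.toFinset⟩
  have hGR : ∀ r, r ∈ G.R ↔ ∃ u v, Rule M u v ∧ r = (u.map f, v.map f) := by
    intro r; simp only [G, Set.Finite.mem_toFinset, Set.mem_setOf_eq]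
  have hnc : G.Noncontracting := by
    intro r hr
    obtain ⟨u, v, huv, rfl⟩ := (hGR r).1 hr
    constructor
    · obtain ⟨s, hs, hs2⟩ := rule_nt M huv
      exact ⟨e s, by rw [← hfnt s hs2]; exact List.mem_map_of_mem hs⟩
    · simpa using (rule_len M huv).1
  have hS : [Sum.inl G.S] = [GS.S].map f := by
    simp [hfnt GS.S (by simp), G]
  -- forward simulation
  have fwd : ∀ x y, ReflTransGen (RStep (Rule M)) x y →
      ReflTransGen G.Step (x.map f) (y.map f) := by
    intro x y h
    induction h with
    | refl => exact ReflTransGen.refl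
    | tail _ h ih =>
      obtain ⟨u, v, hR, a, b, rfl, rfl⟩ := h
      refine ih.tail ⟨(u.map f, v.map f), (hGR _).2 ⟨u, v, hR, rfl⟩, a.map f, b.map f, ?_, ?_⟩
      · simp
      · simp
  have bwd : ∀ x y, ReflTransGen G.Step ((x : List (GS Γ Λ)).map f) y →
      ∃ z, y = z.map f ∧ ReflTransGen (RStep (Rule M)) x z := by
    intro x y h
    induction h with
    | refl => exact ⟨x, rfl, ReflTransGen.refl⟩
    | tail _ h ih =>
      obtain ⟨z, rfl, hz⟩ := ih
      obtain ⟨r, hr, α, β, h1, rfl⟩ := h
      obtain ⟨u, v, huv, rfl⟩ := (hGR r).1 hr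
      simp only at h1
      obtain ⟨z1, b, rfl, h2, rfl⟩ := List.map_eq_append_iff.1 h1
      obtain ⟨a, u', rfl, rfl, h3⟩ := List.map_eq_append_iff.1 h2
      have h4 := hmapinj h3
      subst h4
      exact ⟨a ++ v ++ b, by simp, hz.tail ⟨u', v, huv, a, b, rfl, rfl⟩⟩
  have hlang : ∀ w, w ∈ G.lang ↔ ∃ os : List (Option Γ), w = os.map e' ∧
      ReflTransGen (RStep (Rule M)) [GS.S] (os.map GS.out) := by
    intro w
    constructor
    · intro h
      have h' : ReflTransGen G.Step ([GS.S].map f) (w.map Sum.inr) := by rw [← hS]; exact h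
      obtain ⟨z, hz, hz2⟩ := bwd _ _ h'
      have h5 : ∃ os : List (Option Γ), z = os.map GS.out ∧ w = os.map e' := by
        clear hz2 h h'
        induction z generalizing w with
        | nil => exact ⟨[], rfl, by simpa using hz⟩
        | cons s z ih =>
          cases w with
          | nil => simp at hz
          | cons c w =>
            simp only [List.map_cons, List.cons.injEq] at hz
            obtain ⟨os, rfl, rfl⟩ := ih w hz.2
            by_cases h1 : ∃ o, s = GS.out o
            · obtain ⟨o, rfl⟩ := h1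
              refine ⟨o :: os, rfl, ?_⟩
              rw [hfout] at hz
              rw [List.map_cons, Sum.inr_injective hz.1]
            · push Not at h1
              rw [hfnt s h1] at hz
              simp at hz
      obtain ⟨os, rfl, rfl⟩ := h5
      exact ⟨os, rfl, hz2⟩
    · rintro ⟨os, rfl, h⟩
      have := fwd _ _ h
      rw [← hS] at this
      show ReflTransGen G.Step _ _
      convert this using 1
      simp [hfout]
  let h : ℕ → Option ℕ := fun n => if hn : ∃ o : Option Γ, e' o = n then hn.choose.map code else none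
  have hh : ∀ o, h (e' o) = o.map code := by
    intro o
    have h1 : ∃ o' : Option Γ, e' o' = e' o := ⟨o, rfl⟩
    simp only [h, dif_pos h1]
    rw [he' h1.choose_spec]
  have hh2 : ∀ os : List (Option Γ), (os.map e').filterMap h = (os.filterMap id).map code := by
    intro os
    induction os with
    | nil => rfl
    | cons o os ih =>
      rw [List.map_cons, List.filterMap_cons, hh]
      cases o with
      | none => simpa using ih
      | some a => simpa using ih
  refine ⟨G.lang, ⟨G, hnc, fun w _ => Iff.rfl⟩, h, ?_⟩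
  ext w'
  constructor
  · rintro ⟨w, hw, rfl⟩
    obtain ⟨os, rfl, hos⟩ := (hlang w).1 hw
    exact ⟨os.filterMap id, sound M os hos, (hh2 os).symm⟩
  · rintro ⟨x, hx, rfl⟩
    obtain ⟨os, _, hos, hos2⟩ := complete M x hx
    refine ⟨os.map e', (hlang _).2 ⟨os, rfl, hos2⟩, ?_⟩
    rw [hh2, hos]

end Pool.Agent.Helper99.CFA
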