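import Pool.Agent.Helper99.CFADefs
import Pool.Agent.Helper99.CFAClosure
import Pool.Agent.Helper99.CFASim
import Pool.Agent.Helper99.CFATransfer
import Pool.Agent.Helper99.CFADecide
import Pool.Agent.Helper99.CFAChain

/-! The context-sensitive languages are not closed under weak codings; no family `𝓛` satisfies
`SCFA(𝓛) = CS`. -/

namespace Pool.Agent.Helper99.CFA

open Turing Relation PartrecToTM2

/-- Binary digits, least significant first. -/
def bits (c0 c1 : ℕ) (n : ℕ) : List ℕ :=
  if h : n = 0 then [] else (if n % 2 = 0 then c0 else c1) :: bits c0 c1 (n / 2)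
termination_by n
decreasing_by omega

theorem bits_zero (c0 c1 : ℕ) : bits c0 c1 0 = [] := by rw [bits]; simp

theorem bits_two_mul (c0 c1 n : ℕ) (h : n ≠ 0) : bits c0 c1 (2 * n) = c0 :: bits c0 c1 n := by
  conv_lhs => rw [bits]
  rw [dif_neg (by omega), if_pos (by omega)]
  congr 2
  omega

theorem bits_two_mul_add_one (c0 c1 n : ℕ) : bits c0 c1 (2 * n + 1) = c1 :: bits c0 c1 n := by
  conv_lhs => rw [bits]
  rw [dif_neg (by omega), if_neg (by omega)]
  congr 2
  omega

theorem primrec_bits (c0 c1 : ℕ) : Primrec (bits c0 c1) := by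
  have h1 : Primrec₂ fun (_ : Unit) (n : ℕ) => bits c0 c1 n := by
    refine Primrec.nat_strong_rec _ (g := fun (_ : Unit) (l : List (List ℕ)) =>
      if l.length = 0 then some [] else
        some ((if l.length % 2 = 0 then c0 else c1) :: (l[l.length / 2]?.getD []))) ?_ ?_
    · have hl : Primrec fun (p : Unit × List (List ℕ)) => p.2.length :=
        Primrec.list_length.comp Primrec.snd
      refine Primrec.ite (Primrec.eq.comp hl (Primrec.const 0)) (Primrec.const _) ?_
      refine Primrec.option_some.comp (Primrec.list_cons.comp ?_ ?_)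
      · exact Primrec.ite (Primrec.eq.comp (Primrec.nat_mod.comp hl (Primrec.const 2))
          (Primrec.const 0)) (Primrec.const _) (Primrec.const _)
      · exact Primrec.option_getD.comp (Primrec.list_getElem?.comp Primrec.snd
          (Primrec.nat_div.comp hl (Primrec.const 2))) (Primrec.const [])
    · intro _ n
      rcases Nat.eq_zero_or_pos n with rfl | hn
      · simp [bits_zero]
      · have h2 : n ≠ 0 := by omega
        simp only [List.length_map, List.length_range, h2, if_false]
        rw [bits, dif_neg h2]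
        have h3 : n / 2 < n := by omega
        simp [h3]
  exact h1.comp (Primrec.const ()) Primrec.id

theorem bits_pos (c : PartrecToTM2.Γ' → ℕ) (p : PosNum) :
    bits (c PartrecToTM2.Γ'.bit0) (c PartrecToTM2.Γ'.bit1) (p : ℕ) = (trPosNum p).map c := by
  induction p with
  | one =>
    rw [trPosNum, PosNum.cast_one', show (1 : ℕ) = 2 * 0 + 1 by rfl, bits_two_mul_add_one, bits_zero]
    rfl
  | bit0 p ih =>
    have h : ((PosNum.bit0 p : PosNum) : ℕ) = 2 * (p : ℕ) := by
      rw [PosNum.cast_bit0]; omega
    rw [h, bits_two_mul _ _ _ (by have := PosNum.cast_pos (α := ℕ) p; omega), ih]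
    rfl
  | bit1 p ih =>
    have h : ((PosNum.bit1 p : PosNum) : ℕ) = 2 * (p : ℕ) + 1 := by
      rw [PosNum.cast_bit1]; omega
    rw [h, bits_two_mul_add_one, ih]
    rfl

theorem bits_nat (c : PartrecToTM2.Γ' → ℕ) (n : ℕ) :
    bits (c PartrecToTM2.Γ'.bit0) (c PartrecToTM2.Γ'.bit1) n = (trNat n).map c := by
  rw [trNat]
  conv_lhs => rw [← Num.to_of_nat n]
  cases (n : Num) with
  | zero =>
    rw [show ((Num.zero : Num) : ℕ) = 0 from rfl, bits_zero]; rfl
  | pos p =>
    rw [show ((Num.pos p : Num) : ℕ) = (p : ℕ) from rfl, bits_pos]; rfl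

theorem finite_stacks : Finite K' := by
  have h : ({K'.main, K'.rev, K'.aux, K'.stack} : Set K').Finite := Set.toFinite _
  refine Set.finite_univ_iff.1 (h.subset ?_)
  intro k _
  cases k <;> simp

theorem finite_stackAlph : Finite (TM2to1.Γ' K' (fun _ => PartrecToTM2.Γ')) := by
  have := finite_stacks
  unfold TM2to1.Γ'
  infer_instance

/-- The coded initial tape contents. -/
noncomputable def tapeCode (code : TM2to1.Γ' K' (fun _ => PartrecToTM2.Γ') → ℕ) (n : ℕ) : List ℕ :=
  (TM2to1.trInit K'.main (trList [n])).map code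

theorem primrec_tapeCode (code : TM2to1.Γ' K' (fun _ => PartrecToTM2.Γ') → ℕ) :
    Primrec (tapeCode code) := by
  have hF : Primrec fun n : ℕ =>
      code (true, Function.update (fun _ => none) K'.main (some PartrecToTM2.Γ'.cons)) ::
      (bits (code (false, Function.update (fun _ => none) K'.main (some PartrecToTM2.Γ'.bit0)))
      (code (false, Function.update (fun _ => none) K'.main (some PartrecToTM2.Γ'.bit1)))
        n).reverse :=
    Primrec.list_cons.comp (Primrec.const _) (Primrec.list_reverse.comp (primrec_bits _ _))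
  refine hF.of_eq fun n => ?_
  have h1 := bits_nat (fun a : PartrecToTM2.Γ' =>
    code (false, Function.update (fun _ => none) K'.main (some a))) n
  simp only at h1
  rw [h1]
  simp only [tapeCode, TM2to1.trInit, trList, List.reverse_append, List.reverse_cons,
      List.reverse_nil, List.nil_append, List.cons_append, List.map_cons, List.headI_cons,
      List.tail_cons, List.map_reverse, List.map_map]
  rfl

theorem undecidable_of (D : List ℕ → Prop) (F : ℕ → List ℕ) (hF : Primrec F)
    (h : ∀ n, D (F n) ↔
      (Nat.Partrec.Code.eval (Denumerable.ofNat Nat.Partrec.Code n) 0).Dom) :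
    ¬ ComputablePred D := by
  classical
  intro h1
  have h2 : ComputablePred fun c : Nat.Partrec.Code => D (F (Encodable.encode c)) := by
    obtain ⟨_, h3⟩ := h1
    refine ⟨Classical.decPred _, ?_⟩
    refine (h3.comp (hF.comp (Primrec.encode (α := Nat.Partrec.Code))).to_comp).of_eq fun c => ?_
    exact decide_eq_decide.2 Iff.rfl
  refine ComputablePred.halting_problem 0 (h2.of_eq fun c => ?_)
  rw [h]
  simp

/-- Context-sensitive languages are not closed under weak codings. -/
theorem CS_not_closed : ∃ K ∈ CS, ∃ h : ℕ → Option ℕ,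
    {w' | ∃ w ∈ K, w.filterMap h = w'} ∉ CS := by
  have hf : Partrec fun n : ℕ =>
      Nat.Partrec.Code.eval (Denumerable.ofNat Nat.Partrec.Code n) 0 :=
    Nat.Partrec.Code.eval_part.comp (Computable.ofNat Nat.Partrec.Code) (Computable.const 0)
  obtain ⟨Λ, i1, i2, M, hM⟩ := exists_machine _ hf
  have := finite_stackAlph
  obtain ⟨code, hcode⟩ :
      ∃ e : TM2to1.Γ' K' (fun _ => PartrecToTM2.Γ') → ℕ, Function.Injective e :=
    exists_injective_nat _
  obtain ⟨K, hK, h, hKh⟩ := halting_weak_coding M code
  refine ⟨K, hK, h, fun hcs => ?_⟩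
  refine undecidable_of _ (tapeCode code) (primrec_tapeCode code) (fun n => ?_) (computable_CS hcs)
  rw [hKh, ← hM n]
  constructor
  · rintro ⟨x, hx, hx2⟩
    rw [tapeCode] at hx2
    rw [List.map_injective_iff.2 hcode hx2] at hx
    exact hx
  · intro hx
    exact ⟨_, hx, rfl⟩

/-- No family of languages is a family of control languages characterizing `CS`. -/
theorem main (𝓛 : Family) : SCFA 𝓛 ≠ CS := by
  intro h
  obtain ⟨K, hK, g, hg⟩ := CS_not_closed
  exact hg (h ▸ SCFA_closed 𝓛 K (h ▸ hK) g)

end Pool.Agent.Helper99.CFA
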