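import Mathlib

/-! Definitions: eventually macro-uniform functions and emu-boundedness of `κ`-balleans of groups. -/

namespace Pool.Agent.Helper99.Emu

open Cardinal

/-- `f : G → ℝ` is eventually macro-uniform for the `κ`-ballean of the group `G`: for every
`F ⊆ G` with `|F| < κ` there is `B ⊆ G` with `|B| < κ` and `sup_{x ∉ B} diam f(F x) < ∞`. -/
def EventuallyMacroUniform (κ : Cardinal.{0}) {G : Type} [Group G] (f : G → ℝ) : Prop :=
  ∀ F : Set G, #F < κ → ∃ B : Set G, #B < κ ∧
    (⨆ x ∈ Bᶜ, Metric.ediam (f '' ((fun g => g * x) '' F))) < ⊤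

/-- The `κ`-ballean of the group `G` is emu-bounded: every eventually macro-uniform function
is bounded outside some set of cardinality less than `κ`. -/
def EmuBounded (κ : Cardinal.{0}) (G : Type) [Group G] : Prop :=
  ∀ f : G → ℝ, EventuallyMacroUniform κ f →
    ∃ B : Set G, #B < κ ∧ ∃ C : ℝ, ∀ x ∉ B, |f x| ≤ C

end Pool.Agent.Helper99.Emu
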