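import Mathlib
import Pool.Agent.Helper99.EmuDefs

namespace Pool.Agent.Helper99.Emu

open Cardinal Set

variable {G : Type} [Group G]

theorem cilao {α : Type} (s : Set α) : s.Countable ↔ #s < ℵ₁ := by
  rw [← le_aleph0_iff_set_countable, ← succ_aleph0, Order.lt_succ_iff]

/-- Uniform constant of an eventually macro-uniform function (for `κ = ℵ₁`). -/
theorem exists_uniform (f : G → ℝ) (hf : EventuallyMacroUniform ℵ₁ f) :
    ∃ C : ℝ, ∀ g : G, {x : G | C < |f (g * x) - f x|}.Countable := by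
  by_contra hcon
  push Not at hcon
  choose g hg using fun n : ℕ => hcon (n : ℝ)
  obtain ⟨B, hB, hlt⟩ := hf ({1} ∪ range g) (by
    rw [← cilao]
    exact (countable_singleton _).union (countable_range g))
  rw [← cilao] at hB
  set D := ⨆ x ∈ Bᶜ, Metric.ediam (f '' ((fun g => g * x) '' ({1} ∪ range g))) with hD
  obtain ⟨n, hn⟩ := exists_nat_gt D.toReal
  have hunc := hg n
  obtain ⟨x, hx, hxB⟩ : ∃ x, x ∈ {x : G | (n : ℝ) < |f (g n * x) - f x|} ∧ x ∉ B := by
    by_contra h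
    push Not at h
    exact hunc (hB.mono h)
  have h1 : Metric.ediam (f '' ((fun g => g * x) '' ({1} ∪ range g))) ≤ D :=
    le_iSup₂_of_le (f := fun x (_ : x ∈ Bᶜ) =>
      Metric.ediam (f '' ((fun g => g * x) '' ({1} ∪ range g)))) x hxB le_rfl
  have h2 : edist (f (g n * x)) (f x) ≤
      Metric.ediam (f '' ((fun g => g * x) '' ({1} ∪ range g))) := by
    apply Metric.edist_le_ediam_of_mem
    · exact ⟨g n * x, ⟨g n, Or.inr ⟨n, rfl⟩, rfl⟩, rfl⟩
    · exact ⟨x, ⟨1, Or.inl rfl, by simp⟩, rfl⟩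
  have h3 : edist (f (g n * x)) (f x) ≤ D := h2.trans h1
  have h4 : |f (g n * x) - f x| ≤ D.toReal := by
    rw [← Real.dist_eq, dist_edist]
    exact ENNReal.toReal_mono hlt.ne h3
  have h5 : (n : ℝ) < |f (g n * x) - f x| := hx
  linarith

/-- A union of `ℵ₁` countable sets has size at most `ℵ₁`. -/
theorem mk_biUnion_countable_le {α β : Type} (X : Set α) (hX : #X ≤ ℵ₁) (A : α → Set β)
    (hA : ∀ x ∈ X, (A x).Countable) : #(⋃ x ∈ X, A x) ≤ ℵ₁ := by
  refine (mk_biUnion_le A X).trans ?_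
  refine (mul_le_mul' hX (ciSup_le' (a := ℵ₀) ?_)).trans ?_
  · intro x
    exact (hA x.1 x.2).le_aleph0
  · rw [aleph_mul_aleph0]

theorem not_countable_of_mk {α : Type} {X : Set α} (hX : #X = ℵ₁) : ¬ X.Countable := by
  rw [cilao, hX]
  exact lt_irrefl _

theorem exists_subset_of_not_countable {α : Type} {X : Set α} (hX : ¬ X.Countable) :
    ∃ Y ⊆ X, #Y = ℵ₁ := by
  rw [cilao, not_lt] at hX
  exact le_mk_iff_exists_subset.1 hX

/-- Elementwise commuting sets. -/
theorem step1 (f : G → ℝ) (C : ℝ) (hC : ∀ g : G, {x : G | C < |f (g * x) - f x|}.Countable)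
    (X Y : Set G) (hX : #X ≤ ℵ₁) (hY : ℵ₁ < #Y) (hXY : ∀ x ∈ X, ∀ y ∈ Y, x * y = y * x) :
    ∃ a : ℝ, {x ∈ X | 2 * C < |f x - a|}.Countable := by
  have h1 := mk_biUnion_countable_le X hX (fun x => {y : G | C < |f (x * y) - f y|})
    (fun x _ => hC x)
  obtain ⟨y, hyY, hy⟩ : ∃ y ∈ Y, y ∉ ⋃ x ∈ X, {y : G | C < |f (x * y) - f y|} := by
    by_contra h
    push Not at h
    exact absurd (hY.trans_le ((mk_le_mk_of_subset h).trans h1)) (lt_irrefl _)
  simp only [mem_iUnion, not_exists, mem_setOf_eq, not_lt] at hy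
  refine ⟨f y, (hC y).mono ?_⟩
  rintro x ⟨hxX, hx⟩
  simp only [mem_setOf_eq]
  by_contra hcon
  push Not at hcon
  have h2 := hy x hxX
  rw [hXY x hxX y hyY] at h2
  have h3 : |f x - f y| ≤ 2 * C := by
    have : f x - f y = -(f (y * x) - f x) + (f (y * x) - f y) := by ring
    rw [this]
    refine (abs_add_le _ _).trans ?_
    rw [abs_neg]
    linarith
  linarith

theorem step2 (f : G → ℝ) (C : ℝ) (hC : ∀ g : G, {x : G | C < |f (g * x) - f x|}.Countable)
    (P Y : Set G) (hY : ℵ₁ < #Y) (hXY : ∀ x ∈ P, ∀ y ∈ Y, x * y = y * x) :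
    ∃ a : ℝ, {x ∈ P | 2 * C + 1 < |f x - a|}.Countable := by
  by_contra hcon
  push Not at hcon
  have h1 : ∀ a : ℤ, ∃ X ⊆ {x ∈ P | 2 * C + 1 < |f x - a|}, #X = ℵ₁ := fun a =>
    exists_subset_of_not_countable (hcon a)
  choose X hXP hX using h1
  have h2 : #(⋃ a, X a) ≤ ℵ₁ := by
    refine (mk_iUnion_le X).trans ?_
    have h3 : (⨆ i, #(X i)) ≤ ℵ₁ := ciSup_le' (fun i => (hX i).le)
    refine (mul_le_mul' (mk_le_aleph0 (α := ℤ)) h3).trans ?_
    rw [← aleph_zero, aleph_mul_aleph]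
    simp
  obtain ⟨a, ha⟩ := step1 f C hC (⋃ a, X a) Y h2 hY (by
    intro x hx y hy
    obtain ⟨b, hb⟩ := mem_iUnion.1 hx
    exact hXY x (hXP b hb).1 y hy)
  have h4 : ¬ (X (round a)).Countable := not_countable_of_mk (hX _)
  apply h4
  refine ha.mono ?_
  intro x hx
  have h5 := hXP _ hx
  refine ⟨mem_iUnion.2 ⟨_, hx⟩, ?_⟩
  have h6 : 2 * C + 1 < |f x - round a| := h5.2
  have h7 : |a - round a| ≤ 1 := (abs_sub_round a).trans (by norm_num)
  have h8 : |f x - round a| ≤ |f x - a| + |a - round a| := by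
    have : f x - round a = (f x - a) + (a - round a) := by ring
    rw [this]; exact abs_add_le _ _
  show 2 * C < |f x - a|
  linarith

/-! ### Permutations of `ℕ` supported in a set -/

/-- Permutations fixing all points outside `A`. -/
def SA (A : Set ℕ) : Set (Equiv.Perm ℕ) := {g | ∀ n, n ∉ A → g n = n}

theorem SA_mono {A B : Set ℕ} (h : A ⊆ B) : SA A ⊆ SA B := fun _ hg n hn =>
  hg n (fun hA => hn (h hA))

theorem mk_SA (A : Set ℕ) (hA : A.Infinite) : #(SA A) = 𝔠 := by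
  classical
  have e : Equiv.Perm A ≃ SA A := Equiv.Perm.subtypeEquivSubtypePerm (· ∈ A)
  rw [← mk_congr e]
  haveI : Infinite A := hA.to_subtype
  rw [mk_perm_eq_two_power]
  simp

theorem SA_comm {A : Set ℕ} {x y : Equiv.Perm ℕ} (hx : x ∈ SA A) (hy : y ∈ SA Aᶜ) :
    x * y = y * x := by
  apply Equiv.ext
  intro n
  simp only [Equiv.Perm.mul_apply]
  by_cases hn : n ∈ A
  · have h1 : y n = n := hy n (by simpa using hn)
    rw [h1]
    have h2 : x n ∈ A := by
      by_contra h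
      have h3 := hx _ h
      have h4 := x.injective h3
      rw [h4] at h
      exact h hn
    exact (hy _ (by simpa using h2)).symm
  · have h1 : x n = n := hx n hn
    rw [h1]
    have h2 : y n ∉ A := by
      intro h
      have h3 := hy (y n) (by simpa using h)
      have h4 := y.injective h3
      rw [h4] at h
      exact hn h
    exact hx _ h2

/-- Conjugation moves supports. -/
theorem conj_mem {A : Set ℕ} {a g : Equiv.Perm ℕ} (ha : a ∈ SA A) :
    g⁻¹ * a * g ∈ SA (g ⁻¹' A) := by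
  intro n hn
  simp only [Equiv.Perm.mul_apply]
  rw [ha _ hn]
  simp

/-- Infinite sets can be split. -/
theorem split_infinite {A : Set ℕ} (hA : A.Infinite) :
    ∃ A₁ ⊆ A, A₁.Infinite ∧ (A \ A₁).Infinite := by
  haveI : Infinite A := hA.to_subtype
  obtain ⟨e⟩ : Nonempty (ℕ ⊕ ℕ ≃ A) := by
    rw [← Cardinal.eq]
    simp
  refine ⟨range (fun n : ℕ => (e (Sum.inl n) : ℕ)), ?_, ?_, ?_⟩
  · rintro _ ⟨n, rfl⟩
    exact (e (Sum.inl n)).2
  · apply infinite_range_of_injective
    intro a b h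
    simpa using e.injective (Subtype.ext h)
  · refine Infinite.mono ?_ (infinite_range_of_injective
      (f := fun n : ℕ => (e (Sum.inr n) : ℕ)) ?_)
    · rintro _ ⟨n, rfl⟩
      refine ⟨(e (Sum.inr n)).2, ?_⟩
      rintro ⟨m, hm⟩
      have := e.injective (Subtype.ext hm)
      simp at this
    · intro a b h
      simpa using e.injective (Subtype.ext h)

/-- Two moieties have infinite subsets contained in a common moiety. -/
theorem common_moiety {A A' : Set ℕ} (hA : A.Infinite) (hA' : A'.Infinite) :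
    ∃ A₁ ⊆ A, ∃ A₃ ⊆ A', A₁.Infinite ∧ A₃.Infinite ∧ ((A₁ ∪ A₃)ᶜ).Infinite := by
  obtain ⟨A₁, h1, h2, h3⟩ := split_infinite hA
  obtain ⟨E₁, h4, h5, h6⟩ := split_infinite h3
  by_cases h : (A' \ E₁).Infinite
  · refine ⟨A₁, h1, A' \ E₁, diff_subset, h2, h, h5.mono ?_⟩
    intro n hn
    rintro (h7 | h7)
    · exact (h4 hn).2 h7
    · exact h7.2 hn
  · have h7 : (A' ∩ E₁).Infinite := by
      have h8 : A' = (A' \ E₁) ∪ (A' ∩ E₁) := by
        ext n; by_cases hn : n ∈ E₁ <;> simp [hn]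
      rw [h8, infinite_union] at hA'
      exact hA'.resolve_left h
    refine ⟨A₁, h1, A' ∩ E₁, inter_subset_left, h2, h7, h6.mono ?_⟩
    rintro n ⟨hn1, hn2⟩
    rintro (h9 | h9)
    · exact hn1.2 h9
    · exact hn2 h9.2

theorem SA_not_countable {A : Set ℕ} (hA : A.Infinite) : ¬ (SA A).Countable := by
  intro h
  rw [← le_aleph0_iff_set_countable, mk_SA A hA] at h
  exact absurd h (not_le.2 aleph0_lt_continuum)

theorem bounded_of_lt (h : (ℵ₁ : Cardinal.{0}) < 𝔠) (f : Equiv.Perm ℕ → ℝ) (hf : EventuallyMacroUniform ℵ₁ f) :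
    ∃ B : Set (Equiv.Perm ℕ), B.Countable ∧ ∃ C : ℝ, ∀ x ∉ B, |f x| ≤ C := by
  obtain ⟨C, hC⟩ := exists_uniform f hf
  have h1 : ∀ A : Set ℕ, ∃ a : ℝ, (A.Infinite ∧ Aᶜ.Infinite) →
      {x ∈ SA A | 2 * C + 1 < |f x - a|}.Countable := by
    intro A
    by_cases hA : A.Infinite ∧ Aᶜ.Infinite
    · obtain ⟨a, ha⟩ := step2 f C hC (SA A) (SA Aᶜ) (by rw [mk_SA _ hA.2]; exact h)
        (fun x hx y hy => SA_comm hx hy)
      exact ⟨a, fun _ => ha⟩
    · exact ⟨0, fun h => absurd h hA⟩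
  choose a ha using h1
  have hsub : ∀ A A' : Set ℕ, A ⊆ A' → A.Infinite → A'ᶜ.Infinite →
      |a A - a A'| ≤ 4 * C + 2 := by
    intro A A' hAA hA hA'
    have h2 := ha A ⟨hA, hA'.mono (compl_subset_compl.2 hAA)⟩
    have h3 := ha A' ⟨hA.mono hAA, hA'⟩
    obtain ⟨x, hx1, hx2⟩ : ∃ x ∈ SA A, x ∉ {x ∈ SA A | 2 * C + 1 < |f x - a A|} ∪
        {x ∈ SA A' | 2 * C + 1 < |f x - a A'|} := by
      by_contra hcon
      push Not at hcon
      exact SA_not_countable hA ((h2.union h3).mono hcon)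
    simp only [mem_union, not_or] at hx2
    have h4 : |f x - a A| ≤ 2 * C + 1 := by
      by_contra h
      exact hx2.1 ⟨hx1, not_le.1 h⟩
    have h5 : |f x - a A'| ≤ 2 * C + 1 := by
      by_contra h
      exact hx2.2 ⟨SA_mono hAA hx1, not_le.1 h⟩
    have h6 : a A - a A' = -(f x - a A) + (f x - a A') := by ring
    rw [h6]
    refine (abs_add_le _ _).trans ?_
    rw [abs_neg]
    linarith
  -- a fixed moiety
  obtain ⟨A₀, hA0⟩ : ∃ A₀ : Set ℕ, A₀.Infinite ∧ A₀ᶜ.Infinite := by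
    obtain ⟨A₁, _, h2, h3⟩ := split_infinite (infinite_univ (α := ℕ))
    exact ⟨A₁, h2, by rwa [compl_eq_univ_diff]⟩
  have hall : ∀ A : Set ℕ, A.Infinite → Aᶜ.Infinite → |a A - a A₀| ≤ 16 * C + 8 := by
    intro A hA hA'
    obtain ⟨A₁, h1, A₃, h3, h1i, h3i, hc⟩ := common_moiety hA hA0.1
    have e1 := hsub A₁ A h1 h1i hA'
    have e2 := hsub A₁ (A₁ ∪ A₃) subset_union_left h1i hc
    have e3 := hsub A₃ (A₁ ∪ A₃) subset_union_right h3i hc
    have e4 := hsub A₃ A₀ h3 h3i hA0.2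
    rw [abs_le] at *
    constructor <;> linarith [e1.1, e1.2, e2.1, e2.2, e3.1, e3.2, e4.1, e4.2]
  refine ⟨{g | 20 * C + 9 < |f g - a A₀|}, ?_, |a A₀| + (20 * C + 9), ?_⟩
  swap
  · intro x hx
    have hx' : |f x - a A₀| ≤ 20 * C + 9 := by
      by_contra hh
      exact hx (not_le.1 hh)
    have : f x = a A₀ + (f x - a A₀) := by ring
    rw [this]
    exact (abs_add_le _ _).trans (by linarith)
  by_contra hcon
  obtain ⟨X, hX1, hX2⟩ := exists_subset_of_not_countable hcon
  -- bad elements for a given `g`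
  have hbad : ∀ g ∈ X, {b ∈ SA A₀ | C < |f (g * (g⁻¹ * b * g)) - f (g⁻¹ * b * g)| ∨
      2 * C + 1 < |f (g⁻¹ * b * g) - a (g ⁻¹' A₀)|}.Countable := by
    intro g _
    have hinj : Function.Injective (fun b : Equiv.Perm ℕ => g⁻¹ * b * g) := by
      intro x y hxy
      simpa using hxy
    have hm : (g ⁻¹' A₀).Infinite ∧ (g ⁻¹' A₀)ᶜ.Infinite := by
      constructor
      · exact hA0.1.preimage (by rw [g.surjective.range_eq]; exact subset_univ _)
      · rw [← preimage_compl]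
        exact hA0.2.preimage (by rw [g.surjective.range_eq]; exact subset_univ _)
    have hc := ((hC g).union (ha _ hm)).preimage hinj
    refine hc.mono ?_
    rintro b ⟨hb1, hb2⟩
    rcases hb2 with hb2 | hb2
    · exact Or.inl hb2
    · exact Or.inr ⟨conj_mem hb1, hb2⟩
  have hU := mk_biUnion_countable_le X hX2.le _ hbad
  obtain ⟨b, hb1, hb2⟩ : ∃ b ∈ SA A₀, b ∉ ⋃ g ∈ X,
      {b ∈ SA A₀ | C < |f (g * (g⁻¹ * b * g)) - f (g⁻¹ * b * g)| ∨
      2 * C + 1 < |f (g⁻¹ * b * g) - a (g ⁻¹' A₀)|} := by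
    by_contra hh
    push Not at hh
    have := (mk_le_mk_of_subset hh).trans hU
    rw [mk_SA _ hA0.1] at this
    exact absurd (h.trans_le this) (lt_irrefl _)
  obtain ⟨g, hg1, hg2⟩ : ∃ g ∈ X, g ∉ {x | C < |f (b * x) - f x|} := by
    by_contra hh
    push Not at hh
    exact not_countable_of_mk hX2 ((hC b).mono hh)
  simp only [mem_iUnion, not_exists] at hb2
  have hb3 := hb2 g hg1
  have hb4 : |f (g * (g⁻¹ * b * g)) - f (g⁻¹ * b * g)| ≤ C := by
    by_contra hh
    exact hb3 ⟨hb1, Or.inl (not_le.1 hh)⟩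
  have hb5 : |f (g⁻¹ * b * g) - a (g ⁻¹' A₀)| ≤ 2 * C + 1 := by
    by_contra hh
    exact hb3 ⟨hb1, Or.inr (not_le.1 hh)⟩
  have hg3 : |f (b * g) - f g| ≤ C := by
    by_contra hh
    exact hg2 (not_le.1 hh)
  have e1 : g * (g⁻¹ * b * g) = b * g := by group
  rw [e1] at hb4
  have hm : (g ⁻¹' A₀).Infinite ∧ (g ⁻¹' A₀)ᶜ.Infinite := by
    constructor
    · exact hA0.1.preimage (by rw [g.surjective.range_eq]; exact subset_univ _)
    · rw [← preimage_compl]
      exact hA0.2.preimage (by rw [g.surjective.range_eq]; exact subset_univ _)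
  have e2 := hall _ hm.1 hm.2
  have e3 : 20 * C + 9 < |f g - a A₀| := hX1 hg1
  have e4 : |f g - a A₀| ≤ 20 * C + 9 := by
    rw [abs_le] at *
    constructor <;> linarith [hb4.1, hb4.2, hb5.1, hb5.2, hg3.1, hg3.2, e2.1, e2.2]
  linarith

/-! ### Groups of cardinality `ℵ₁` -/

theorem countable_closure {S : Set G} (hS : S.Countable) :
    (Subgroup.closure S : Set G).Countable := by
  have h1 : (S ∪ S⁻¹).Countable := hS.union (hS.preimage inv_injective)
  have := h1.to_subtype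
  refine (countable_range (fun l : List ↥(S ∪ S⁻¹) => (l.map Subtype.val).prod)).mono ?_
  intro x hx
  have hx' : x ∈ Submonoid.closure (S ∪ S⁻¹) := by
    rw [← Subgroup.closure_toSubmonoid]; exact hx
  obtain ⟨l, h2, hl2⟩ := Submonoid.exists_list_of_mem_closure hx'
  refine ⟨l.attach.map (fun y => ⟨y.1, h2 y.1 y.2⟩), ?_⟩
  rw [← hl2]
  simp only [List.map_map]
  congr 1
  conv_rhs => rw [← List.attach_map_subtype_val l]
  rfl

theorem not_emuBounded_of_mk (hG : #G = ℵ₁) : ¬ EmuBounded ℵ₁ G := by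
  classical
  obtain ⟨_, _, hord⟩ := exists_ord_eq_type_lt G
  have hIio : ∀ z : G, (Iio z).Countable := fun z => by
    rw [cilao, ← hG]; exact mk_Iio_lt z hord
  have hIic : ∀ z : G, (Iic z).Countable := fun z => by
    rw [← Iio_union_right]
    exact (hIio z).union (countable_singleton z)
  have hGunc : ¬ (univ : Set G).Countable := by
    rw [cilao, mk_univ, hG]; exact lt_irrefl _
  let H : G → Subgroup G := fun z => Subgroup.closure (Iic z)
  have hHc : ∀ z, (H z : Set G).Countable := fun z => countable_closure (hIic z)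
  have hHm : ∀ z w, z ≤ w → H z ≤ H w := fun z w h => Subgroup.closure_mono (Iic_subset_Iic.2 h)
  have hHx : ∀ x, x ∈ H x := fun x => Subgroup.subset_closure (mem_Iic.2 le_rfl)
  have hex : ∀ x : G, {z : G | x ∈ H z}.Nonempty := fun x => ⟨x, hHx x⟩
  let lev : G → G := fun x => WellFounded.min (wellFounded_lt (α := G)) {z : G | x ∈ H z} (hex x)
  have hlev1 : ∀ x, x ∈ H (lev x) := fun x =>
    WellFounded.min_mem (wellFounded_lt (α := G)) {z : G | x ∈ H z} (hex x)
  have hlev2 : ∀ x z, x ∈ H z → lev x ≤ z := fun x z h =>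
    not_lt.1 (WellFounded.not_lt_min (wellFounded_lt (α := G)) (s := {z : G | x ∈ H z}) h)
  have hinv : ∀ z x g, x ∉ H z → g ∈ H z → lev (g * x) = lev x := by
    have haux : ∀ z x g, x ∉ H z → g ∈ H z → lev (g * x) ≤ lev x := by
      intro z x g hx hg
      have hz : z ≤ lev x := by
        by_contra h
        exact hx (hHm _ _ (not_le.1 h).le (hlev1 x))
      exact hlev2 _ _ ((H (lev x)).mul_mem (hHm _ _ hz hg) (hlev1 x))
    intro z x g hx hg
    refine le_antisymm (haux z x g hx hg) ?_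
    have h1 : g * x ∉ H z := by
      intro h
      apply hx
      have := (H z).mul_mem ((H z).inv_mem hg) h
      simpa using this
    have := haux z (g * x) g⁻¹ h1 ((H z).inv_mem hg)
    simpa using this
  -- the set of levels is uncountable
  have hS : ¬ (range lev).Countable := by
    intro h
    apply hGunc
    refine (h.biUnion (fun z _ => hHc z)).mono ?_
    intro x _
    exact mem_biUnion ⟨x, rfl⟩ (hlev1 x)
  have hSc : #(range lev) = ℵ₁ := by
    apply le_antisymm
    · rw [← hG]; exact mk_set_le _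
    · rw [cilao, not_lt] at hS; exact hS
  obtain ⟨e⟩ : Nonempty (range lev ≃ range lev × ℕ) := by
    rw [← Cardinal.eq]
    simp [hSc]
  let φ : range lev → ℕ := fun z => (e z).2
  have hφ : ∀ n, ¬ {z | φ z = n}.Countable := by
    intro n h
    apply hS
    rw [← countable_coe_iff]
    have hinj : Function.Injective (fun w : range lev => (⟨e.symm (w, n), by
        simp [φ]⟩ : {z | φ z = n})) := by
      intro a b hab
      simpa using hab
    have := h.to_subtype
    exact hinj.countable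
  let f : G → ℝ := fun x => (φ ⟨lev x, mem_range_self x⟩ : ℝ)
  intro hEmu
  obtain ⟨B, hB, C, hC⟩ := hEmu f (by
    intro F hF
    rw [← cilao] at hF
    -- a bound for F
    obtain ⟨z, hz⟩ : ∃ z, z ∉ ⋃ y ∈ F, Iic y := by
      by_contra hcon
      push Not at hcon
      apply hGunc
      exact (hF.biUnion (fun y _ => hIic y)).mono (fun z _ => hcon z)
    have hFz : ∀ y ∈ F, y ∈ H z := by
      intro y hy
      simp only [mem_iUnion, not_exists, mem_Iic, not_le] at hz
      exact hHm y z (hz y hy).le (hHx y)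
    refine ⟨(H z : Set G), (cilao _).1 (hHc z), ?_⟩
    refine lt_of_le_of_lt (b := 0) ?_ ENNReal.zero_lt_top
    refine iSup₂_le ?_
    intro x hx
    rw [nonpos_iff_eq_zero, Metric.ediam_eq_zero_iff]
    rintro _ ⟨_, ⟨g, hg, rfl⟩, rfl⟩ _ ⟨_, ⟨g', hg', rfl⟩, rfl⟩
    have e1 : lev (g * x) = lev x := hinv z x g hx (hFz g hg)
    have e2 : lev (g' * x) = lev x := hinv z x g' hx (hFz g' hg')
    simp only [f, e1, e2])
  rw [← cilao] at hB
  obtain ⟨n, hn⟩ := exists_nat_gt C
  apply hφ n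
  -- the fibre is contained in the image of `B`
  have hsub : {z | φ z = n} ⊆ (fun x : G => (⟨lev x, mem_range_self x⟩ : range lev)) '' B := by
    rintro ⟨_, x, rfl⟩ hx
    refine ⟨x, ?_, rfl⟩
    by_contra hxB
    have := hC x hxB
    have h2 : f x = n := by
      simp only [f]
      exact_mod_cast hx
    rw [h2] at this
    have h3 : |(n : ℝ)| = n := abs_of_nonneg (Nat.cast_nonneg n)
    rw [h3] at this
    linarith
  exact (hB.image _).mono hsub

/-- **The `ω₁`-ballean of `Sym(ω)` is emu-bounded if and only if `ℵ₁ < 𝔠`.** -/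
theorem main : EmuBounded ℵ₁ (Equiv.Perm ℕ) ↔ (ℵ₁ : Cardinal.{0}) < 𝔠 := by
  constructor
  · intro h
    by_contra hcon
    push Not at hcon
    have hc : #(Equiv.Perm ℕ) = 𝔠 := by
      rw [mk_perm_eq_two_power]; simp
    exact not_emuBounded_of_mk (G := Equiv.Perm ℕ)
      (by rw [hc]; exact le_antisymm hcon aleph_one_le_continuum) h
  · intro h f hf
    obtain ⟨B, hB, C, hC⟩ := bounded_of_lt h f hf
    exact ⟨B, (cilao B).1 hB, C, hC⟩

end Pool.Agent.Helper99.Emu
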